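import Pool.Agent.W_63dac5_h37.Potential

/-!
# The bootstrap
-/

namespace Pool.Agent.W_63dac5_h37

open ENNReal Finset
open Pool.Agent.W_MP_63dac5_pr

variable {μ : PMF ℕ}

/-- mean excess over a typical block. -/
noncomputable def gam (μ : PMF ℕ) (h m : ℕ) : ℝ≥0∞ := Ex (nu μ) m (fun w => Gx μ h (Nw w))

lemma Gx_anti (h : ℕ) {y y' : ℕ} (hy : y ≤ y') : Gx μ h y' ≤ Gx μ h y := by
  unfold Gx
  refine ENNReal.tsum_le_tsum fun a => mul_le_mul' le_rfl ?_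
  exact_mod_cast (by omega : a.1 - y' - h ≤ a.1 - y - h)

lemma gk_le (h k n : ℕ) : gk μ h k n ≤ Fp μ (n / 2) k * gam μ h (n - n / 2) := by
  unfold gk Fp gam
  rw [← Ex_append_mul]
  have e : n / 2 + (n - n / 2) = n := by omega
  rw [e]
  refine Ex_mono _ _ fun w _ => ?_
  have h1 : Pw (w.take (n / 2)) ≤ Pw w := by
    have := Pw_left_le (w.take (n / 2)) (w.drop (n / 2))
    rwa [List.take_append_drop] at this
  have h2 : Nw (w.drop (n / 2)) ≤ Nw w := by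
    have := Nw_right_le (w.take (n / 2)) (w.drop (n / 2))
    rwa [List.take_append_drop] at this
  by_cases hk : Pw w ≤ k
  · rw [if_pos hk, if_pos (h1.trans hk), one_mul]
    exact Gx_anti h h2
  · rw [if_neg hk]; exact bot_le

lemma gam_mir (h m : ℕ) : gam μ h m = Ex (nu μ) m (fun w => Gx μ h (Pw w)) := by
  unfold gam
  rw [← Ex_mir (nu_swap μ)]
  exact Ex_congr _ _ fun w _ => by rw [Nw_eq, mir_mir]

lemma sub_eq_count (x p : ℕ) : ((x - p : ℕ) : ℝ≥0∞) = ∑ i ∈ range x, if p ≤ i then 1 else 0 := by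
  rw [Finset.sum_ite, Finset.sum_const_zero, add_zero, Finset.sum_const, nsmul_eq_mul, mul_one]
  congr 1
  have : (range x).filter (fun i => p ≤ i) = Finset.Ico p x := by
    ext i; simp only [mem_filter, mem_range, mem_Ico]; omega
  rw [this, Nat.card_Ico]

lemma Fp_eq_N (m i : ℕ) : Fp μ m i = Ex (nu μ) m (fun w => if Nw w ≤ i then 1 else 0) := by
  unfold Fp
  rw [← Ex_mir (nu_swap μ)]
  exact Ex_congr _ _ fun w _ => by rw [Pw_eq, mir_mir]

lemma gam_le_sum (h m : ℕ) :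
    gam μ h m = ∑' a : ℕ × ℕ, nu μ a * ∑ i ∈ range (a.1 - h), Fp μ m i := by
  rw [gam_mir]
  unfold Gx
  rw [Ex_tsum]
  refine tsum_congr fun a => ?_
  rw [Ex_mul_left]
  congr 1
  unfold Fp
  rw [← Ex_sum]
  refine Ex_congr _ _ fun w _ => ?_
  rw [← sub_eq_count]
  congr 1
  omega

lemma sum_succ_le_sq (L : ℕ) : ∑ i ∈ range L, (i + 1) ≤ L ^ 2 := by
  induction L with
  | zero => simp
  | succ L ih => rw [Finset.sum_range_succ]; nlinarith

/-- the moment of order `a`. -/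
noncomputable def Mo (μ : PMF ℕ) (a : ℝ) : ℝ≥0∞ := ∑' d : ℕ, μ d * ENNReal.ofReal ((d : ℝ) ^ a)

lemma gam_le {h m : ℕ} (hh : 1 ≤ h) {a : ℝ} (ha : 2 ≤ a) {C : ℝ≥0∞}
    (hC : ∀ i, Fp μ m i ≤ C * ((i + 1 : ℕ) : ℝ≥0∞)) :
    gam μ h m ≤ C * (ENNReal.ofReal ((h : ℝ) ^ (2 - a)) * Mo μ a) := by
  rw [gam_le_sum]
  have h1 : ∀ x : ℕ × ℕ, ∑ i ∈ range (x.1 - h), Fp μ m i ≤
      C * (ENNReal.ofReal ((h : ℝ) ^ (2 - a)) * ENNReal.ofReal (((x.1 + x.2 : ℕ) : ℝ) ^ a)) := by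
    intro x
    calc ∑ i ∈ range (x.1 - h), Fp μ m i ≤ ∑ i ∈ range (x.1 - h), C * ((i + 1 : ℕ) : ℝ≥0∞) :=
          Finset.sum_le_sum fun i _ => hC i
      _ = C * ((∑ i ∈ range (x.1 - h), (i + 1) : ℕ) : ℝ≥0∞) := by
          rw [← Finset.mul_sum]; push_cast; rfl
      _ ≤ C * (((x.1 - h) ^ 2 : ℕ) : ℝ≥0∞) := by
          gcongr
          exact sum_succ_le_sq _
      _ ≤ _ := by
          gcongr
          rw [← ENNReal.ofReal_mul (by positivity), ← ENNReal.ofReal_natCast]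
          apply ENNReal.ofReal_le_ofReal
          by_cases hx : x.1 ≤ h
          · rw [Nat.sub_eq_zero_of_le hx]
            simp only [ne_eq, OfNat.ofNat_ne_zero, not_false_eq_true, zero_pow, Nat.cast_zero]
            positivity
          · push Not at hx
            have hh0 : (0 : ℝ) < h := by exact_mod_cast hh
            have hxh : (h : ℝ) ≤ x.1 := by exact_mod_cast hx.le
            have hx0 : (0 : ℝ) < x.1 := by linarith
            have e1 : (((x.1 - h) ^ 2 : ℕ) : ℝ) ≤ (x.1 : ℝ) ^ (2 : ℝ) := by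
              rw [Real.rpow_two]
              have : (x.1 - h) ^ 2 ≤ x.1 ^ 2 := Nat.pow_le_pow_left (Nat.sub_le _ _) 2
              exact_mod_cast this
            have e2 : (x.1 : ℝ) ^ (2 : ℝ) = (x.1 : ℝ) ^ (2 - a) * (x.1 : ℝ) ^ a := by
              rw [← Real.rpow_add hx0]; congr 1; ring
            have e3 : (x.1 : ℝ) ^ (2 - a) ≤ (h : ℝ) ^ (2 - a) :=
              Real.rpow_le_rpow_of_nonpos hh0 hxh (by linarith)
            have e4 : (x.1 : ℝ) ^ a ≤ ((x.1 + x.2 : ℕ) : ℝ) ^ a := by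
              refine Real.rpow_le_rpow hx0.le ?_ (by linarith)
              push_cast
              have : (0 : ℝ) ≤ x.2 := by positivity
              linarith
            calc _ ≤ (x.1 : ℝ) ^ (2 - a) * (x.1 : ℝ) ^ a := e1.trans e2.le
              _ ≤ _ := mul_le_mul e3 e4 (by positivity) (by positivity)
  refine (tsum_nu_le μ _ (fun d => C * (ENNReal.ofReal ((h : ℝ) ^ (2 - a)) *
    ENNReal.ofReal ((d : ℝ) ^ a))) (fun x => h1 x)).trans (le_of_eq ?_)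
  unfold Mo
  rw [← ENNReal.tsum_mul_left, ← ENNReal.tsum_mul_left]
  exact tsum_congr fun d => by ring

/-! ### real inequalities -/

lemma sum_rpow_le {p : ℝ} (hp0 : 0 ≤ p) (hp1 : p < 1) (s : ℕ) :
    ∑ n ∈ range s, ((n : ℝ) + 1) ^ (-p) ≤ (s : ℝ) ^ (1 - p) / (1 - p) := by
  have hq : 0 < 1 - p := by linarith
  induction s with
  | zero =>
    simp only [range_zero, sum_empty, Nat.cast_zero]
    positivity
  | succ s ih =>
    rw [Finset.sum_range_succ]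
    have hs : (0 : ℝ) < (s : ℝ) + 1 := by positivity
    have h1 : (s : ℝ) ^ (1 - p) ≤ ((s : ℝ) + 1) ^ (1 - p) * (1 - (1 - p) / (s + 1)) := by
      have h2 : (s : ℝ) = ((s : ℝ) + 1) * (1 + -(1 / ((s : ℝ) + 1))) := by field_simp; ring
      have h3 : -1 ≤ -(1 / ((s : ℝ) + 1)) := by
        rw [neg_le_neg_iff, div_le_one hs]
        have : (0 : ℝ) ≤ s := by positivity
        linarith
      have h4 := rpow_one_add_le_one_add_mul_self h3 hq.le (by linarith)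
      have h5 : (0 : ℝ) ≤ 1 + -(1 / ((s : ℝ) + 1)) := by linarith
      calc (s : ℝ) ^ (1 - p) = (((s : ℝ) + 1) * (1 + -(1 / ((s : ℝ) + 1)))) ^ (1 - p) := by
            rw [← h2]
        _ = ((s : ℝ) + 1) ^ (1 - p) * (1 + -(1 / ((s : ℝ) + 1))) ^ (1 - p) :=
            Real.mul_rpow hs.le h5
        _ ≤ ((s : ℝ) + 1) ^ (1 - p) * (1 + (1 - p) * -(1 / ((s : ℝ) + 1))) := by gcongr
        _ = _ := by ring
    have h6 : ((s : ℝ) + 1) ^ (1 - p) * ((1 - p) / (s + 1)) = (1 - p) * ((s : ℝ) + 1) ^ (-p) := by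
      rw [show (1 - p) = 1 + -p by ring, Real.rpow_add hs, Real.rpow_one]
      field_simp
    rw [le_div_iff₀ hq] at ih ⊢
    push_cast
    have h7 : ((s : ℝ) + 1) ^ (1 - p) * (1 - (1 - p) / (s + 1)) =
        ((s : ℝ) + 1) ^ (1 - p) - (1 - p) * ((s : ℝ) + 1) ^ (-p) := by
      rw [mul_sub, mul_one, h6]
    rw [h7] at h1
    linarith [h1, ih]

lemma half_rpow_le {φ : ℝ} (hφ0 : 0 ≤ φ) (hφ1 : φ ≤ 1) {n m : ℕ} (h : n + 1 ≤ 2 * (m + 1)) :
    ((m : ℝ) + 1) ^ (-φ) ≤ 2 * ((n : ℝ) + 1) ^ (-φ) := by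
  have h1 : ((n : ℝ) + 1) ≤ 2 * ((m : ℝ) + 1) := by exact_mod_cast h
  have hm : (0 : ℝ) < (m : ℝ) + 1 := by positivity
  have h2 : (2 * ((m : ℝ) + 1)) ^ (-φ) ≤ ((n : ℝ) + 1) ^ (-φ) :=
    Real.rpow_le_rpow_of_nonpos (by positivity) h1 (by linarith)
  have h3 : (2 * ((m : ℝ) + 1)) ^ (-φ) = 2 ^ (-φ) * ((m : ℝ) + 1) ^ (-φ) :=
    Real.mul_rpow (by norm_num) hm.le
  have h4 : (2 : ℝ) ^ (-φ) * 2 ^ φ = 1 := by
    rw [← Real.rpow_add (by norm_num)]; simp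
  have h5 : (2 : ℝ) ^ φ ≤ 2 := by
    calc (2 : ℝ) ^ φ ≤ 2 ^ (1 : ℝ) := Real.rpow_le_rpow_of_exponent_le (by norm_num) hφ1
      _ = 2 := Real.rpow_one 2
  have h6 : (0 : ℝ) < 2 ^ φ := by positivity
  calc ((m : ℝ) + 1) ^ (-φ) = 2 ^ φ * (2 ^ (-φ) * ((m : ℝ) + 1) ^ (-φ)) := by
        rw [← mul_assoc, mul_comm (2 ^ φ), h4, one_mul]
    _ = 2 ^ φ * (2 * ((m : ℝ) + 1)) ^ (-φ) := by rw [h3]
    _ ≤ 2 * ((n : ℝ) + 1) ^ (-φ) := mul_le_mul h5 h2 (by positivity) (by norm_num)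

/-- The induction hypothesis of the bootstrap. -/
def HF (μ : PMF ℕ) (φ A : ℝ) : Prop :=
  ∀ n k : ℕ, Fp μ n k ≤ ENNReal.ofReal (A * ((k : ℝ) + 1) * ((n : ℝ) + 1) ^ (-φ))

lemma HF_zero : HF μ 0 1 := by
  intro n k
  refine (Fp_le_one n k).trans ?_
  rw [← ENNReal.ofReal_one]
  apply ENNReal.ofReal_le_ofReal
  simp

lemma gam_bound {φ A a : ℝ} (hA : 0 ≤ A) (hH : HF μ φ A) {h m : ℕ} (hh : 1 ≤ h) (ha : 2 ≤ a)
    (hM : Mo μ a ≠ ∞) :
    gam μ h m ≤ ENNReal.ofReal (A * ((m : ℝ) + 1) ^ (-φ) * (h : ℝ) ^ (2 - a) * (Mo μ a).toReal) := by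
  have h1 := gam_le (μ := μ) (m := m) hh ha (C := ENNReal.ofReal (A * ((m : ℝ) + 1) ^ (-φ)))
    (fun i => by
      refine (hH m i).trans (le_of_eq ?_)
      rw [← ENNReal.ofReal_natCast, ← ENNReal.ofReal_mul (by positivity)]
      congr 1
      push_cast
      ring)
  refine h1.trans (le_of_eq ?_)
  rw [← ENNReal.ofReal_toReal hM, ← ENNReal.ofReal_mul (by positivity),
    ← ENNReal.ofReal_mul (by positivity), ENNReal.toReal_ofReal (by positivity)]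
  congr 1
  ring

/-- One step of the bootstrap. -/
theorem boot_step (h0 : μ 0 = 0) (hm : m1 μ ≠ ∞) {a : ℝ} (ha : 3 ≤ a) (hM : Mo μ a ≠ ∞)
    {φ A : ℝ} (hφ0 : 0 ≤ φ) (hφ1 : φ < 1 / 2) (hA : 1 ≤ A) (hH : HF μ φ A) :
    ∃ A', 1 ≤ A' ∧ HF μ (1 / 2 - (1 - 2 * φ) / (a - 1)) A' := by
  set θ := (1 - 2 * φ) / (a - 1) with hθ
  have ha1 : 0 < a - 1 := by linarith
  have hθ0 : 0 < θ := div_pos (by linarith) ha1
  have hθ2 : θ ≤ 1 / 2 := by
    rw [hθ, div_le_iff₀ ha1]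
    nlinarith
  set M := (Mo μ a).toReal with hMd
  have hM0 : 0 ≤ M := ENNReal.toReal_nonneg
  set D := 4 * A ^ 2 * M / (1 - 2 * φ) with hD
  have hD0 : 0 ≤ D := by
    have : 0 < 1 - 2 * φ := by linarith
    positivity
  -- the bound for s ≥ 1
  have key : ∀ s k : ℕ, 1 ≤ s → Fp μ s k ≤
      ENNReal.ofReal (17 * (2 + D) * ((k : ℝ) + 1) * (s : ℝ) ^ (θ - 1 / 2)) := by
    intro s k hs
    have hs0 : (0 : ℝ) < s := by exact_mod_cast hs
    have hs1 : (1 : ℝ) ≤ s := by exact_mod_cast hs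
    set h := ⌈(s : ℝ) ^ θ⌉₊ with hh
    have hsθ : 1 ≤ (s : ℝ) ^ θ := Real.one_le_rpow hs1 hθ0.le
    have hh1 : (s : ℝ) ^ θ ≤ h := Nat.le_ceil _
    have hh2 : (h : ℝ) ≤ 2 * (s : ℝ) ^ θ := by
      have := Nat.ceil_lt_add_one (show 0 ≤ (s : ℝ) ^ θ by positivity)
      linarith
    have hhpos : 1 ≤ h := by
      have : (0 : ℝ) < h := by linarith
      exact_mod_cast this
    -- the sum
    have hsum : ∑ n ∈ range s, gk μ h k n ≤
        ENNReal.ofReal (((k : ℝ) + 1) * D * (s : ℝ) ^ θ) := by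
      have h1 : ∀ n ∈ range s, gk μ h k n ≤ ENNReal.ofReal
          (((k : ℝ) + 1) * (4 * A ^ 2 * M) * (h : ℝ) ^ (2 - a) * ((n : ℝ) + 1) ^ (-(2 * φ))) := by
        intro n _
        refine (gk_le h k n).trans ?_
        have h2 := hH (n / 2) k
        have h3 := gam_bound (μ := μ) (by linarith) hH (h := h) (m := n - n / 2) hhpos
          (by linarith) hM
        refine (mul_le_mul' h2 h3).trans ?_
        rw [← ENNReal.ofReal_mul (by positivity)]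
        apply ENNReal.ofReal_le_ofReal
        have h4 : (((n / 2 : ℕ) : ℝ) + 1) ^ (-φ) ≤ 2 * ((n : ℝ) + 1) ^ (-φ) :=
          half_rpow_le hφ0 (by linarith) (by omega)
        have h5 : (((n - n / 2 : ℕ) : ℝ) + 1) ^ (-φ) ≤ 2 * ((n : ℝ) + 1) ^ (-φ) :=
          half_rpow_le hφ0 (by linarith) (by omega)
        have h6 : ((n : ℝ) + 1) ^ (-(2 * φ)) = ((n : ℝ) + 1) ^ (-φ) * ((n : ℝ) + 1) ^ (-φ) := by
          rw [← Real.rpow_add (by positivity)]; congr 1; ring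
        rw [h6]
        calc A * ((k : ℝ) + 1) * (((n / 2 : ℕ) : ℝ) + 1) ^ (-φ) *
              (A * (((n - n / 2 : ℕ) : ℝ) + 1) ^ (-φ) * (h : ℝ) ^ (2 - a) * M)
            ≤ A * ((k : ℝ) + 1) * (2 * ((n : ℝ) + 1) ^ (-φ)) *
              (A * (2 * ((n : ℝ) + 1) ^ (-φ)) * (h : ℝ) ^ (2 - a) * M) := by gcongr
          _ = _ := by ring
      refine (Finset.sum_le_sum h1).trans ?_
      rw [← ENNReal.ofReal_sum_of_nonneg (fun n _ => by positivity), ← Finset.mul_sum]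
      apply ENNReal.ofReal_le_ofReal
      have h2 := sum_rpow_le (p := 2 * φ) (by linarith) (by linarith) s
      have h3 : (h : ℝ) ^ (2 - a) ≤ (s : ℝ) ^ (θ * (2 - a)) := by
        rw [Real.rpow_mul hs0.le]
        exact Real.rpow_le_rpow_of_nonpos (by positivity) hh1 (by linarith)
      have h4 : (s : ℝ) ^ (θ * (2 - a)) * (s : ℝ) ^ (1 - 2 * φ) = (s : ℝ) ^ θ := by
        rw [← Real.rpow_add hs0]
        congr 1
        have : 1 - 2 * φ = θ * (a - 1) := by rw [hθ]; field_simp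
        rw [this]; ring
      have hφ' : 0 < 1 - 2 * φ := by linarith
      calc ((k : ℝ) + 1) * (4 * A ^ 2 * M) * (h : ℝ) ^ (2 - a) *
            ∑ n ∈ range s, ((n : ℝ) + 1) ^ (-(2 * φ))
          ≤ ((k : ℝ) + 1) * (4 * A ^ 2 * M) * (s : ℝ) ^ (θ * (2 - a)) *
            ((s : ℝ) ^ (1 - 2 * φ) / (1 - 2 * φ)) := by gcongr
        _ = ((k : ℝ) + 1) * (4 * A ^ 2 * M / (1 - 2 * φ)) *
            ((s : ℝ) ^ (θ * (2 - a)) * (s : ℝ) ^ (1 - 2 * φ)) := by ring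
        _ = _ := by rw [h4]
    have hPhi : Phi μ h k s ≤ ENNReal.ofReal ((2 + D) * ((k : ℝ) + 1) * (s : ℝ) ^ θ) := by
      unfold Phi
      rw [← ENNReal.ofReal_natCast]
      refine (add_le_add le_rfl hsum).trans ?_
      rw [← ENNReal.ofReal_add (by positivity) (by positivity)]
      apply ENNReal.ofReal_le_ofReal
      push_cast
      have : (h : ℝ) * ((k : ℝ) + 1) ≤ 2 * (s : ℝ) ^ θ * ((k : ℝ) + 1) := by gcongr
      nlinarith
    have hmain := main_ineq h0 hm h k s hs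
    have hsq : ENNReal.ofReal ((s : ℝ) ^ (1 / 2 : ℝ)) ≤ ((Nat.sqrt s + 1 : ℕ) : ℝ≥0∞) := by
      rw [← ENNReal.ofReal_natCast]
      apply ENNReal.ofReal_le_ofReal
      rw [← Real.sqrt_eq_rpow, Real.sqrt_le_left (by positivity)]
      have := (Nat.lt_succ_sqrt s).le
      have h2 : s ≤ (Nat.sqrt s + 1) ^ 2 := by rw [sq]; exact this
      exact_mod_cast h2
    have h1 : ENNReal.ofReal ((s : ℝ) ^ (1 / 2 : ℝ)) * Fp μ s k ≤
        ENNReal.ofReal ((s : ℝ) ^ (1 / 2 : ℝ)) *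
          ENNReal.ofReal (17 * (2 + D) * ((k : ℝ) + 1) * (s : ℝ) ^ (θ - 1 / 2)) := by
      calc ENNReal.ofReal ((s : ℝ) ^ (1 / 2 : ℝ)) * Fp μ s k
          ≤ ((Nat.sqrt s + 1 : ℕ) : ℝ≥0∞) * Fp μ s k := by gcongr
        _ ≤ 17 * Phi μ h k s := hmain
        _ ≤ 17 * ENNReal.ofReal ((2 + D) * ((k : ℝ) + 1) * (s : ℝ) ^ θ) := by gcongr
        _ = _ := by
            have e17 : (17 : ℝ≥0∞) = ENNReal.ofReal 17 := by simp
            rw [e17, ← ENNReal.ofReal_mul (by norm_num), ← ENNReal.ofReal_mul (by positivity)]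
            congr 1
            have h2 : (s : ℝ) ^ (1 / 2 : ℝ) * (s : ℝ) ^ (θ - 1 / 2) = (s : ℝ) ^ θ := by
              rw [← Real.rpow_add hs0]; congr 1; ring
            calc 17 * ((2 + D) * ((k : ℝ) + 1) * (s : ℝ) ^ θ)
                = 17 * ((2 + D) * ((k : ℝ) + 1) *
                  ((s : ℝ) ^ (1 / 2 : ℝ) * (s : ℝ) ^ (θ - 1 / 2))) := by rw [h2]
              _ = _ := by ring
    have hne : ENNReal.ofReal ((s : ℝ) ^ (1 / 2 : ℝ)) ≠ 0 := by
      rw [Ne, ENNReal.ofReal_eq_zero, not_le]; positivity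
    exact (ENNReal.mul_le_mul_iff_right hne ENNReal.ofReal_ne_top).1 h1
  -- all n
  refine ⟨2 * (17 * (2 + D)), by nlinarith, ?_⟩
  intro n k
  rcases Nat.eq_zero_or_pos n with rfl | hn
  · refine (Fp_le_one 0 k).trans ?_
    rw [← ENNReal.ofReal_one]
    apply ENNReal.ofReal_le_ofReal
    simp only [Nat.cast_zero, zero_add, Real.one_rpow, mul_one]
    have : (0 : ℝ) ≤ k := by positivity
    nlinarith
  · refine (key n k hn).trans ?_
    apply ENNReal.ofReal_le_ofReal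
    obtain ⟨m, rfl⟩ : ∃ m, n = m + 1 := ⟨n - 1, by omega⟩
    have h1 := half_rpow_le (φ := 1 / 2 - θ) (by linarith) (by linarith) (n := m + 1) (m := m)
      (by omega)
    have e : θ - 1 / 2 = -(1 / 2 - θ) := by ring
    rw [e]
    push_cast at h1 ⊢
    calc 17 * (2 + D) * ((k : ℝ) + 1) * ((m : ℝ) + 1) ^ (-(1 / 2 - θ))
        ≤ 17 * (2 + D) * ((k : ℝ) + 1) * (2 * ((m : ℝ) + 1 + 1) ^ (-(1 / 2 - θ))) := by gcongr
      _ = _ := by ring

/-- The bound on the number of unsatisfied points. -/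
theorem F_bound (h0 : μ 0 = 0) (hm : m1 μ ≠ ∞) {a : ℝ} (ha : 3 < a) (hM : Mo μ a ≠ ∞)
    {ε : ℝ} (hε : 0 < ε) : ∃ A, 1 ≤ A ∧ HF μ (1 / 2 - ε) A := by
  set lam := 2 / (a - 1) with hlam
  have ha1 : 0 < a - 1 := by linarith
  have hl0 : 0 < lam := by positivity
  have hl1 : lam < 1 := by rw [hlam, div_lt_one ha1]; linarith
  have key : ∀ j : ℕ, ∃ A, 1 ≤ A ∧ HF μ (1 / 2 - lam ^ j / 2) A := by
    intro j
    induction j with
    | zero =>
      refine ⟨1, le_rfl, ?_⟩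
      have e : (1 : ℝ) / 2 - lam ^ 0 / 2 = 0 := by norm_num
      rw [e]
      exact HF_zero
    | succ j ih =>
      obtain ⟨A, hA, hH⟩ := ih
      have h1 : lam ^ j ≤ 1 := pow_le_one₀ hl0.le hl1.le
      have h2 : 0 < lam ^ j := by positivity
      obtain ⟨A', hA', hH'⟩ := boot_step h0 hm ha.le hM (φ := 1 / 2 - lam ^ j / 2)
        (by linarith) (by linarith) hA hH
      refine ⟨A', hA', ?_⟩
      have e : (1 : ℝ) / 2 - (1 - 2 * (1 / 2 - lam ^ j / 2)) / (a - 1) =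
          1 / 2 - lam ^ (j + 1) / 2 := by
        rw [pow_succ, hlam]
        field_simp
        ring
      rw [e] at hH'
      exact hH'
  obtain ⟨j, hj⟩ := exists_pow_lt_of_lt_one (show 0 < 2 * ε by linarith) hl1
  obtain ⟨A, hA, hH⟩ := key j
  refine ⟨A, hA, fun n k => (hH n k).trans ?_⟩
  apply ENNReal.ofReal_le_ofReal
  have h1 : ((n : ℝ) + 1) ^ (-(1 / 2 - lam ^ j / 2)) ≤ ((n : ℝ) + 1) ^ (-(1 / 2 - ε)) := by
    refine Real.rpow_le_rpow_of_exponent_le ?_ (by linarith)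
    have : (0 : ℝ) ≤ n := by positivity
    linarith
  have : 0 ≤ A := by linarith
  gcongr

end Pool.Agent.W_63dac5_h37
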