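import Pool.Agent.W_63dac5_h37.Moments

/-!
# Concentration of the walk
-/

namespace Pool.Agent.W_63dac5_h37

open ENNReal Finset
open Pool.Agent.W_MP_63dac5_pr

lemma Ad_comp (d e : ℕ) (h : ℤ → ℝ) (z : ℤ) : Ad d (fun y => Ad e h y) z = Ad (d + e) h z := by
  induction d generalizing z with
  | zero => rw [Ad_zero, Nat.zero_add]
  | succ d ih =>
    rw [Ad_succ, ih, ih, show d + 1 + e = (d + e) + 1 by ring, Ad_succ]

lemma Ad_nonneg {h : ℤ → ℝ} (hh : ∀ z, 0 ≤ h z) (d : ℕ) (z : ℤ) : 0 ≤ Ad d h z :=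
  Av_nonneg fun _ _ => hh _

lemma Ex_walk (μ : PMF ℕ) {h : ℤ → ℝ} (hh : ∀ z, 0 ≤ h z) (n : ℕ) (z : ℤ) :
    Ex (nu μ) n (fun w => ENNReal.ofReal (h (z + Sw w))) =
      Ex (fun d => μ d) n (fun ds => ENNReal.ofReal (Ad ds.sum h z)) := by
  induction n generalizing z with
  | zero => simp [Ex, Sw, Ad_zero]
  | succ n ih =>
    simp only [Ex]
    calc ∑' a : ℕ × ℕ, nu μ a * Ex (nu μ) n (fun w => ENNReal.ofReal (h (z + Sw (a :: w))))
        = ∑' a : ℕ × ℕ, nu μ a * Ex (fun d => μ d) n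
            (fun ds => ENNReal.ofReal (Ad ds.sum h (z + a.2 - a.1))) := by
          refine tsum_congr fun a => ?_
          congr 1
          rw [← ih]
          refine Ex_congr _ _ fun w _ => ?_
          rw [Sw_cons]
          congr 2
          ring
      _ = Ex (fun d => μ d) n (fun ds => ∑' a : ℕ × ℕ, nu μ a *
            ENNReal.ofReal (Ad ds.sum h (z + a.2 - a.1))) := by
          rw [Ex_tsum]
          exact tsum_congr fun a => (Ex_mul_left _ _ _ _).symm
      _ = Ex (fun d => μ d) n (fun ds => ∑' d : ℕ, μ d *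
            ENNReal.ofReal (Ad (d + ds.sum) h z)) := by
          refine Ex_congr _ _ fun ds _ => ?_
          rw [tsum_nu μ (fun a : ℕ × ℕ => Ad ds.sum h (z + a.2 - a.1))
            (fun a => Ad_nonneg hh _ _)]
          refine tsum_congr fun d => ?_
          rw [← Ad_comp]
          rfl
      _ = _ := by
          rw [Ex_tsum]
          refine tsum_congr fun d => ?_
          rw [Ex_mul_left]
          simp only [List.sum_cons]

lemma central_bound (m : ℕ) : ((Nat.centralBinom m : ℝ) / 4 ^ m) ^ 2 * (2 * m + 1) ≤ 1 := by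
  induction m with
  | zero => simp
  | succ m ih =>
    have h1 := Nat.succ_mul_centralBinom_succ m
    have h2 : ((m : ℝ) + 1) * (Nat.centralBinom (m + 1) : ℝ) =
        2 * (2 * m + 1) * (Nat.centralBinom m : ℝ) := by exact_mod_cast h1
    set x := (Nat.centralBinom m : ℝ) / 4 ^ m with hx
    have hm : (0 : ℝ) < (m : ℝ) + 1 := by positivity
    have h3 : (Nat.centralBinom (m + 1) : ℝ) / 4 ^ (m + 1) =
        x * ((2 * m + 1) / (2 * (m + 1))) := by
      rw [hx, pow_succ]
      field_simp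
      linarith
    rw [h3]
    have hx0 : 0 ≤ x ^ 2 * (2 * m + 1) := by positivity
    have h4 : (x * ((2 * (m : ℝ) + 1) / (2 * (m + 1)))) ^ 2 * (2 * ((m + 1 : ℕ) : ℝ) + 1) =
        (x ^ 2 * (2 * m + 1)) * (((2 * m + 1) * (2 * m + 3)) / (2 * (m + 1)) ^ 2) := by
      push_cast
      field_simp
      ring
    rw [h4]
    have h5 : ((2 * (m : ℝ) + 1) * (2 * m + 3)) / (2 * (m + 1)) ^ 2 ≤ 1 := by
      rw [div_le_one (by positivity)]
      nlinarith
    have h6 : 0 ≤ ((2 * (m : ℝ) + 1) * (2 * m + 3)) / (2 * (m + 1)) ^ 2 := by positivity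
    calc _ ≤ 1 * 1 := mul_le_mul ih h5 h6 (by norm_num)
      _ = 1 := by ring

/-- the indicator of a point. -/
noncomputable def ind (c : ℤ) (y : ℤ) : ℝ := if y = c then 1 else 0

lemma ind_nonneg (c y : ℤ) : 0 ≤ ind c y := by unfold ind; split_ifs <;> norm_num

lemma Ad_ind_even (m : ℕ) (c z : ℤ) : Ad (2 * m) (ind c) z ≤ (Nat.centralBinom m : ℝ) / 4 ^ m := by
  unfold Ad Av ind
  set S := (antidiagonal (2 * m)).filter (fun a : ℕ × ℕ => z + a.2 - a.1 = c) with hS
  have hcard : S.card ≤ 1 := by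
    rw [Finset.card_le_one]
    intro a ha b hb
    rw [hS, Finset.mem_filter, HasAntidiagonal.mem_antidiagonal] at ha hb
    ext <;> omega
  calc ∑ a ∈ antidiagonal (2 * m), (((2 * m).choose a.1 : ℝ) / 2 ^ (2 * m)) *
        (if z + (a.2 : ℤ) - a.1 = c then 1 else 0)
      = ∑ a ∈ S, (((2 * m).choose a.1 : ℝ) / 2 ^ (2 * m)) := by
        rw [hS, Finset.sum_filter]
        refine Finset.sum_congr rfl fun a _ => ?_
        split_ifs <;> simp
    _ ≤ ∑ a ∈ S, (Nat.centralBinom m : ℝ) / 4 ^ m := by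
        refine Finset.sum_le_sum fun a _ => ?_
        rw [pow_mul]
        norm_num
        gcongr
        have := Nat.choose_le_middle a.1 (2 * m)
        rw [show 2 * m / 2 = m by omega] at this
        exact_mod_cast this
    _ = S.card * ((Nat.centralBinom m : ℝ) / 4 ^ m) := by simp
    _ ≤ 1 * ((Nat.centralBinom m : ℝ) / 4 ^ m) := by
        gcongr
        exact_mod_cast hcard
    _ = _ := one_mul _

lemma Ad_ind_le {N : ℕ} (hN : 1 ≤ N) (c z : ℤ) : Ad N (ind c) z ≤ 1 / Real.sqrt N := by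
  have key : ∀ (m : ℕ) (z : ℤ), Ad (2 * m) (ind c) z ≤ 1 / Real.sqrt (2 * m + 1) := by
    intro m z
    refine (Ad_ind_even m c z).trans ?_
    rw [le_div_iff₀ (by positivity)]
    have h1 := central_bound m
    have h2 : ((Nat.centralBinom m : ℝ) / 4 ^ m * Real.sqrt (2 * m + 1)) ^ 2 ≤ 1 ^ 2 := by
      rw [mul_pow, Real.sq_sqrt (by positivity)]
      linarith
    exact le_of_sq_le_sq h2 (by norm_num)
  rcases Nat.even_or_odd' N with ⟨m, rfl | rfl⟩
  · refine (key m z).trans ?_
    have hm : (0 : ℝ) < ((2 * m : ℕ) : ℝ) := by exact_mod_cast hN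
    refine one_div_le_one_div_of_le (Real.sqrt_pos.2 hm) (Real.sqrt_le_sqrt ?_)
    push_cast
    linarith
  · rw [Ad_succ]
    have h1 := key m (z + 1)
    have h2 := key m (z - 1)
    push_cast
    linarith

/-- The walk is spread out. -/
theorem conc (μ : PMF ℕ) (h0 : μ 0 = 0) {n : ℕ} (hn : 1 ≤ n) (c : ℤ) :
    Ex (nu μ) n (fun w => if Sw w = c then 1 else 0) ≤ ENNReal.ofReal (1 / Real.sqrt n) := by
  have h1 : Ex (nu μ) n (fun w => if Sw w = c then 1 else 0) =
      Ex (nu μ) n (fun w => ENNReal.ofReal (ind c (0 + Sw w))) := by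
    refine Ex_congr _ _ fun w _ => ?_
    unfold ind
    rw [zero_add]
    split_ifs <;> simp
  rw [h1, Ex_walk μ (ind_nonneg c)]
  have h2 : Ex (fun d => μ d) n (fun _ => ENNReal.ofReal (1 / Real.sqrt n)) =
      ENNReal.ofReal (1 / Real.sqrt n) := Ex_const μ.tsum_coe n _
  rw [← h2]
  refine Ex_mono' _ fun ds hds hsupp => ?_
  apply ENNReal.ofReal_le_ofReal
  have h3 : n ≤ ds.sum := by
    rw [← hds]
    clear hds h2 h1 hn
    induction ds with
    | nil => simp
    | cons d ds ih =>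
      have h4 := ih fun a ha => hsupp a (List.mem_cons_of_mem _ ha)
      have h5 : d ≠ 0 := by
        rintro rfl
        exact hsupp 0 (by simp) h0
      simp only [List.length_cons, List.sum_cons]
      omega
  refine (Ad_ind_le (hn.trans h3) c 0).trans ?_
  have hn0 : (0 : ℝ) < n := by exact_mod_cast hn
  exact one_div_le_one_div_of_le (Real.sqrt_pos.2 hn0) (Real.sqrt_le_sqrt (by exact_mod_cast h3))

end Pool.Agent.W_63dac5_h37
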