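import Pool.Agent.W_MP_63dac5_pr.Stack

/-!
# Words: unused left stubs, mirror images, blocks acting on a stack
-/

namespace Pool.Agent.W_63dac5_h37

open Pool.Agent.W_MP_63dac5_pr

lemma serve_append (l : ℕ) (A u : List ℕ) :
    serve l (A ++ u) = serve l A ++ serve (l - nz A) u := by
  induction A generalizing l with
  | nil => cases l <;> simp [serve, nz]
  | cons a t ih =>
    cases l with
    | zero => simp [serve_zero]
    | succ l =>
      cases a with
      | zero => simp only [List.cons_append, serve, nz, ih]
      | succ a =>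
        simp only [List.cons_append, serve, nz, ih]
        congr 3
        omega

lemma nz_append (A u : List ℕ) : nz (A ++ u) = nz A + nz u := by
  induction A with
  | nil => simp [nz]
  | cons a t ih =>
    cases a with
    | zero => simpa [nz] using ih
    | succ a => simp only [List.cons_append, nz, ih]; ring

lemma nz_le_sum (u : List ℕ) : nz u ≤ u.sum := by
  induction u with
  | nil => simp [nz]
  | cons a t ih =>
    cases a with
    | zero => simpa [nz] using ih
    | succ a => simp only [nz, List.sum_cons]; omega

/-- the sum after serving. -/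
lemma serve_sum (l : ℕ) (u : List ℕ) : (serve l u).sum + min l (nz u) = u.sum := by
  induction u generalizing l with
  | nil => cases l <;> simp [serve, nz]
  | cons a t ih =>
    cases l with
    | zero => simp [serve_zero]
    | succ l =>
      cases a with
      | zero =>
        simp only [serve, nz, List.sum_cons, zero_add]
        exact ih (l + 1)
      | succ a =>
        simp only [serve, nz, List.sum_cons]
        have := ih l
        omega

/-- the unused left stubs of the letters of a word processed on the stack `u`. -/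
def need : List ℕ → List (ℕ × ℕ) → List ℕ
  | _, [] => []
  | u, a :: w => (a.1 - nz u) :: need (stp u a) w

/-- serve a list of demands. -/
def srvL : List ℕ → List ℕ → List ℕ
  | [], u => u
  | l :: ls, u => srvL ls (serve l u)

/-- a list of demands can be served. -/
def okL : List ℕ → List ℕ → Prop
  | [], _ => True
  | l :: ls, u => l ≤ nz u ∧ okL ls (serve l u)

lemma stp_append (A u : List ℕ) (a : ℕ × ℕ) :
    stp (A ++ u) a = stp A a ++ serve (a.1 - nz A) u := by
  simp only [stp, serve_append, List.cons_append]

lemma run_append_stack (A u : List ℕ) (w : List (ℕ × ℕ)) :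
    run (A ++ u) w = run A w ++ srvL (need A w) u := by
  induction w generalizing A u with
  | nil => simp [run, need, srvL]
  | cons a w ih => simp only [run, need, srvL, stp_append, ih]

lemma okrun_append_stack (A u : List ℕ) (w : List (ℕ × ℕ)) :
    okrun (A ++ u) w ↔ okL (need A w) u := by
  induction w generalizing A u with
  | nil => simp [okrun, need, okL]
  | cons a w ih =>
    simp only [okrun, need, okL, stp_append, ih, nz_append]
    refine and_congr_left fun _ => ?_
    omega

lemma run_eq (u : List ℕ) (w : List (ℕ × ℕ)) : run u w = run [] w ++ srvL (need [] w) u :=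
  run_append_stack [] u w

lemma okrun_eq (u : List ℕ) (w : List (ℕ × ℕ)) : okrun u w ↔ okL (need [] w) u :=
  okrun_append_stack [] u w

lemma need_append (u : List ℕ) (w w' : List (ℕ × ℕ)) :
    need u (w ++ w') = need u w ++ need (run u w) w' := by
  induction w generalizing u with
  | nil => rfl
  | cons a w ih => simp only [List.cons_append, need, run, ih]

lemma need_length (u : List ℕ) (w : List (ℕ × ℕ)) : (need u w).length = w.length := by
  induction w generalizing u with
  | nil => rfl
  | cons a w ih => simp [need, ih]

lemma okL_sum {ls u : List ℕ} (h : okL ls u) : (srvL ls u).sum + ls.sum = u.sum := by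
  induction ls generalizing u with
  | nil => simp [srvL]
  | cons l ls ih =>
    obtain ⟨h1, h2⟩ := h
    have h3 := ih h2
    have h4 := serve_sum l u
    rw [min_eq_left h1] at h4
    simp only [srvL, List.sum_cons]
    omega

/-! ### numbers attached to a word -/

/-- unused right stubs. -/
def Tw (w : List (ℕ × ℕ)) : ℕ := (run [] w).sum
/-- unused left stubs. -/
def Rw (w : List (ℕ × ℕ)) : ℕ := (need [] w).sum
/-- letters with unused right stubs. -/
def Nw (w : List (ℕ × ℕ)) : ℕ := nz (run [] w)
/-- letters with unused left stubs. -/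
def Pw (w : List (ℕ × ℕ)) : ℕ := nz (need [] w)

lemma Nw_le_Tw (w : List (ℕ × ℕ)) : Nw w ≤ Tw w := nz_le_sum _
lemma Pw_le_Rw (w : List (ℕ × ℕ)) : Pw w ≤ Rw w := nz_le_sum _

/-- conservation. -/
lemma conserve (u : List ℕ) (w : List (ℕ × ℕ)) :
    (run u w).sum + (w.map Prod.fst).sum = u.sum + (w.map Prod.snd).sum + (need u w).sum := by
  induction w generalizing u with
  | nil => simp [run, need]
  | cons a w ih =>
    have h1 := ih (stp u a)
    have h2 := serve_sum a.1 u
    have h3 : (stp u a).sum = a.2 + (serve a.1 u).sum := by simp [stp]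
    simp only [run, need, List.map_cons, List.sum_cons]
    omega

lemma Tw_conserve (w : List (ℕ × ℕ)) :
    Tw w + (w.map Prod.fst).sum = (w.map Prod.snd).sum + Rw w := by
  have := conserve [] w
  simpa [Tw, Rw] using this

lemma Rw_le (w : List (ℕ × ℕ)) : Rw w ≤ (w.map Prod.fst).sum := by
  unfold Rw
  generalize ([] : List ℕ) = u
  induction w generalizing u with
  | nil => simp [need]
  | cons a w ih =>
    simp only [need, List.map_cons, List.sum_cons]
    have := ih (stp u a)
    omega

/-! ### one more letter -/

lemma run_snoc (u : List ℕ) (w : List (ℕ × ℕ)) (a : ℕ × ℕ) :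
    run u (w ++ [a]) = stp (run u w) a := by
  rw [run_append]; rfl

lemma need_snoc (u : List ℕ) (w : List (ℕ × ℕ)) (a : ℕ × ℕ) :
    need u (w ++ [a]) = need u w ++ [a.1 - nz (run u w)] := by
  rw [need_append]; rfl

lemma Tw_snoc (w : List (ℕ × ℕ)) (a : ℕ × ℕ) :
    Tw (w ++ [a]) + min a.1 (Nw w) = a.2 + Tw w := by
  unfold Tw Nw
  rw [run_snoc]
  have := serve_sum a.1 (run [] w)
  simp only [stp, List.sum_cons]
  omega

lemma Pw_snoc (w : List (ℕ × ℕ)) (a : ℕ × ℕ) :
    Pw (w ++ [a]) = Pw w + (if Nw w < a.1 then 1 else 0) := by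
  unfold Pw Nw
  rw [need_snoc, nz_append]
  congr 1
  split_ifs with h
  · obtain ⟨k, hk⟩ : ∃ k, a.1 - nz (run [] w) = k + 1 := ⟨a.1 - nz (run [] w) - 1, by omega⟩
    rw [hk]; rfl
  · have : a.1 - nz (run [] w) = 0 := by omega
    rw [this]; rfl

lemma Rw_snoc (w : List (ℕ × ℕ)) (a : ℕ × ℕ) :
    Rw (w ++ [a]) = Rw w + (a.1 - Nw w) := by
  unfold Rw Nw
  rw [need_snoc]
  simp

/-! ### sub-words -/

lemma Pw_left_le (w w' : List (ℕ × ℕ)) : Pw w ≤ Pw (w ++ w') := by
  unfold Pw
  rw [need_append, nz_append]
  omega

lemma Nw_right_le (w w' : List (ℕ × ℕ)) : Nw w' ≤ Nw (w ++ w') := by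
  unfold Nw
  rw [run_append, run_eq (run [] w) w', nz_append]
  omega

lemma Tw_right_le (w w' : List (ℕ × ℕ)) : Tw w' ≤ Tw (w ++ w') := by
  unfold Tw
  rw [run_append, run_eq (run [] w) w', List.sum_append]
  omega

lemma Tw_le_run (u : List ℕ) (w : List (ℕ × ℕ)) : Tw w ≤ (run u w).sum := by
  unfold Tw
  rw [run_eq u w, List.sum_append]
  omega

lemma Rw_le_of_okrun {u : List ℕ} {w : List (ℕ × ℕ)} (h : okrun u w) :
    Rw w ≤ u.sum ∧ (run u w).sum + Rw w = u.sum + Tw w := by
  rw [okrun_eq] at h
  have h1 := okL_sum h
  refine ⟨by unfold Rw; omega, ?_⟩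
  unfold Rw Tw
  rw [run_eq, List.sum_append]
  omega

/-- the demand decreases when the stack grows at the bottom. -/
lemma need_sum_le (u : List ℕ) (w : List (ℕ × ℕ)) : (need u w).sum ≤ Rw w := by
  have key : ∀ (w : List (ℕ × ℕ)) (A u : List ℕ), (need (A ++ u) w).sum ≤ (need A w).sum := by
    intro w
    induction w with
    | nil => intro A u; simp [need]
    | cons a w ih =>
      intro A u
      simp only [need, List.sum_cons, stp_append, nz_append]
      have := ih (stp A a) (serve (a.1 - nz A) u)
      omega
  exact key w [] u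

/-! ### mirror images -/

/-- the mirror image. -/
def mir (w : List (ℕ × ℕ)) : List (ℕ × ℕ) := (w.map Prod.swap).reverse

lemma mir_mir (w : List (ℕ × ℕ)) : mir (mir w) = w := by
  unfold mir
  rw [List.map_reverse, List.reverse_reverse, List.map_map]
  simp

lemma mir_length (w : List (ℕ × ℕ)) : (mir w).length = w.length := by simp [mir]

lemma mir_cons (a : ℕ × ℕ) (w : List (ℕ × ℕ)) : mir (a :: w) = mir w ++ [a.swap] := by
  simp [mir]

lemma srvL_singleton (ls : List ℕ) (r : ℕ) : srvL ls [r] = [r - nz ls] := by
  induction ls generalizing r with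
  | nil => simp [srvL, nz]
  | cons l ls ih =>
    cases l with
    | zero => simp only [srvL, nz, serve_zero, ih]
    | succ l =>
      cases r with
      | zero =>
        have : serve (l + 1) [0] = [0] := by simp [serve]
        simp only [srvL, nz, this, ih]
        simp
      | succ r =>
        have : serve (l + 1) [r + 1] = [r] := by cases l <;> simp [serve]
        simp only [srvL, nz, this, ih]
        congr 1
        omega

lemma run_cons_nil (a : ℕ × ℕ) (w : List (ℕ × ℕ)) :
    run [] (a :: w) = run [] w ++ [a.2 - Pw w] := by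
  have h1 : stp [] a = [] ++ [a.2] := by
    unfold stp
    cases a.1 <;> simp [serve]
  simp only [run]
  rw [h1, run_append_stack, srvL_singleton]
  rfl

/-- The mirror symmetry. -/
theorem run_eq_need_mir (w : List (ℕ × ℕ)) : run [] w = need [] (mir w) := by
  have key : ∀ (n : ℕ) (w : List (ℕ × ℕ)), w.length = n → run [] w = need [] (mir w) := by
    intro n
    induction n with
    | zero =>
      intro w hw
      rw [List.length_eq_zero_iff] at hw
      subst hw
      rfl
    | succ n ih =>
      intro w hw
      cases w with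
      | nil => simp at hw
      | cons a w =>
        have hw' : w.length = n := by simpa using hw
        rw [run_cons_nil, mir_cons, need_snoc, ih w hw']
        congr 1
        have h2 := ih (mir w) (by rw [mir_length, hw'])
        rw [mir_mir] at h2
        rw [h2]
        rfl
  exact key _ w rfl

lemma need_eq_run_mir (w : List (ℕ × ℕ)) : need [] w = run [] (mir w) := by
  rw [run_eq_need_mir, mir_mir]

lemma Nw_eq (w : List (ℕ × ℕ)) : Nw w = Pw (mir w) := by unfold Nw Pw; rw [run_eq_need_mir]
lemma Tw_eq (w : List (ℕ × ℕ)) : Tw w = Rw (mir w) := by unfold Tw Rw; rw [run_eq_need_mir]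
lemma Pw_eq (w : List (ℕ × ℕ)) : Pw w = Nw (mir w) := by unfold Nw Pw; rw [need_eq_run_mir]
lemma Rw_eq (w : List (ℕ × ℕ)) : Rw w = Tw (mir w) := by unfold Tw Rw; rw [need_eq_run_mir]

end Pool.Agent.W_63dac5_h37
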