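import Pool.Agent.W_MP_63dac5_pr.Avg
import Pool.Agent.W_63dac5_h37.Words

/-!
# Tools for expectations over words
-/

namespace Pool.Agent.W_63dac5_h37

open ENNReal Finset
open Pool.Agent.W_MP_63dac5_pr

section General

variable {α : Type*} {ν : α → ℝ≥0∞}

lemma Ex_add (n : ℕ) (f g : List α → ℝ≥0∞) :
    Ex ν n (fun w => f w + g w) = Ex ν n f + Ex ν n g := by
  induction n generalizing f g with
  | zero => rfl
  | succ n ih =>
    simp only [Ex, ih, mul_add]
    rw [ENNReal.tsum_add]

lemma Ex_mul_right (n : ℕ) (c : ℝ≥0∞) (f : List α → ℝ≥0∞) :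
    Ex ν n (fun w => f w * c) = Ex ν n f * c := by
  have : (fun w => f w * c) = fun w => c * f w := by funext w; ring
  rw [this, Ex_mul_left, mul_comm]

lemma Ex_tsum {ι : Type*} (n : ℕ) (g : ι → List α → ℝ≥0∞) :
    Ex ν n (fun w => ∑' i, g i w) = ∑' i, Ex ν n (g i) := by
  induction n generalizing g with
  | zero => rfl
  | succ n ih =>
    simp only [Ex, ih]
    simp_rw [← ENNReal.tsum_mul_left]
    rw [ENNReal.tsum_comm]

lemma Ex_sum {ι : Type*} (s : Finset ι) (n : ℕ) (g : ι → List α → ℝ≥0∞) :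
    Ex ν n (fun w => ∑ i ∈ s, g i w) = ∑ i ∈ s, Ex ν n (g i) := by
  classical
  induction s using Finset.induction_on with
  | empty =>
    simp only [Finset.sum_empty]
    have := Ex_mul_left ν n 0 (fun _ => 0)
    simpa using this
  | insert a s ha ih =>
    simp only [Finset.sum_insert ha]
    rw [Ex_add, ih]

lemma Ex_snoc (n : ℕ) (f : List α → ℝ≥0∞) :
    Ex ν (n + 1) f = Ex ν n (fun w => ∑' a, ν a * f (w ++ [a])) := by
  rw [Ex_append]
  rfl

lemma Ex_snoc' (n : ℕ) (f : List α → ℝ≥0∞) :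
    Ex ν (n + 1) f = ∑' a, ν a * Ex ν n (fun w => f (w ++ [a])) := by
  rw [Ex_snoc, Ex_tsum]
  exact tsum_congr fun a => Ex_mul_left ν n _ _

lemma Ex_reverse (n : ℕ) (f : List α → ℝ≥0∞) :
    Ex ν n (fun w => f w.reverse) = Ex ν n f := by
  induction n generalizing f with
  | zero => rfl
  | succ n ih =>
    calc Ex ν (n + 1) (fun w => f w.reverse)
        = ∑' a, ν a * Ex ν n (fun w => f (w.reverse ++ [a])) := by
          simp only [Ex, List.reverse_cons]
      _ = ∑' a, ν a * Ex ν n (fun w => f (w ++ [a])) := by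
          refine tsum_congr fun a => ?_
          congr 1
          exact ih (fun w => f (w ++ [a]))
      _ = _ := (Ex_snoc' n f).symm

lemma Ex_mono' (n : ℕ) {f g : List α → ℝ≥0∞}
    (h : ∀ w, w.length = n → (∀ a ∈ w, ν a ≠ 0) → f w ≤ g w) : Ex ν n f ≤ Ex ν n g := by
  induction n generalizing f g with
  | zero => exact h [] rfl (by simp)
  | succ n ih =>
    refine ENNReal.tsum_le_tsum fun a => ?_
    by_cases ha : ν a = 0
    · simp [ha]
    · gcongr
      refine ih fun w hw hw' => h _ (by simp [hw]) ?_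
      intro b hb
      rcases List.mem_cons.1 hb with rfl | hb
      · exact ha
      · exact hw' b hb

lemma Ex_const (hν : ∑' a, ν a = 1) (n : ℕ) (c : ℝ≥0∞) : Ex ν n (fun _ => c) = c := by
  have := Ex_mul_left ν n c (fun _ => 1)
  rw [Ex_one ν hν, mul_one] at this
  simpa using this

lemma Ex_take (hν : ∑' a, ν a = 1) (m n : ℕ) (f : List α → ℝ≥0∞) :
    Ex ν (m + n) (fun w => f (w.take m)) = Ex ν m f := by
  have := Ex_append_mul ν m n f (fun _ => 1)
  rw [Ex_one ν hν, mul_one] at this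
  simpa using this

lemma Ex_drop (hν : ∑' a, ν a = 1) (m n : ℕ) (f : List α → ℝ≥0∞) :
    Ex ν (m + n) (fun w => f (w.drop m)) = Ex ν n f := by
  have := Ex_append_mul ν m n (fun _ => 1) f
  rw [Ex_one ν hν, one_mul] at this
  simpa using this

end General

section Marks

variable {ν : ℕ × ℕ → ℝ≥0∞}

lemma Ex_mir (hν : ∀ a, ν a.swap = ν a) (n : ℕ) (f : List (ℕ × ℕ) → ℝ≥0∞) :
    Ex ν n (fun w => f (mir w)) = Ex ν n f := by
  have h1 := Ex_map ν (Equiv.prodComm ℕ ℕ) (fun a => hν a) n (fun w => f w.reverse)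
  rw [Ex_reverse] at h1
  rw [← h1]
  rfl

/-- iteration along the exploration. -/
lemma explore_le {H : List ℕ → ℕ → ℝ≥0∞} {g : List ℕ → ℝ≥0∞} (h0 : ∀ u, H u 0 ≤ 0)
    (hs : ∀ u n, H u (n + 1) ≤ (∑' a, ν a * H (stp u a) n) + g u) (u : List ℕ) (m : ℕ) :
    H u m ≤ ∑ j ∈ range m, Ex ν j (fun w => g (run u w)) := by
  induction m generalizing u with
  | zero => simpa using h0 u
  | succ m ih =>
    refine (hs u m).trans ?_
    rw [Finset.sum_range_succ']
    refine add_le_add ?_ (le_of_eq rfl)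
    calc ∑' a, ν a * H (stp u a) m
        ≤ ∑' a, ν a * ∑ j ∈ range m, Ex ν j (fun w => g (run (stp u a) w)) := by
          refine ENNReal.tsum_le_tsum fun a => ?_
          gcongr
          exact ih _
      _ = ∑ j ∈ range m, Ex ν (j + 1) (fun w => g (run u w)) := by
          simp only [Ex, run, Finset.mul_sum]
          exact Summable.tsum_finsetSum (fun _ _ => ENNReal.summable)

end Marks

section Nu

variable (μ : PMF ℕ)

lemma tsum_nu_one : ∑' a, nu μ a = 1 := by
  have h := tsum_nu μ (fun _ => 1) (fun _ => zero_le_one)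
  simp only [ENNReal.ofReal_one, mul_one, Av_const] at h
  rw [h, μ.tsum_coe]

/-- the expectation over the marks of a function of `a.1 + a.2` bounding `φ`. -/
lemma tsum_nu_le (φ : ℕ × ℕ → ℝ≥0∞) (g : ℕ → ℝ≥0∞) (h : ∀ a, φ a ≤ g (a.1 + a.2)) :
    ∑' a, nu μ a * φ a ≤ ∑' d, μ d * g d := by
  calc ∑' a, nu μ a * φ a ≤ ∑' a, nu μ a * g (a.1 + a.2) := by
        refine ENNReal.tsum_le_tsum fun a => ?_
        gcongr
        exact h a
    _ = ∑' d, μ d * g d := by
        rw [← (HasAntidiagonal.sigmaAntidiagonalEquivProd (A := ℕ)).tsum_eq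
          (fun a => nu μ a * g (a.1 + a.2)), ENNReal.tsum_sigma']
        refine tsum_congr fun d => ?_
        rw [tsum_fintype]
        have h1 : ∀ x : (antidiagonal d : Finset (ℕ × ℕ)),
            nu μ ((HasAntidiagonal.sigmaAntidiagonalEquivProd (A := ℕ)) ⟨d, x⟩) *
              g (((HasAntidiagonal.sigmaAntidiagonalEquivProd (A := ℕ)) ⟨d, x⟩).1 +
                ((HasAntidiagonal.sigmaAntidiagonalEquivProd (A := ℕ)) ⟨d, x⟩).2) =
            μ d * g d * ENNReal.ofReal ((d.choose x.1.1 : ℝ) / 2 ^ d) := by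
          intro x
          have ha := mem_antidiagonal.1 x.2
          simp only [HasAntidiagonal.sigmaAntidiagonalEquivProd_apply]
          rw [nu_eq, ha]
          ring
        simp only [h1]
        rw [← Finset.mul_sum]
        have h2 : ∑ x : (antidiagonal d : Finset (ℕ × ℕ)),
            ENNReal.ofReal ((d.choose x.1.1 : ℝ) / 2 ^ d) = 1 := by
          rw [Finset.sum_coe_sort (antidiagonal d)
            (fun x => ENNReal.ofReal ((d.choose x.1 : ℝ) / 2 ^ d)),
            ← ENNReal.ofReal_sum_of_nonneg (fun a _ => by positivity)]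
          have h3 := Av_const d 1
          unfold Av at h3
          simp only [mul_one] at h3
          rw [h3, ENNReal.ofReal_one]
        rw [h2, mul_one]

lemma tsum_nu_swap (φ : ℕ × ℕ → ℝ≥0∞) :
    ∑' a, nu μ a * φ a.swap = ∑' a, nu μ a * φ a := by
  rw [← (Equiv.prodComm ℕ ℕ).tsum_eq]
  refine tsum_congr fun a => ?_
  have h1 : (Equiv.prodComm ℕ ℕ) a = a.swap := rfl
  rw [h1, nu_swap, Prod.swap_swap]

end Nu

end Pool.Agent.W_63dac5_h37
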