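import Pool.Agent.W_63dac5_h37.Surv2

/-!
# Survival of the height: the block lengths
-/

namespace Pool.Agent.W_63dac5_h37

open ENNReal Finset
open Pool.Agent.W_MP_63dac5_pr

variable {μ : PMF ℕ}

/-- the loss in one block. -/
lemma ls_le (h0 : μ 0 = 0) {A ε θ C : ℝ} (hA : 1 ≤ A) (hε0 : 0 ≤ ε) (hε : ε ≤ 1 / 4)
    (hH : HF μ (1 / 2 - ε) A) {F d k : ℕ} (hd : 1 ≤ d) (hF : 16 * d ^ 2 ≤ F)
    (hC : ∀ m : ℕ, 1 ≤ m → ∀ s : ℝ, 0 ≤ s →
      Ex (nu μ) m (fun B => ENNReal.ofReal ((Qn F B : ℝ) * min (s * (Qn F B : ℝ) ^ 2) 1)) ≤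
        ENNReal.ofReal (C * (s * (m : ℝ) ^ (3 / 2 + 3 * ε) + s ^ θ * (m : ℝ) ^ (1 / 2 + ε))))
    {ms : List ℕ} (ht : 3 ≤ ms.sum) {m : ℕ} (hm : 1 ≤ m) :
    ls μ F ms m (k * d) ≤
      ENNReal.ofReal (9 * A ^ 2 * (((k * d : ℕ) : ℝ) + 1) * C * ((ms.sum : ℝ) ^ (-(1 / 2 - ε)) *
        ((ms.sum : ℝ) ^ (-(1 - ε)) * (m : ℝ) ^ (3 / 2 + 3 * ε) +
          ((ms.sum : ℝ) ^ (-(1 - ε))) ^ θ * (m : ℝ) ^ (1 / 2 + ε)))) := by
  rw [ls_eq]
  set s : ℝ := (ms.sum : ℝ) ^ (-(1 - ε)) with hs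
  set G : ℝ := 9 * A ^ 2 * (((k * d : ℕ) : ℝ) + 1) * (ms.sum : ℝ) ^ (-(1 / 2 - ε)) with hG
  have hs0 : 0 ≤ s := by positivity
  have hG0 : 0 ≤ G := by positivity
  calc Ex (nu μ) m (fun B => (Qn F B : ℝ≥0∞) *
        ∑' y, kp (nu μ) F ms (k * d) y * (if y < Qn F B then 1 else 0))
      ≤ Ex (nu μ) m (fun B => ENNReal.ofReal G *
          ENNReal.ofReal ((Qn F B : ℝ) * min (s * (Qn F B : ℝ) ^ 2) 1)) := by
        refine Ex_mono _ _ fun B _ => ?_
        have h1 := U_bound h0 hA hε0 hε hH (k := k) hd hF ht (Qn F B)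
        rw [← hG, ← hs] at h1
        calc (Qn F B : ℝ≥0∞) * ∑' y, kp (nu μ) F ms (k * d) y * (if y < Qn F B then 1 else 0)
            ≤ ENNReal.ofReal (Qn F B : ℝ) *
              ENNReal.ofReal (G * min (s * (Qn F B : ℝ) ^ 2) 1) := by
              rw [ENNReal.ofReal_natCast]
              gcongr
          _ = _ := by
              rw [← ENNReal.ofReal_mul (by positivity), ← ENNReal.ofReal_mul hG0]
              congr 1
              ring
    _ ≤ ENNReal.ofReal G *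
          ENNReal.ofReal (C * (s * (m : ℝ) ^ (3 / 2 + 3 * ε) + s ^ θ * (m : ℝ) ^ (1 / 2 + ε))) := by
        rw [Ex_mul_left]
        gcongr
        exact hC m hm s hs0
    _ = _ := by
        rw [← ENNReal.ofReal_mul hG0]
        congr 1
        rw [hG]
        ring

lemma num_le {x b ε θ K m : ℝ} (hx : 1 ≤ x) (hεb : ε * b = 1 / 20) (hε0 : 0 ≤ ε)
    (hε : ε ≤ 1 / 4) (hθb : 1 ≤ θ * b) (hK : 1 ≤ K) (hm1 : 1 ≤ m)
    (hm : m ≤ K * x ^ (b - 1)) :
    (x ^ b) ^ (-(1 / 2 - ε)) * ((x ^ b) ^ (-(1 - ε)) * m ^ (3 / 2 + 3 * ε) +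
      ((x ^ b) ^ (-(1 - ε))) ^ θ * m ^ (1 / 2 + ε)) ≤ 2 * K ^ 3 * x ^ (-(5 / 4) : ℝ) := by
  have hx0 : 0 < x := by linarith
  have hK0 : 0 < K := by linarith
  have hm0 : 0 < m := by linarith
  have hmp : ∀ e : ℝ, 0 ≤ e → e ≤ 3 → m ^ e ≤ K ^ 3 * x ^ ((b - 1) * e) := by
    intro e he he3
    calc m ^ e ≤ (K * x ^ (b - 1)) ^ e := Real.rpow_le_rpow hm0.le hm he
      _ = K ^ e * x ^ ((b - 1) * e) := by
          rw [Real.mul_rpow hK0.le (by positivity), ← Real.rpow_mul hx0.le]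
      _ ≤ K ^ (3 : ℝ) * x ^ ((b - 1) * e) := by
          gcongr
      _ = _ := by
          congr 1
          rw [← Real.rpow_natCast]
          norm_num
  have h1 := hmp (3 / 2 + 3 * ε) (by linarith) (by linarith)
  have h2 := hmp (1 / 2 + ε) (by linarith) (by linarith)
  have e1 : (x ^ b) ^ (-(1 / 2 - ε)) = x ^ (b * (-(1 / 2 - ε))) := by
    rw [← Real.rpow_mul hx0.le]
  have e2 : (x ^ b) ^ (-(1 - ε)) = x ^ (b * (-(1 - ε))) := by
    rw [← Real.rpow_mul hx0.le]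
  have e3 : ((x ^ b) ^ (-(1 - ε))) ^ θ = x ^ (b * (-(1 - ε)) * θ) := by
    rw [e2, ← Real.rpow_mul hx0.le]
  rw [e3, e2, e1]
  calc x ^ (b * (-(1 / 2 - ε))) * (x ^ (b * (-(1 - ε))) * m ^ (3 / 2 + 3 * ε) +
        x ^ (b * (-(1 - ε)) * θ) * m ^ (1 / 2 + ε))
      ≤ x ^ (b * (-(1 / 2 - ε))) * (x ^ (b * (-(1 - ε))) *
          (K ^ 3 * x ^ ((b - 1) * (3 / 2 + 3 * ε))) +
        x ^ (b * (-(1 - ε)) * θ) * (K ^ 3 * x ^ ((b - 1) * (1 / 2 + ε)))) := by gcongr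
    _ = K ^ 3 * (x ^ (b * (-(1 / 2 - ε)) + b * (-(1 - ε)) + (b - 1) * (3 / 2 + 3 * ε)) +
          x ^ (b * (-(1 / 2 - ε)) + b * (-(1 - ε)) * θ + (b - 1) * (1 / 2 + ε))) := by
        rw [Real.rpow_add hx0, Real.rpow_add hx0, Real.rpow_add hx0, Real.rpow_add hx0]
        ring
    _ ≤ K ^ 3 * (x ^ (-(5 / 4) : ℝ) + x ^ (-(5 / 4) : ℝ)) := by
        have h5 : b * (-(1 / 2 - ε)) + b * (-(1 - ε)) + (b - 1) * (3 / 2 + 3 * ε) ≤ -(5 / 4) := by
          nlinarith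
        have h6 : b * (-(1 / 2 - ε)) + b * (-(1 - ε)) * θ + (b - 1) * (1 / 2 + ε) ≤
            -(5 / 4) := by
          have h7 : (1 - ε) * 1 ≤ (1 - ε) * (θ * b) :=
            mul_le_mul_of_nonneg_left hθb (by linarith)
          nlinarith
        gcongr
    _ = _ := by ring

/-! ### block lengths -/

lemma pow_succ_le (i c : ℕ) : (i + 1) ^ (c + 1) ≤ i ^ (c + 1) + (c + 1) * (i + 1) ^ c := by
  induction c with
  | zero => simp
  | succ c ih =>
    have h1 : (i + 1) ^ (c + 1 + 1) = i * (i + 1) ^ (c + 1) + (i + 1) ^ (c + 1) := by ring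
    have h2 : i * (i + 1) ^ (c + 1) ≤ i * (i ^ (c + 1) + (c + 1) * (i + 1) ^ c) :=
      Nat.mul_le_mul_left _ ih
    have h3 : i * (i ^ (c + 1) + (c + 1) * (i + 1) ^ c) = i ^ (c + 1 + 1) +
        (c + 1) * (i * (i + 1) ^ c) := by ring
    have h4 : i * (i + 1) ^ c ≤ (i + 1) ^ (c + 1) := by
      rw [pow_succ, mul_comm]
      exact Nat.mul_le_mul_left _ (by omega)
    have h5 : (c + 1) * (i * (i + 1) ^ c) ≤ (c + 1) * (i + 1) ^ (c + 1) :=
      Nat.mul_le_mul_left _ h4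
    have h6 : (c + 1 + 1) * (i + 1) ^ (c + 1) = (c + 1) * (i + 1) ^ (c + 1) +
        (i + 1) ^ (c + 1) := by ring
    omega

lemma len_le {i c m : ℕ} (hi : 1 ≤ i) (hm : m ≤ (i + 1) ^ (c + 1) - i ^ (c + 1)) :
    (m : ℝ) ≤ (((c + 1) * 2 ^ c : ℕ) : ℝ) * (i : ℝ) ^ (((c + 1 : ℕ) : ℝ) - 1) := by
  have h1 := pow_succ_le i c
  have h2 : (i + 1) ^ c ≤ (2 * i) ^ c := Nat.pow_le_pow_left (by omega) c
  have h3 : m ≤ (c + 1) * (2 * i) ^ c := by
    calc m ≤ (c + 1) * (i + 1) ^ c := by omega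
      _ ≤ _ := Nat.mul_le_mul_left _ h2
  have h4 : m ≤ (c + 1) * 2 ^ c * i ^ c := by
    rw [mul_pow] at h3
    linarith [h3, mul_assoc (c + 1) (2 ^ c) (i ^ c)]
  have h5 : (((c + 1 : ℕ) : ℝ) - 1) = (c : ℝ) := by push_cast; ring
  rw [h5, Real.rpow_natCast]
  exact_mod_cast h4

/-- the block lengths. -/
def bl (c j : ℕ) : ℕ → List ℕ
  | 0 => [(j + 1) ^ (c + 1)]
  | n + 1 => bl c j n ++ [(j + n + 2) ^ (c + 1) - (j + n + 1) ^ (c + 1)]

lemma bl_sum (c j n : ℕ) : (bl c j n).sum = (j + n + 1) ^ (c + 1) := by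
  induction n with
  | zero => simp [bl]
  | succ n ih =>
    have h1 : (j + n + 1) ^ (c + 1) ≤ (j + n + 2) ^ (c + 1) := Nat.pow_le_pow_left (by omega) _
    simp only [bl, List.sum_append, ih, List.sum_cons, List.sum_nil]
    have e : j + (n + 1) + 1 = j + n + 2 := by ring
    rw [e]
    omega

/-- every large number is a sum. -/
lemma exists_block {c j t : ℕ} (ht : (j + 1) ^ (c + 1) < t) :
    ∃ n r, 1 ≤ r ∧ r ≤ (j + n + 2) ^ (c + 1) - (j + n + 1) ^ (c + 1) ∧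
      (bl c j n ++ [r]).sum = t := by
  classical
  have hex : ∃ i : ℕ, t ≤ i ^ (c + 1) := by
    refine ⟨t, ?_⟩
    calc t = t ^ 1 := (pow_one t).symm
      _ ≤ t ^ (c + 1) := Nat.pow_le_pow_right (by omega) (by omega)
  set i := Nat.find hex with hi
  have h1 : t ≤ i ^ (c + 1) := Nat.find_spec hex
  have h2 : j + 1 < i := by
    by_contra h
    push Not at h
    have : i ^ (c + 1) ≤ (j + 1) ^ (c + 1) := Nat.pow_le_pow_left h _
    omega
  have h3 : (i - 1) ^ (c + 1) < t := by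
    have := Nat.find_min hex (m := i - 1) (by omega)
    omega
  refine ⟨i - j - 2, t - (i - 1) ^ (c + 1), by omega, ?_, ?_⟩
  · have e1 : j + (i - j - 2) + 2 = i := by omega
    have e2 : j + (i - j - 2) + 1 = i - 1 := by omega
    rw [e1, e2]
    omega
  · rw [List.sum_append, bl_sum]
    have e2 : j + (i - j - 2) + 1 = i - 1 := by omega
    rw [e2]
    simp only [List.sum_cons, List.sum_nil]
    omega

/-- the heights survive. -/
theorem surv (h0 : μ 0 = 0) {a : ℝ} (ha : 3 < a) (hM : Mo μ a ≠ ∞) {d F : ℕ} (hd : 1 ≤ d)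
    (hF : 16 * d ^ 2 ≤ F) :
    ∃ k T : ℕ, 1 ≤ k ∧ ∀ t : ℕ, T ≤ t → ∃ ms : List ℕ, ms.sum = t ∧
      ENNReal.ofReal (((k * d : ℕ) : ℝ) / 2) ≤ mh μ F ms (k * d) := by
  -- parameters
  set θ : ℝ := min 1 ((a - 3) / 4) with hθ
  have hθ0 : 0 < θ := lt_min one_pos (by linarith)
  have hθ1 : θ ≤ 1 := min_le_left _ _
  have hθa : 3 + 4 * θ ≤ a := by
    have : θ ≤ (a - 3) / 4 := min_le_right _ _
    linarith
  obtain ⟨c, hc⟩ : ∃ c : ℕ, 1 / θ ≤ ((c + 1 : ℕ) : ℝ) := by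
    obtain ⟨c, hc⟩ := exists_nat_ge (1 / θ)
    exact ⟨c, hc.trans (by push_cast; linarith)⟩
  set b : ℝ := ((c + 1 : ℕ) : ℝ) with hb
  have hb1 : 1 ≤ b := by rw [hb]; push_cast; linarith [show (0 : ℝ) ≤ c by positivity]
  have hθb : 1 ≤ θ * b := by
    rw [div_le_iff₀ hθ0] at hc
    linarith
  set ε : ℝ := 1 / (20 * b) with hε
  have hε0 : 0 < ε := by positivity
  have hεb : ε * b = 1 / 20 := by rw [hε]; field_simp
  have hε1 : ε ≤ 1 / 20 := by nlinarith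
  have hM1 : Mn μ 1 ≠ ∞ := Mn_ne_top hM (by push_cast; linarith) le_rfl
  obtain ⟨A, hA, hH⟩ := F_bound h0 (m1_ne_top hM1) ha hM hε0
  obtain ⟨C, hC0, hC⟩ := block_moment (by linarith : (0 : ℝ) ≤ A) hε0.le (by linarith) hH hθ0.le hθ1
    hθa hM F
  obtain ⟨C3, hC30, hr1, -⟩ := rq_three_le (by linarith : (0 : ℝ) ≤ A) hε0.le (by linarith) hH
    ha.le hM
  have hfin : ∀ m, rq μ 1 [] m ≠ ∞ := fun m => ne_top_of_le_ne_top ENNReal.ofReal_ne_top (hr1 m)
  set K : ℝ := (((c + 1) * 2 ^ c : ℕ) : ℝ) with hK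
  have hK1 : 1 ≤ K := by
    rw [hK]
    have : 1 ≤ (c + 1) * 2 ^ c := Nat.one_le_iff_ne_zero.2 (by positivity)
    exact_mod_cast this
  set C' : ℝ := 9 * A ^ 2 * C * (2 * K ^ 3) with hC'
  have hC'0 : 0 ≤ C' := by positivity
  -- the tail of the series
  set f : ℕ → ℝ := fun i => (i : ℝ) ^ (-(5 / 4) : ℝ) with hf
  have hfs : Summable f := by
    rw [hf]
    exact Real.summable_nat_rpow.2 (by norm_num)
  have htail := tendsto_sum_nat_add f
  obtain ⟨j, hj2, hj⟩ : ∃ j : ℕ, 2 ≤ j ∧ (C' + 1) * ∑' i, f (i + (j + 1)) ≤ 1 / 16 := by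
    have h1 : ∀ᶠ i in Filter.atTop, ∑' k, f (k + i) < 1 / (16 * (C' + 1)) :=
      htail.eventually_lt_const (by positivity)
    obtain ⟨j, hj⟩ := Filter.eventually_atTop.1 h1
    refine ⟨j + 2, by omega, ?_⟩
    have h2 := hj (j + 2 + 1) (by omega)
    have h3 : (C' + 1) * ∑' k, f (k + (j + 2 + 1)) ≤ (C' + 1) * (1 / (16 * (C' + 1))) :=
      mul_le_mul_of_nonneg_left h2.le (by positivity)
    refine h3.trans (le_of_eq ?_)
    field_simp
  -- the first block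
  set m₀ := (j + 1) ^ (c + 1) with hm₀
  have hm₀1 : 1 ≤ m₀ := Nat.one_le_pow _ _ (by omega)
  have hQfin : Ex (nu μ) m₀ (fun B => (Qn F B : ℝ≥0∞)) ≠ ∞ := by
    have h1 := hC m₀ hm₀1 1 zero_le_one
    refine ne_top_of_le_ne_top (ENNReal.add_ne_top.2 ⟨ENNReal.one_ne_top,
      ENNReal.ofReal_ne_top⟩) (b := 1 + ENNReal.ofReal _) (le_trans ?_ (add_le_add_right h1 1))
    rw [← Ex_const (tsum_nu_one μ) m₀ 1, ← Ex_add]
    refine Ex_mono _ _ fun B _ => ?_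
    rcases Nat.eq_zero_or_pos (Qn F B) with h | h
    · rw [h]; simp
    · have h2 : (1 : ℝ) ≤ (Qn F B : ℝ) := by exact_mod_cast h
      have h3 : min (1 * (Qn F B : ℝ) ^ 2) 1 = 1 := by
        rw [min_eq_right]
        nlinarith
      rw [h3, mul_one, ENNReal.ofReal_natCast]
      exact le_add_self
  set q₀ : ℝ := (Ex (nu μ) m₀ (fun B => (Qn F B : ℝ≥0∞))).toReal with hq₀
  have hq₀0 : 0 ≤ q₀ := ENNReal.toReal_nonneg
  obtain ⟨k₁, hk₁⟩ := exists_nat_ge (8 * q₀)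
  set k := k₁ + 1 with hk
  set z₀ : ℝ := ((k * d : ℕ) : ℝ) with hz₀
  have hz01 : 1 ≤ z₀ := by
    rw [hz₀]
    have : 1 ≤ k * d := Nat.mul_pos (Nat.succ_pos _) hd
    exact_mod_cast this
  have hz0q : 8 * q₀ ≤ z₀ := by
    have h1 : k₁ ≤ k * d := (Nat.le_succ _).trans (Nat.le_mul_of_pos_right _ hd)
    have h2 : (k₁ : ℝ) ≤ z₀ := by rw [hz₀]; exact_mod_cast h1
    linarith
  have hfirst : los μ F m₀ (k * d) ≤ ENNReal.ofReal (z₀ / 8) := by
    calc los μ F m₀ (k * d) ≤ Ex (nu μ) m₀ (fun B => (Qn F B : ℝ≥0∞)) := by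
          unfold los
          refine Ex_mono _ _ fun B _ => ?_
          split_ifs
          · exact le_rfl
          · exact bot_le
      _ = ENNReal.ofReal q₀ := (ENNReal.ofReal_toReal hQfin).symm
      _ ≤ _ := ENNReal.ofReal_le_ofReal (by linarith)
  have hz8 : 0 ≤ z₀ / 8 := by linarith
  have hCz : 0 ≤ C' * (z₀ + 1) := mul_nonneg hC'0 (by linarith)
  -- the other blocks
  have hloss : ∀ n m : ℕ, 1 ≤ m → m ≤ (j + n + 2) ^ (c + 1) - (j + n + 1) ^ (c + 1) →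
      ls μ F (bl c j n) m (k * d) ≤ ENNReal.ofReal (C' * (z₀ + 1) * f (n + (j + 1))) := by
    intro n m hm1 hm
    have hi1 : 1 ≤ j + n + 1 := by omega
    have hsum := bl_sum c j n
    have h3 : 3 ≤ (bl c j n).sum := by
      rw [hsum]
      calc 3 ≤ (j + n + 1) ^ 1 := by rw [pow_one]; omega
        _ ≤ (j + n + 1) ^ (c + 1) := Nat.pow_le_pow_right (by omega) (by omega)
    refine (ls_le h0 hA hε0.le (by linarith) hH (k := k) hd hF hC h3 hm1).trans ?_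
    apply ENNReal.ofReal_le_ofReal
    have hx1 : (1 : ℝ) ≤ ((j + n + 1 : ℕ) : ℝ) := by exact_mod_cast hi1
    have hlen := len_le (c := c) hi1 hm
    rw [← hK, ← hb] at hlen
    have h4 := num_le (θ := θ) (m := (m : ℝ)) hx1 hεb hε0.le (by linarith) hθb hK1
      (by exact_mod_cast hm1) hlen
    have h5 : (((bl c j n).sum : ℕ) : ℝ) = ((j + n + 1 : ℕ) : ℝ) ^ b := by
      rw [hsum, hb, Real.rpow_natCast]
      push_cast
      ring
    rw [h5]
    have h6 : f (n + (j + 1)) = ((j + n + 1 : ℕ) : ℝ) ^ (-(5 / 4) : ℝ) := by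
      rw [hf]
      simp only
      congr 2
      ring
    rw [h6]
    calc 9 * A ^ 2 * (z₀ + 1) * C * _ ≤ 9 * A ^ 2 * (z₀ + 1) * C *
          (2 * K ^ 3 * ((j + n + 1 : ℕ) : ℝ) ^ (-(5 / 4) : ℝ)) := by
          gcongr
      _ = _ := by rw [hC']; ring
  have hind : ∀ n, (z₀ : ℝ) ≤ z₀ ∧ ENNReal.ofReal z₀ ≤ mh μ F (bl c j n) (k * d) +
      (ENNReal.ofReal (z₀ / 8) +
        ENNReal.ofReal (C' * (z₀ + 1) * ∑ i ∈ range n, f (i + (j + 1)))) := by
    intro n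
    refine ⟨le_rfl, ?_⟩
    induction n with
    | zero =>
      have h1 := mh_step (μ := μ) hfin F [] m₀ (k * d)
      rw [mh_nil, ls_nil, List.nil_append] at h1
      simp only [range_zero, sum_empty, mul_zero, ENNReal.ofReal_zero, add_zero]
      rw [hz₀, ENNReal.ofReal_natCast]
      refine h1.trans ?_
      gcongr
      · exact le_rfl
    | succ n ih =>
      have hmm : 1 ≤ (j + n + 2) ^ (c + 1) - (j + n + 1) ^ (c + 1) := by
        have : (j + n + 1) ^ (c + 1) < (j + n + 2) ^ (c + 1) :=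
          Nat.pow_lt_pow_left (by omega) (by omega)
        omega
      have h1 := mh_step (μ := μ) hfin F (bl c j n)
        ((j + n + 2) ^ (c + 1) - (j + n + 1) ^ (c + 1)) (k * d)
      have h2 := hloss n _ hmm le_rfl
      have hfn : ∀ i, 0 ≤ f i := fun i => by rw [hf]; positivity
      calc ENNReal.ofReal z₀ ≤ _ := ih
        _ ≤ (mh μ F (bl c j (n + 1)) (k * d) +
              ENNReal.ofReal (C' * (z₀ + 1) * f (n + (j + 1)))) +
            (ENNReal.ofReal (z₀ / 8) +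
              ENNReal.ofReal (C' * (z₀ + 1) * ∑ i ∈ range n, f (i + (j + 1)))) := by
            refine add_le_add (h1.trans (add_le_add le_rfl h2)) le_rfl
        _ = _ := by
            have hs0 : 0 ≤ ∑ i ∈ range n, f (i + (j + 1)) := Finset.sum_nonneg fun i _ => hfn _
            have e1 : ENNReal.ofReal (C' * (z₀ + 1) * ∑ i ∈ range (n + 1), f (i + (j + 1))) =
                ENNReal.ofReal (C' * (z₀ + 1) * ∑ i ∈ range n, f (i + (j + 1))) +
                ENNReal.ofReal (C' * (z₀ + 1) * f (n + (j + 1))) := by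
              rw [← ENNReal.ofReal_add (mul_nonneg hCz hs0)
                (mul_nonneg hCz (hfn _)), Finset.sum_range_succ]
              congr 1
              ring
            rw [e1]
            ring
  refine ⟨k, m₀ + 1, by omega, fun t ht => ?_⟩
  obtain ⟨n, r, hr1', hr2, hsum⟩ := exists_block (c := c) (j := j) (t := t) (by omega)
  refine ⟨bl c j n ++ [r], hsum, ?_⟩
  have h1 := mh_step (μ := μ) hfin F (bl c j n) r (k * d)
  have h2 := hloss n r hr1' hr2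
  have h3 := (hind n).2
  have hfn : ∀ i, 0 ≤ f i := fun i => by rw [hf]; positivity
  have hs1 : ∑ i ∈ range (n + 1), f (i + (j + 1)) ≤ ∑' i, f (i + (j + 1)) :=
    ((summable_nat_add_iff (j + 1)).2 hfs).sum_le_tsum _ fun i _ => hfn _
  have hs0 : 0 ≤ ∑ i ∈ range n, f (i + (j + 1)) := Finset.sum_nonneg fun i _ => hfn _
  have h4 : ENNReal.ofReal z₀ ≤ mh μ F (bl c j n ++ [r]) (k * d) + ENNReal.ofReal (z₀ / 4) := by
    calc ENNReal.ofReal z₀ ≤ _ := h3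
      _ ≤ (mh μ F (bl c j n ++ [r]) (k * d) +
            ENNReal.ofReal (C' * (z₀ + 1) * f (n + (j + 1)))) +
          (ENNReal.ofReal (z₀ / 8) +
            ENNReal.ofReal (C' * (z₀ + 1) * ∑ i ∈ range n, f (i + (j + 1)))) :=
          add_le_add (h1.trans (add_le_add le_rfl h2)) le_rfl
      _ = mh μ F (bl c j n ++ [r]) (k * d) +
          ENNReal.ofReal (z₀ / 8 + C' * (z₀ + 1) * ∑ i ∈ range (n + 1), f (i + (j + 1))) := by
          have e2 : z₀ / 8 + C' * (z₀ + 1) * ∑ i ∈ range (n + 1), f (i + (j + 1)) =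
              (z₀ / 8 + C' * (z₀ + 1) * ∑ i ∈ range n, f (i + (j + 1))) +
              C' * (z₀ + 1) * f (n + (j + 1)) := by
            rw [Finset.sum_range_succ]; ring
          rw [e2, ENNReal.ofReal_add (add_nonneg hz8 (mul_nonneg hCz hs0))
              (mul_nonneg hCz (hfn _)),
            ENNReal.ofReal_add hz8 (mul_nonneg hCz hs0)]
          ring
      _ ≤ _ := by
          gcongr
          have hs2 : 0 ≤ ∑' i, f (i + (j + 1)) := tsum_nonneg fun i => hfn _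
          have h5 : C' * (z₀ + 1) * ∑ i ∈ range (n + 1), f (i + (j + 1)) ≤ z₀ / 8 := by
            calc C' * (z₀ + 1) * ∑ i ∈ range (n + 1), f (i + (j + 1))
                ≤ (C' + 1) * (2 * z₀) * ∑' i, f (i + (j + 1)) := by
                  gcongr <;> linarith
              _ = 2 * z₀ * ((C' + 1) * ∑' i, f (i + (j + 1))) := by ring
              _ ≤ 2 * z₀ * (1 / 16) := by gcongr
              _ = z₀ / 8 := by ring
          linarith
  have h5 : ENNReal.ofReal (z₀ / 2) + ENNReal.ofReal (z₀ / 4) ≤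
      mh μ F (bl c j n ++ [r]) (k * d) + ENNReal.ofReal (z₀ / 4) := by
    refine le_trans ?_ h4
    rw [← ENNReal.ofReal_add (by positivity) (by positivity)]
    exact ENNReal.ofReal_le_ofReal (by linarith)
  exact (ENNReal.add_le_add_iff_right ENNReal.ofReal_ne_top).1 h5

end Pool.Agent.W_63dac5_h37
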