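import Pool.Agent.W_MP_63dac5_pr.LightMain
import Pool.Agent.W_63dac5_h37.Surv3

/-!
# No percolation for tail index larger than three
-/

namespace Pool.Agent.W_63dac5_h37

open MeasureTheory ProbabilityTheory ENNReal Finset
open Pool.Agent.W_MP_63dac5_pr

variable {μ : PMF ℕ}

/-- fourth moment of the height. -/
lemma mh_four {m B x2 : ℝ} (hm : Mn μ 1 = ENNReal.ofReal m) (hm0 : 0 ≤ m)
    (h2 : Mn μ 2 = ENNReal.ofReal x2) (hx2 : 0 ≤ x2) (hB : x2 + m ^ 2 ≤ B)
    {F d k : ℕ} (hd : 1 ≤ d) (hF : 16 * d ^ 2 ≤ F) (ms : List ℕ) :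
    ∑' y, kp (nu μ) F ms (k * d) y * ENNReal.ofReal ((y : ℝ) ^ 4) ≤
      ENNReal.ofReal (((k * d : ℕ) : ℝ) ^ 4 + 6 * ms.sum * m * ((k * d : ℕ) : ℝ) ^ 2 +
        6 * (ms.sum : ℝ) ^ 2 * B) := by
  classical
  rw [tsum_kp_mul]
  have h3 := fourth_moment (μ := μ) hm hm0 h2 hx2 hB ms.sum ((k * d : ℕ) : ℤ)
  refine le_trans ?_ (h3.trans (le_of_eq ?_))
  · refine Ex_mono _ _ fun w hw => ?_
    by_cases h : GPB F ms (k * d) w
    · rw [if_pos h]
      have hs : (List.replicate k d).sum = k * d := by simp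
      obtain ⟨h4, h5, h6⟩ := run_GPB hd hF (u := List.replicate k d) (inv_start d k) hw
        (by rw [hs]; exact h)
      rw [hs] at h6
      obtain ⟨h7, h8⟩ := Rw_le_of_okrun h4
      have h9 := Sw_eq w
      have h10 : (((k * d : ℕ) : ℤ) + Sw w) = ((hgtB ms (k * d) w : ℕ) : ℤ) := by
        rw [hs] at h8
        omega
      rw [h10]
      push_cast
      exact le_rfl
    · rw [if_neg h]; exact bot_le
  · push_cast
    rfl

/-- a lower bound for the sum of squares. -/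
lemma l2_lower {a : ℕ → ℝ≥0∞} {z D t : ℝ} (hz : 0 < z) (hD : 0 ≤ D) (ht : 1 ≤ t)
    (h1 : ENNReal.ofReal (z / 2) ≤ ∑' y, a y * (y : ℝ≥0∞))
    (h4 : ∑' y, a y * ENNReal.ofReal ((y : ℝ) ^ 4) ≤ ENNReal.ofReal (D * t ^ 2)) :
    ENNReal.ofReal (z ^ 2 / (128 * (4 * D / z + 1)) / t ^ 2) ≤ ∑' y, a y ^ 2 := by
  set E := 4 * D / z + 1 with hE
  have hE1 : 1 ≤ E := by
    have : 0 ≤ 4 * D / z := by positivity
    linarith
  set X := E * t ^ 2 with hX
  have hX1 : 1 ≤ X := by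
    have : 1 ≤ t ^ 2 := one_le_pow₀ ht
    nlinarith
  set ξ := X ^ (1 / 3 : ℝ) with hξ
  have hξ1 : 1 ≤ ξ := Real.one_le_rpow hX1 (by norm_num)
  have hξ3 : ξ ^ 3 = X := by
    rw [hξ, ← Real.rpow_natCast, ← Real.rpow_mul (by linarith)]
    norm_num
  set Y := ⌈ξ⌉₊ with hY
  have hY1 : ξ ≤ (Y : ℝ) := Nat.le_ceil _
  have hY2 : (Y : ℝ) ≤ 2 * ξ := by
    have := Nat.ceil_lt_add_one (show 0 ≤ ξ by linarith)
    linarith
  have hY0 : (0 : ℝ) < Y := by linarith
  have hY3 : X ≤ (Y : ℝ) ^ 3 := by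
    rw [← hξ3]; gcongr
  have hY8 : (Y : ℝ) ^ 3 ≤ 8 * X := by
    calc (Y : ℝ) ^ 3 ≤ (2 * ξ) ^ 3 := by gcongr
      _ = 8 * X := by rw [mul_pow, hξ3]; norm_num
  set S := ∑ y ∈ range Y, a y with hS
  -- the mean
  have h5 : ENNReal.ofReal (z / 2) ≤ (Y : ℝ≥0∞) * S + ENNReal.ofReal (z / 4) := by
    refine h1.trans ?_
    have hpt : ∀ y : ℕ, a y * (y : ℝ≥0∞) ≤ (if y < Y then a y * (Y : ℝ≥0∞) else 0) +
        a y * ENNReal.ofReal ((y : ℝ) ^ 4) * ENNReal.ofReal (1 / (Y : ℝ) ^ 3) := by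
      intro y
      by_cases hy : y < Y
      · rw [if_pos hy]
        refine le_trans ?_ le_self_add
        gcongr
      · rw [if_neg hy, zero_add, mul_assoc, ← ENNReal.ofReal_mul (by positivity)]
        gcongr
        rw [← ENNReal.ofReal_natCast]
        apply ENNReal.ofReal_le_ofReal
        have hy' : (Y : ℝ) ≤ y := by exact_mod_cast not_lt.1 hy
        rw [mul_one_div, le_div_iff₀ (by positivity)]
        calc (y : ℝ) * (Y : ℝ) ^ 3 ≤ (y : ℝ) * (y : ℝ) ^ 3 := by gcongr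
          _ = _ := by ring
    calc ∑' y, a y * (y : ℝ≥0∞) ≤ ∑' y, ((if y < Y then a y * (Y : ℝ≥0∞) else 0) +
          a y * ENNReal.ofReal ((y : ℝ) ^ 4) * ENNReal.ofReal (1 / (Y : ℝ) ^ 3)) :=
          ENNReal.tsum_le_tsum hpt
      _ = ∑' y, (if y < Y then a y * (Y : ℝ≥0∞) else 0) +
          (∑' y, a y * ENNReal.ofReal ((y : ℝ) ^ 4)) * ENNReal.ofReal (1 / (Y : ℝ) ^ 3) := by
          rw [ENNReal.tsum_add, ENNReal.tsum_mul_right]
      _ ≤ (Y : ℝ≥0∞) * S + ENNReal.ofReal (D * t ^ 2) * ENNReal.ofReal (1 / (Y : ℝ) ^ 3) := by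
          gcongr
          rw [tsum_eq_sum (s := range Y)]
          · rw [hS, Finset.mul_sum]
            refine Finset.sum_le_sum fun y hy => ?_
            rw [if_pos (Finset.mem_range.1 hy), mul_comm]
          · intro y hy
            rw [Finset.mem_range] at hy
            rw [if_neg hy]
      _ ≤ _ := by
          gcongr
          rw [← ENNReal.ofReal_mul (by positivity)]
          apply ENNReal.ofReal_le_ofReal
          rw [mul_one_div, div_le_iff₀ (by positivity)]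
          have h6 : D * t ^ 2 ≤ z / 4 * X := by
            rw [hX, hE]
            have h7 : z / 4 * ((4 * D / z + 1) * t ^ 2) = D * t ^ 2 + z / 4 * t ^ 2 := by
              field_simp
            rw [h7]
            have : 0 ≤ z / 4 * t ^ 2 := by positivity
            linarith
          refine h6.trans ?_
          gcongr
  have h6 : ENNReal.ofReal (z / 4) ≤ (Y : ℝ≥0∞) * S := by
    have h7 : ENNReal.ofReal (z / 4) + ENNReal.ofReal (z / 4) ≤
        (Y : ℝ≥0∞) * S + ENNReal.ofReal (z / 4) := by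
      refine le_trans (le_of_eq ?_) h5
      rw [← ENNReal.ofReal_add (by positivity) (by positivity)]
      congr 1
      ring
    exact (ENNReal.add_le_add_iff_right ENNReal.ofReal_ne_top).1 h7
  have h7 : S ^ 2 ≤ Y * ∑' y, a y ^ 2 := by
    refine (sq_sum_le_ennreal a Y).trans ?_
    gcongr
    exact ENNReal.sum_le_tsum _
  have h8 : ENNReal.ofReal (z ^ 2 / 16) ≤ ENNReal.ofReal (8 * X) * ∑' y, a y ^ 2 := by
    calc ENNReal.ofReal (z ^ 2 / 16) = ENNReal.ofReal (z / 4) ^ 2 := by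
          rw [← ENNReal.ofReal_pow (by positivity)]
          congr 1
          ring
      _ ≤ ((Y : ℝ≥0∞) * S) ^ 2 := by gcongr
      _ = (Y : ℝ≥0∞) ^ 2 * S ^ 2 := by ring
      _ ≤ (Y : ℝ≥0∞) ^ 2 * (Y * ∑' y, a y ^ 2) := by gcongr
      _ = ENNReal.ofReal ((Y : ℝ) ^ 3) * ∑' y, a y ^ 2 := by
          rw [ENNReal.ofReal_pow (by positivity), ENNReal.ofReal_natCast]
          ring
      _ ≤ _ := by gcongr
  have h9 : z ^ 2 / (128 * E) / t ^ 2 = (z ^ 2 / 16) / (8 * X) := by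
    rw [hX]
    field_simp
    norm_num
  rw [h9, ENNReal.ofReal_div_of_pos (by positivity)]
  exact ENNReal.div_le_of_le_mul' h8

/-- the closed words are likely. -/
theorem cw_lower (h0 : μ 0 = 0) {a : ℝ} (ha : 3 < a) (hM : Mo μ a ≠ ∞) :
    ∃ (N T : ℕ) (c : ℝ), 0 < c ∧ ∀ t : ℕ, T ≤ t →
      ENNReal.ofReal (c / (t : ℝ) ^ 2) ≤ cw (nu μ) (N + 2 * t) := by
  -- a degree of positive probability
  obtain ⟨d, hd⟩ : ∃ d, μ d ≠ 0 := by
    by_contra h
    push Not at h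
    have h1 := μ.tsum_coe
    simp only [h, tsum_zero] at h1
    exact zero_ne_one h1
  have hd1 : 1 ≤ d := by
    rcases Nat.eq_zero_or_pos d with rfl | h
    · exact absurd h0 hd
    · exact h
  have hpos : ∀ a : ℕ × ℕ, a.1 + a.2 = d → nu μ a ≠ 0 := by
    intro a ha
    unfold nu
    rw [ha]
    refine (ENNReal.div_pos (mul_ne_zero hd ?_) (by simp)).ne'
    have : 0 < d.choose a.2 := Nat.choose_pos (by omega)
    exact_mod_cast this.ne'
  set F := 16 * d ^ 2 with hF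
  obtain ⟨k, T, hk, hT⟩ := surv h0 ha hM hd1 (le_refl F)
  have hM1 : Mn μ 1 ≠ ∞ := Mn_ne_top hM (by push_cast; linarith) le_rfl
  have hM2 : Mn μ 2 ≠ ∞ := Mn_ne_top hM (by push_cast; linarith) (by norm_num)
  set m := (Mn μ 1).toReal with hm
  set x2 := (Mn μ 2).toReal with hx2
  have e1 : Mn μ 1 = ENNReal.ofReal m := (ENNReal.ofReal_toReal hM1).symm
  have e2 : Mn μ 2 = ENNReal.ofReal x2 := (ENNReal.ofReal_toReal hM2).symm
  have hm0 : 0 ≤ m := ENNReal.toReal_nonneg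
  have hx20 : 0 ≤ x2 := ENNReal.toReal_nonneg
  set B := x2 + m ^ 2 with hB
  have hB0 : 0 ≤ B := by positivity
  set z : ℝ := ((k * d : ℕ) : ℝ) with hz
  have hz0 : 0 < z := by
    rw [hz]
    have : 0 < k * d := by positivity
    exact_mod_cast this
  set D := z ^ 4 + 6 * m * z ^ 2 + 6 * B with hD
  have hD0 : 0 ≤ D := by positivity
  obtain ⟨hc1, hc2⟩ := prods_ne_zero (k := k) hpos
  set c₁ := ((List.replicate k ((0 : ℕ), d)).map (nu μ)).prod with hc₁
  set c₂ := ((Vk d k).map (nu μ)).prod with hc₂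
  set c₀ := z ^ 2 / (128 * (4 * D / z + 1)) with hc₀
  have hc00 : 0 < c₀ := by positivity
  -- finiteness of the constants is not needed: take a small positive real below
  obtain ⟨r, hr0, hr⟩ : ∃ r : ℝ, 0 < r ∧ ENNReal.ofReal r ≤ c₁ * c₂ := by
    have h1 : c₁ * c₂ ≠ 0 := mul_ne_zero hc1 hc2
    by_cases h2 : c₁ * c₂ = ∞
    · exact ⟨1, one_pos, by rw [h2]; exact le_top⟩
    · exact ⟨(c₁ * c₂).toReal, ENNReal.toReal_pos h1 h2, (ENNReal.ofReal_toReal h2).le⟩
  refine ⟨k + k * d, T + 1, r * c₀, by positivity, fun t ht => ?_⟩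
  obtain ⟨ms, hsum, hms⟩ := hT t (by omega)
  have ht1 : (1 : ℝ) ≤ t := by exact_mod_cast (by omega : 1 ≤ t)
  have h4 := mh_four (μ := μ) e1 hm0 e2 hx20 (le_refl B) (k := k) hd1 (le_refl F) ms
  rw [hsum] at h4
  have h5 : z ^ 4 + 6 * (t : ℝ) * m * z ^ 2 + 6 * (t : ℝ) ^ 2 * B ≤ D * (t : ℝ) ^ 2 := by
    have h6 : (1 : ℝ) ≤ (t : ℝ) ^ 2 := one_le_pow₀ ht1
    have h7 : (t : ℝ) ≤ (t : ℝ) ^ 2 := by nlinarith
    have h8 : z ^ 4 * 1 ≤ z ^ 4 * (t : ℝ) ^ 2 := by gcongr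
    have h9 : (m * z ^ 2) * (t : ℝ) ≤ (m * z ^ 2) * (t : ℝ) ^ 2 := by gcongr
    rw [hD]
    nlinarith
  have h6 := l2_lower (a := fun y => kp (nu μ) F ms (k * d) y) hz0 hD0 ht1 hms
    (h4.trans (ENNReal.ofReal_le_ofReal h5))
  rw [← hc₀, ← kp_palindrome (nu_swap μ)] at h6
  have h7 := cw_geB (nu μ) (k := k) hd1 (le_refl F) (ms ++ ms.reverse)
  rw [← hc₁, ← hc₂, List.sum_append, List.sum_reverse, hsum] at h7
  have e3 : k + (t + t + k * d) = k + k * d + 2 * t := by ring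
  rw [e3] at h7
  refine le_trans ?_ h7
  calc ENNReal.ofReal (r * c₀ / (t : ℝ) ^ 2) = ENNReal.ofReal r *
        ENNReal.ofReal (c₀ / (t : ℝ) ^ 2) := by
        rw [← ENNReal.ofReal_mul hr0.le]
        congr 1
        ring
    _ ≤ (c₁ * c₂) * kp (nu μ) F (ms ++ ms.reverse) (k * d) (k * d) := by gcongr
    _ = _ := by ring

/-- the sum diverges. -/
theorem tsum_cw_top (h0 : μ 0 = 0) {a : ℝ} (ha : 3 < a) (hM : Mo μ a ≠ ∞) :
    ∑' e : ℕ × ℕ, cw (nu μ) (e.1 + e.2) = ∞ := by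
  obtain ⟨N, T, c, hc, hcw⟩ := cw_lower h0 ha hM
  have hinj : Function.Injective (fun p : ℕ × ℕ => (p.2, N + 2 * (p.1 + p.2) - p.2)) := by
    intro p q h
    simp only [Prod.mk.injEq] at h
    exact Prod.ext (by omega) (by omega)
  have h1 : ∑' p : ℕ × ℕ, cw (nu μ) (N + 2 * (p.1 + p.2)) ≤
      ∑' e : ℕ × ℕ, cw (nu μ) (e.1 + e.2) := by
    calc ∑' p : ℕ × ℕ, cw (nu μ) (N + 2 * (p.1 + p.2))
        = ∑' p : ℕ × ℕ, (fun e : ℕ × ℕ => cw (nu μ) (e.1 + e.2))
            ((fun p : ℕ × ℕ => (p.2, N + 2 * (p.1 + p.2) - p.2)) p) := by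
          refine tsum_congr fun p => ?_
          simp only
          congr 1
          omega
      _ ≤ _ := ENNReal.tsum_comp_le_tsum_of_injective hinj _
  rw [eq_top_iff]
  refine le_trans ?_ h1
  rw [← (HasAntidiagonal.sigmaAntidiagonalEquivProd (A := ℕ)).tsum_eq
    (fun p : ℕ × ℕ => cw (nu μ) (N + 2 * (p.1 + p.2))), ENNReal.tsum_sigma']
  have h2 : ∀ t : ℕ, ∑' x : (antidiagonal t : Finset (ℕ × ℕ)),
      cw (nu μ) (N + 2 * (((HasAntidiagonal.sigmaAntidiagonalEquivProd (A := ℕ)) ⟨t, x⟩).1 +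
        ((HasAntidiagonal.sigmaAntidiagonalEquivProd (A := ℕ)) ⟨t, x⟩).2)) =
      ((t + 1 : ℕ) : ℝ≥0∞) * cw (nu μ) (N + 2 * t) := by
    intro t
    rw [tsum_fintype]
    have h3 : ∀ x : (antidiagonal t : Finset (ℕ × ℕ)),
        cw (nu μ) (N + 2 * (((HasAntidiagonal.sigmaAntidiagonalEquivProd (A := ℕ)) ⟨t, x⟩).1 +
        ((HasAntidiagonal.sigmaAntidiagonalEquivProd (A := ℕ)) ⟨t, x⟩).2)) =
        cw (nu μ) (N + 2 * t) := by
      intro x
      have ha := mem_antidiagonal.1 x.2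
      simp only [HasAntidiagonal.sigmaAntidiagonalEquivProd_apply]
      rw [ha]
    simp only [h3]
    rw [Finset.sum_const, Finset.card_univ, Fintype.card_coe, Nat.card_antidiagonal, nsmul_eq_mul]
  simp only [h2]
  -- comparison with the harmonic series
  have h4 : ∑' t : ℕ, ENNReal.ofReal (c / ((t + (T + 1) : ℕ) : ℝ)) = ∞ := by
    have h5 : ¬ Summable (fun t : ℕ => c / ((t + (T + 1) : ℕ) : ℝ)) := by
      rw [summable_nat_add_iff (f := fun t : ℕ => c / (t : ℝ)) (T + 1)]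
      intro h
      have h6 : Summable (fun t : ℕ => 1 / (t : ℝ)) := by
        have h7 := h.mul_left (1 / c)
        refine h7.congr fun t => ?_
        field_simp
      exact Real.not_summable_one_div_natCast h6
    by_contra h6
    apply h5
    have h7 := ENNReal.summable_toReal h6
    refine h7.congr fun t => ?_
    rw [ENNReal.toReal_ofReal (by positivity)]
  rw [← h4]
  calc ∑' t : ℕ, ENNReal.ofReal (c / ((t + (T + 1) : ℕ) : ℝ))
      ≤ ∑' t : ℕ, (fun t : ℕ => ((t + 1 : ℕ) : ℝ≥0∞) * cw (nu μ) (N + 2 * t))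
          ((fun t => t + (T + 1)) t) := by
        refine ENNReal.tsum_le_tsum fun t => ?_
        simp only
        set u := t + (T + 1) with hu
        have hu0 : (0 : ℝ) < u := by
          have : 0 < u := by omega
          exact_mod_cast this
        calc ENNReal.ofReal (c / (u : ℝ)) ≤
              ENNReal.ofReal (((u + 1 : ℕ) : ℝ)) * ENNReal.ofReal (c / (u : ℝ) ^ 2) := by
              rw [← ENNReal.ofReal_mul (by positivity)]
              apply ENNReal.ofReal_le_ofReal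
              have h8 : c / (u : ℝ) = (u : ℝ) * (c / (u : ℝ) ^ 2) := by
                field_simp
              rw [h8]
              have h9 : 0 ≤ c / (u : ℝ) ^ 2 := by positivity
              push_cast
              nlinarith
          _ ≤ _ := by
              rw [ENNReal.ofReal_natCast]
              gcongr
              exact hcw u (by omega)
    _ ≤ _ := ENNReal.tsum_comp_le_tsum_of_injective (fun _ _ h => Nat.add_right_cancel h) _

variable {Ω : Type*} [MeasurableSpace Ω] {P : Measure Ω} [IsProbabilityMeasure P]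
  {X : ℤ → Ω → ℕ × ℕ}

theorem no_percolation_of_moment (h0 : μ 0 = 0)
    (hX : ∀ i, Measurable (X i)) (hind : iIndepFun X P)
    (hν : ∀ i a, P (X i ⁻¹' {a}) = nu μ a) {a : ℝ} (ha : 3 < a) (hM : Mo μ a ≠ ∞) :
    ∀ᵐ ω ∂P, ∀ i, {j | (G (fun i => X i ω)).Reachable i j}.Finite := by
  refine no_percolation_of_tsum hX hind (ident_of_law hX hν) ?_
  rw [eq_top_iff, ← tsum_cw_top h0 ha hM]
  exact ENNReal.tsum_le_tsum fun e => prob_closed_ge hX hind hν (e.1 + e.2)

end Pool.Agent.W_63dac5_h37
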