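import Pool.Agent.W_63dac5_h37.Top3

/-!
# The set of percolating degree laws
-/

namespace Pool.Agent.W_63dac5_h37.GenericLawOld

open MeasureTheory ProbabilityTheory Topology
open Pool.Agent.W_MP_63dac5_pr Pool.Agent.W_63dac5_h37

universe u

/-- The `X i` are independent marks `(L, R)` such that `D = L + R` has the law `p` and `R` is
binomial `(D, 1/2)` given `D`. -/
def Marks (p : DegreeLaw) {Ω : Type u} [MeasurableSpace Ω] (P : Measure Ω)
    (X : ℤ → Ω → ℕ × ℕ) : Prop :=
  (∀ i, Measurable (X i)) ∧ iIndepFun X P ∧ ∀ (i : ℤ) (l r : ℕ), P {ω | X i ω = (l, r)} =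
    ENNReal.ofReal (p.mass (l + r)) * ((l + r).choose r : ENNReal) / 2 ^ (l + r)

/-- For the degree law `p`: almost surely all components are finite.  (The points are listed in
increasing order by `T ω : ℤ → ℝ`.) -/
def NoPerc (p : DegreeLaw) : Prop :=
  ∀ {Ω : Type u} [MeasurableSpace Ω] (P : Measure Ω) [IsProbabilityMeasure P]
    (T : Ω → ℤ → ℝ) (X : ℤ → Ω → ℕ × ℕ), (∀ᵐ ω ∂P, StrictMono (T ω)) → Marks p P X →
    ∀ᵐ ω ∂P, ∀ i : ℤ, {j : ℤ | (graph (T ω) (fun n => X n ω)).Reachable i j}.Finite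

/-- For the degree law `p`: almost surely there is an infinite component. -/
def Perc (p : DegreeLaw) : Prop :=
  ∀ {Ω : Type u} [MeasurableSpace Ω] (P : Measure Ω) [IsProbabilityMeasure P]
    (T : Ω → ℤ → ℝ) (X : ℤ → Ω → ℕ × ℕ), (∀ᵐ ω ∂P, StrictMono (T ω)) → Marks p P X →
    ∀ᵐ ω ∂P, ∃ i : ℤ, {j : ℤ | (graph (T ω) (fun n => X n ω)).Reachable i j}.Infinite

/-- Let `DegreeLaw` be the space of probability measures on the positive integers with the total
variation distance.  There is a `G_δ` set `N` of laws such that for `p ∈ N` almost surely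
all components of the random direction stable multi-matching are finite and for `p ∉ N` almost
surely there is an infinite component.  Both `N` and its complement are dense, and even the laws
`p ∈ N` with `E f(D) = ∞` are dense, for every unbounded `f ≥ 0`. -/
theorem result :
    ∃ N : Set DegreeLaw, IsGδ N ∧ Dense Nᶜ ∧
      (∀ f : ℕ → ℝ, (∀ d, 0 ≤ f d) → (∀ C, ∃ d, C ≤ f d) →
        Dense (N ∩ {p : DegreeLaw | ¬ Summable (fun d : ℕ => p.mass d * f d)})) ∧
      ∀ p : DegreeLaw, (p ∈ N → NoPerc.{u} p) ∧ (p ∉ N → Perc.{u} p) := by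
  refine ⟨NN, isGδ_NN, dense_NNc, fun f hf hunb => dense_NN_inter hf hunb, ?_⟩
  intro p
  constructor
  · intro hp Ω _ P _ T X hT hM
    obtain ⟨hX, hind, hlaw⟩ := hM
    have hν : ∀ i a, P (X i ⁻¹' {a}) = nu (toPMF (toLaw p)) a := fun i a => hlaw i a.1 a.2
    filter_upwards [hT, finite_of_Fs hX hind hν hp] with ω h1 h2
    rw [graph_congr h1]
    exact h2
  · intro hp Ω _ P _ T X hT hM
    obtain ⟨hX, hind, hlaw⟩ := hM
    have hν : ∀ i a, P (X i ⁻¹' {a}) = nu (toPMF (toLaw p)) a := fun i a => hlaw i a.1 a.2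
    filter_upwards [hT, infinite_of_Fs (toPMF_zero (toLaw p)) hX hind hν hp] with ω h1 h2
    rw [graph_congr h1]
    exact h2

end Pool.Agent.W_63dac5_h37.GenericLawOld
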