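import Pool.Agent.W_MP_63dac5_pr.Kernel
import Pool.Agent.W_63dac5_h37.Conc

/-!
# Blocks, their kernels and the closed words
-/

namespace Pool.Agent.W_63dac5_h37

open ENNReal Finset
open Pool.Agent.W_MP_63dac5_pr

/-- an allowed block. -/
def AlwB (F z : ℕ) (B : List (ℕ × ℕ)) : Prop :=
  Rw B + F ≤ z ∧ ∀ x ∈ need [] B ++ run [] B, Rw B + 16 * x ^ 2 ≤ z

lemma srvL_inv {d : ℕ} (hd : 1 ≤ d) {z : ℕ} (hz : 16 * d ^ 2 ≤ z) {ls u : List ℕ} (hI : Inv d u)
    (hl : ∀ x ∈ ls, 16 * x ^ 2 ≤ z) (hs : ls.sum + z ≤ u.sum) :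
    okL ls u ∧ Inv d (srvL ls u) ∧ (srvL ls u).sum + ls.sum = u.sum := by
  induction ls generalizing u with
  | nil => exact ⟨trivial, hI, by simp [srvL]⟩
  | cons l ls ih =>
    simp only [List.sum_cons] at hs
    have h1 : 16 * l ^ 2 ≤ z := hl l (by simp)
    have h2 : l ^ 2 + (d + 1) * l ≤ u.sum := by
      have h3 : (d + 1) * l ≤ 2 * d * l := Nat.mul_le_mul_right _ (by omega)
      have h4 := two_mul_le_add_sq d l
      omega
    obtain ⟨h3, h4, h5⟩ := serve_inv hd hI h2
    obtain ⟨h6, h7, h8⟩ := ih h4 (fun x hx => hl x (List.mem_cons_of_mem _ hx)) (by omega)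
    refine ⟨⟨h3, h6⟩, h7, ?_⟩
    simp only [srvL, List.sum_cons]
    omega

lemma push_inv {d : ℕ} {L v : List ℕ} (hv : Inv d v) (hL : ∀ x ∈ L, x ^ 2 ≤ v.sum) :
    Inv d (L ++ v) := by
  induction L with
  | nil => exact hv
  | cons x L ih =>
    refine ⟨?_, ih fun y hy => hL y (List.mem_cons_of_mem _ hy)⟩
    have h1 := hL x (by simp)
    have h2 : (L ++ v).sum = L.sum + v.sum := List.sum_append
    show x ^ 2 ≤ x + (L ++ v).sum + d ^ 2
    omega

lemma block_run {F d z : ℕ} (hd : 1 ≤ d) (hF : 16 * d ^ 2 ≤ F) {B : List (ℕ × ℕ)} {u : List ℕ}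
    (hI : Inv d u) (hu : u.sum = z) (hB : AlwB F z B) :
    okrun u B ∧ Inv d (run u B) ∧ (run u B).sum = z - Rw B + Tw B := by
  obtain ⟨h1, h2⟩ := hB
  have h3 : ∀ x ∈ need [] B ++ run [] B, 16 * x ^ 2 ≤ z - Rw B := by
    intro x hx
    have := h2 x hx
    omega
  obtain ⟨h4, h5, h6⟩ := srvL_inv hd (z := z - Rw B) (by omega) (ls := need [] B) hI
    (fun x hx => h3 x (List.mem_append_left _ hx)) (by
      have : (need [] B).sum = Rw B := rfl
      omega)
  have h7 : (need [] B).sum = Rw B := rfl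
  have h8 : (run [] B).sum = Tw B := rfl
  refine ⟨(okrun_eq u B).2 h4, ?_, ?_⟩
  · rw [run_eq]
    refine push_inv h5 fun x hx => ?_
    have := h3 x (List.mem_append_right _ hx)
    omega
  · rw [run_eq, List.sum_append]
    omega

/-- all blocks are allowed. -/
def GPB (F : ℕ) : List ℕ → ℕ → List (ℕ × ℕ) → Prop
  | [], _, _ => True
  | m :: ms, z, w => AlwB F z (w.take m) ∧ GPB F ms (z - Rw (w.take m) + Tw (w.take m)) (w.drop m)

/-- the height after the blocks. -/
def hgtB : List ℕ → ℕ → List (ℕ × ℕ) → ℕ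
  | [], z, _ => z
  | m :: ms, z, w => hgtB ms (z - Rw (w.take m) + Tw (w.take m)) (w.drop m)

lemma run_GPB {F d : ℕ} (hd : 1 ≤ d) (hF : 16 * d ^ 2 ≤ F) {ms : List ℕ} {w : List (ℕ × ℕ)}
    {u : List ℕ} (hI : Inv d u) (hw : w.length = ms.sum) (hG : GPB F ms u.sum w) :
    okrun u w ∧ Inv d (run u w) ∧ (run u w).sum = hgtB ms u.sum w := by
  induction ms generalizing u w with
  | nil =>
    simp only [List.sum_nil, List.length_eq_zero_iff] at hw
    subst hw
    exact ⟨trivial, hI, rfl⟩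
  | cons m ms ih =>
    obtain ⟨h1, h2⟩ := hG
    obtain ⟨h3, h4, h5⟩ := block_run hd hF hI rfl h1
    simp only [List.sum_cons] at hw
    obtain ⟨h6, h7, h8⟩ := ih (w := w.drop m) (u := run u (w.take m)) h4
      (by rw [List.length_drop]; omega) (by rw [h5]; exact h2)
    have hr : run u w = run (run u (w.take m)) (w.drop m) := by
      rw [← run_append, List.take_append_drop]
    have ho : okrun u w ↔ okrun u (w.take m) ∧ okrun (run u (w.take m)) (w.drop m) := by
      rw [← okrun_append, List.take_append_drop]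
    refine ⟨ho.2 ⟨h3, h6⟩, hr ▸ h7, ?_⟩
    rw [hr, h8, h5]
    rfl

/-! ### the kernels -/

open Classical in
/-- the kernel of the allowed blocks. -/
noncomputable def kb (ν : ℕ × ℕ → ℝ≥0∞) (F m z y : ℕ) : ℝ≥0∞ :=
  Ex ν m (fun B => if AlwB F z B ∧ z - Rw B + Tw B = y then 1 else 0)

/-- the kernel of a list of blocks. -/
noncomputable def kp (ν : ℕ × ℕ → ℝ≥0∞) (F : ℕ) : List ℕ → ℕ → ℕ → ℝ≥0∞
  | [], z, s => if z = s then 1 else 0
  | m :: ms, z, s => ∑' y, kb ν F m z y * kp ν F ms y s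

lemma AlwB_mir {F z y : ℕ} {B : List (ℕ × ℕ)} (h : AlwB F z B ∧ z - Rw B + Tw B = y) :
    AlwB F y (mir B) ∧ y - Rw (mir B) + Tw (mir B) = z := by
  obtain ⟨⟨h1, h2⟩, h3⟩ := h
  have e1 : Rw (mir B) = Tw B := (Tw_eq B).symm
  have e2 : Tw (mir B) = Rw B := (Rw_eq B).symm
  have e3 : need [] (mir B) = run [] B := (run_eq_need_mir B).symm
  have e4 : run [] (mir B) = need [] B := (need_eq_run_mir B).symm
  refine ⟨⟨by omega, fun x hx => ?_⟩, by omega⟩
  rw [e3, e4] at hx
  have hx' : x ∈ need [] B ++ run [] B := by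
    rw [List.mem_append] at hx ⊢
    exact hx.symm
  have := h2 x hx'
  omega

lemma kb_symm {ν : ℕ × ℕ → ℝ≥0∞} (hν : ∀ a, ν a.swap = ν a) (F m z y : ℕ) :
    kb ν F m z y = kb ν F m y z := by
  classical
  unfold kb
  rw [← Ex_mir hν]
  refine Ex_congr _ _ fun B _ => ?_
  by_cases h : AlwB F y B ∧ y - Rw B + Tw B = z
  · rw [if_pos h, if_pos (AlwB_mir h)]
  · rw [if_neg h, if_neg]
    intro h'
    have := AlwB_mir h'
    rw [mir_mir] at this
    exact h this

lemma kp_append (ν : ℕ × ℕ → ℝ≥0∞) (F : ℕ) (ms ms' : List ℕ) (z s : ℕ) :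
    kp ν F (ms ++ ms') z s = ∑' y, kp ν F ms z y * kp ν F ms' y s := by
  induction ms generalizing z with
  | nil =>
    simp only [kp, List.nil_append, ite_mul, one_mul, zero_mul]
    simp_rw [eq_comm (a := z)]
    rw [tsum_ite_eq]
  | cons m ms ih =>
    have h1 : kp ν F (m :: ms ++ ms') z s = ∑' y, kb ν F m z y * kp ν F (ms ++ ms') y s := rfl
    have h2 : ∀ y, kp ν F (m :: ms) z y = ∑' x, kb ν F m z x * kp ν F ms x y := fun y => rfl
    rw [h1]
    simp only [ih, h2]
    simp_rw [← ENNReal.tsum_mul_left, ← ENNReal.tsum_mul_right]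
    rw [ENNReal.tsum_comm]
    refine tsum_congr fun y => tsum_congr fun x => by ring

lemma kp_single (ν : ℕ × ℕ → ℝ≥0∞) (F m z s : ℕ) : kp ν F [m] z s = kb ν F m z s := by
  simp only [kp, mul_ite, mul_one, mul_zero]
  rw [tsum_ite_eq]

lemma kp_reverse {ν : ℕ × ℕ → ℝ≥0∞} (hν : ∀ a, ν a.swap = ν a) (F : ℕ) (ms : List ℕ) (z s : ℕ) :
    kp ν F ms.reverse z s = kp ν F ms s z := by
  induction ms generalizing z s with
  | nil => simp only [List.reverse_nil, kp, eq_comm]
  | cons m ms ih =>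
    rw [List.reverse_cons, kp_append]
    show _ = ∑' y, kb ν F m s y * kp ν F ms y z
    refine tsum_congr fun y => ?_
    rw [ih, kp_single, kb_symm hν, mul_comm]

lemma kp_palindrome {ν : ℕ × ℕ → ℝ≥0∞} (hν : ∀ a, ν a.swap = ν a) (F : ℕ) (ms : List ℕ) (z : ℕ) :
    kp ν F (ms ++ ms.reverse) z z = ∑' y, kp ν F ms z y ^ 2 := by
  rw [kp_append]
  refine tsum_congr fun y => ?_
  rw [kp_reverse hν, sq]

open Classical in
lemma tsum_kb_mul (ν : ℕ × ℕ → ℝ≥0∞) (F m z : ℕ) (u : ℕ → ℝ≥0∞) :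
    ∑' y, kb ν F m z y * u y =
      Ex ν m (fun B => if AlwB F z B then u (z - Rw B + Tw B) else 0) := by
  unfold kb
  simp_rw [← Ex_mul_right]
  rw [← Ex_tsum]
  refine Ex_congr _ _ fun B _ => ?_
  by_cases h : AlwB F z B
  · simp only [h, true_and, if_true, ite_mul, one_mul, zero_mul]
    simp_rw [eq_comm (a := z - Rw B + Tw B)]
    rw [tsum_ite_eq]
  · simp [h]

lemma Ex_zero (ν : ℕ × ℕ → ℝ≥0∞) (n : ℕ) : Ex ν n (fun _ => 0) = 0 := by
  have := Ex_mul_left ν n 0 (fun _ => 0)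
  simpa only [zero_mul] using this

open Classical in
lemma tsum_kp_mul (ν : ℕ × ℕ → ℝ≥0∞) (F : ℕ) (ms : List ℕ) (z : ℕ) (u : ℕ → ℝ≥0∞) :
    ∑' y, kp ν F ms z y * u y =
      Ex ν ms.sum (fun w => if GPB F ms z w then u (hgtB ms z w) else 0) := by
  induction ms generalizing z with
  | nil =>
    simp only [kp, List.sum_nil, Ex, GPB, hgtB, if_true, ite_mul, one_mul, zero_mul]
    simp_rw [eq_comm (a := z)]
    rw [tsum_ite_eq]
  | cons m ms ih =>
    calc ∑' y, kp ν F (m :: ms) z y * u y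
        = ∑' y, kb ν F m z y * ∑' s, kp ν F ms y s * u s := by
          have h2 : ∀ y, kp ν F (m :: ms) z y = ∑' x, kb ν F m z x * kp ν F ms x y := fun y => rfl
          simp only [h2]
          simp_rw [← ENNReal.tsum_mul_left, ← ENNReal.tsum_mul_right]
          rw [ENNReal.tsum_comm]
          refine tsum_congr fun y => tsum_congr fun x => by ring
      _ = Ex ν m (fun B => if AlwB F z B then ∑' s, kp ν F ms (z - Rw B + Tw B) s * u s else 0) :=
          tsum_kb_mul ν F m z _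
      _ = Ex ν (m + ms.sum) (fun w => if GPB F (m :: ms) z w then u (hgtB (m :: ms) z w) else 0) := by
          rw [Ex_append]
          refine Ex_congr _ _ fun B hB => ?_
          have e1 : ∀ v : List (ℕ × ℕ), (B ++ v).take m = B := by
            intro v
            rw [← hB, List.take_left']
            rfl
          have e2 : ∀ v : List (ℕ × ℕ), (B ++ v).drop m = v := by
            intro v
            rw [← hB, List.drop_left']
            rfl
          simp only [GPB, hgtB, e1, e2]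
          by_cases h : AlwB F z B
          · simp only [h, true_and, if_true]
            exact ih _
          · simp only [h, false_and, if_false]
            exact (Ex_zero _ _).symm
      _ = _ := by rw [List.sum_cons]

/-! ### closed words -/

lemma CW_wordB {F d k : ℕ} (hd : 1 ≤ d) (hF : 16 * d ^ 2 ≤ F) {ms : List ℕ} {w : List (ℕ × ℕ)}
    (hw : w.length = ms.sum) (hG : GPB F ms (k * d) w) (hh : hgtB ms (k * d) w = k * d) :
    CW (List.replicate k (0, d) ++ (w ++ Vk d k)) := by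
  obtain ⟨h1, h2⟩ := run_start d k []
  rw [List.append_nil] at h1
  have hs : (List.replicate k d).sum = k * d := by simp
  obtain ⟨h3, h4, h5⟩ := run_GPB hd hF (u := List.replicate k d) (inv_start d k) hw
    (by rw [hs]; exact hG)
  rw [hs, hh] at h5
  obtain ⟨h6, h7⟩ := run_Vk h5
  unfold CW
  rw [run_append, run_append, okrun_append, okrun_append, h1]
  exact ⟨⟨h2, h3, h7⟩, h6⟩

lemma cw_geB (ν : ℕ × ℕ → ℝ≥0∞) {F d k : ℕ} (hd : 1 ≤ d) (hF : 16 * d ^ 2 ≤ F) (ms : List ℕ) :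
    ((List.replicate k ((0 : ℕ), d)).map ν).prod * (((Vk d k).map ν).prod *
      kp ν F ms (k * d) (k * d)) ≤ cw ν (k + (ms.sum + k * d)) := by
  classical
  have hk : kp ν F ms (k * d) (k * d) = ∑' y, kp ν F ms (k * d) y * (if y = k * d then 1 else 0) := by
    simp
  rw [hk, tsum_kp_mul]
  unfold cw
  rw [Ex_append]
  have h1 : (List.replicate k ((0 : ℕ), d)).length = k := by simp
  refine le_trans ?_ (le_of_le_of_eq (Ex_ge_single ν (List.replicate k ((0 : ℕ), d)) _)
    (by rw [h1]))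
  gcongr
  rw [Ex_append, ← Ex_mul_left]
  refine Ex_mono ν _ fun w hw => ?_
  refine le_trans ?_ (le_of_le_of_eq (Ex_ge_single ν (Vk d k) _) (by rw [Vk_length]))
  gcongr
  by_cases h : GPB F ms (k * d) w
  · by_cases h' : hgtB ms (k * d) w = k * d
    · rw [if_pos h, if_pos h', if_pos (CW_wordB hd hF hw h h')]
    · rw [if_pos h, if_neg h']; exact bot_le
  · rw [if_neg h]; exact bot_le

/-- the constants are positive. -/
lemma prods_ne_zero {ν : ℕ × ℕ → ℝ≥0∞} {d k : ℕ} (hpos : ∀ a : ℕ × ℕ, a.1 + a.2 = d → ν a ≠ 0) :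
    ((List.replicate k ((0 : ℕ), d)).map ν).prod ≠ 0 ∧ ((Vk d k).map ν).prod ≠ 0 := by
  have hVw : ∀ t, t ≤ d → ∀ a ∈ Vw d t, a.1 + a.2 = d := by
    intro t
    induction t with
    | zero => intro _ a ha; simp [Vw] at ha
    | succ t ih =>
      intro ht a ha
      simp only [Vw, List.mem_append, List.mem_singleton] at ha
      rcases ha with ha | rfl
      · exact ih (by omega) a ha
      · simp only; omega
  have hVk : ∀ j, ∀ a ∈ Vk d j, a.1 + a.2 = d := by
    intro j
    induction j with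
    | zero => intro a ha; simp [Vk] at ha
    | succ j ih =>
      intro a ha
      simp only [Vk, List.mem_append] at ha
      rcases ha with ha | ha
      · exact hVw d le_rfl a ha
      · exact ih a ha
  have hprod : ∀ L : List (ℕ × ℕ), (∀ a ∈ L, a.1 + a.2 = d) → (L.map ν).prod ≠ 0 := by
    intro L hL h0
    rw [List.prod_eq_zero_iff, List.mem_map] at h0
    obtain ⟨a, ha, ha0⟩ := h0
    exact hpos a (hL a ha) ha0
  refine ⟨hprod _ fun a ha => ?_, hprod _ (hVk k)⟩
  rw [List.eq_of_mem_replicate ha]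
  simp

end Pool.Agent.W_63dac5_h37
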