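import Pool.Agent.W_MP_63dac5_pr.LightMain

/-!
# No percolation for light-tailed degrees
-/

namespace Pool.Agent.W_63dac5_h37.LightTailsOld

open MeasureTheory ProbabilityTheory Filter Topology
open Pool.Agent.W_MP_63dac5_pr

/-- Let the points of a configuration on the line be listed in increasing order by
`T ω : ℤ → ℝ`, and give them independent marks `X i = (L, R)` where `D = L + R` has law `μ` on the
positive integers and `R` is binomial `(D, 1/2)` given `D`.  If `x ^ 4 P(D > x) → 0` (for instance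
if `E[D ^ 4] < ∞`, or if `μ` has bounded support), then almost surely all components of the random
direction stable multi-matching are finite. -/
theorem result
    {Ω : Type*} [MeasurableSpace Ω] (P : Measure Ω) [IsProbabilityMeasure P]
    (T : Ω → ℤ → ℝ) (hT : ∀ᵐ ω ∂P, StrictMono (T ω))
    (μ : PMF ℕ) (hμ : μ 0 = 0)
    (X : ℤ → Ω → ℕ × ℕ) (hX : ∀ i, Measurable (X i)) (hind : iIndepFun X P)
    (hlaw : ∀ (i : ℤ) (l r : ℕ), P {ω | X i ω = (l, r)} =
      μ (l + r) * ((l + r).choose r : ENNReal) / 2 ^ (l + r))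
    (hlight : Tendsto (fun x : ℕ => (x : ℝ) ^ 4 *
      ∑' d : ℕ, (if x < d then (μ d).toReal else 0)) atTop (𝓝 0)) :
    ∀ᵐ ω ∂P, ∀ i : ℤ, {j : ℤ | (graph (T ω) (fun n => X n ω)).Reachable i j}.Finite := by
  have hν : ∀ i a, P (X i ⁻¹' {a}) = nu μ a := fun i a => hlaw i a.1 a.2
  filter_upwards [hT, light_no_percolation μ hμ hX hind hν hlight] with ω h1 h2
  rw [graph_congr h1]
  exact h2

end Pool.Agent.W_63dac5_h37.LightTailsOld
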