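import Pool.Agent.W_63dac5_h37.Boot

/-!
# Moments of the numbers of unused stubs of a block
-/

namespace Pool.Agent.W_63dac5_h37

open ENNReal Finset
open Pool.Agent.W_MP_63dac5_pr

variable {μ : PMF ℕ}

/-- sum of a function over the demands. -/
noncomputable def SN (φ : ℕ → ℝ≥0∞) (w : List (ℕ × ℕ)) : ℝ≥0∞ := ((need [] w).map φ).sum

lemma SN_snoc (φ : ℕ → ℝ≥0∞) (w : List (ℕ × ℕ)) (a : ℕ × ℕ) :
    SN φ (w ++ [a]) = SN φ w + φ (a.1 - Nw w) := by
  unfold SN Nw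
  rw [need_snoc]
  simp

lemma Ex_SN (φ : ℕ → ℝ≥0∞) (m : ℕ) :
    Ex (nu μ) m (SN φ) =
      ∑ j ∈ range m, Ex (nu μ) j (fun w => ∑' a : ℕ × ℕ, nu μ a * φ (a.1 - Nw w)) := by
  induction m with
  | zero => simp [Ex, SN, need]
  | succ m ih =>
    rw [Finset.sum_range_succ, ← ih, Ex_snoc, ← Ex_add]
    refine Ex_congr _ _ fun w _ => ?_
    simp only [SN_snoc, mul_add]
    rw [ENNReal.tsum_add, ENNReal.tsum_mul_right, tsum_nu_one, one_mul]

lemma Rw_eq_SN (w : List (ℕ × ℕ)) : (Rw w : ℝ≥0∞) = SN (fun x => (x : ℝ≥0∞)) w := by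
  unfold Rw SN
  induction (need [] w) with
  | nil => simp
  | cons a t ih => simp [ih]

/-- one term. -/
lemma Ex_phi_le {A φ₀ : ℝ} (hA : 0 ≤ A) (hH : HF μ φ₀ A) {φ : ℕ → ℝ≥0∞} (h0 : φ 0 = 0)
    (hmono : Monotone φ) (j : ℕ) :
    Ex (nu μ) j (fun w => ∑' a : ℕ × ℕ, nu μ a * φ (a.1 - Nw w)) ≤
      ENNReal.ofReal (A * ((j : ℝ) + 1) ^ (-φ₀)) * ∑' d : ℕ, μ d * (φ d * d) := by
  rw [Ex_tsum]
  have h1 : ∀ a : ℕ × ℕ, Ex (nu μ) j (fun w => nu μ a * φ (a.1 - Nw w)) ≤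
      nu μ a * (ENNReal.ofReal (A * ((j : ℝ) + 1) ^ (-φ₀)) *
        (φ (a.1 + a.2) * ((a.1 + a.2 : ℕ) : ℝ≥0∞))) := by
    intro a
    rw [Ex_mul_left]
    refine mul_le_mul' le_rfl ?_
    rcases Nat.eq_zero_or_pos a.1 with ha | ha
    · have : ∀ w : List (ℕ × ℕ), φ (a.1 - Nw w) = 0 := by
        intro w; rw [ha, Nat.zero_sub, h0]
      simp only [this]
      rw [Ex_const (tsum_nu_one μ)]
      exact bot_le
    · have h2 : Ex (nu μ) j (fun w => φ (a.1 - Nw w)) ≤ φ a.1 * Fp μ j (a.1 - 1) := by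
        rw [Fp_eq_N, ← Ex_mul_left]
        refine Ex_mono _ _ fun w _ => ?_
        by_cases hw : Nw w ≤ a.1 - 1
        · rw [if_pos hw, mul_one]
          exact hmono (Nat.sub_le _ _)
        · rw [if_neg hw, mul_zero]
          have : a.1 - Nw w = 0 := by omega
          rw [this, h0]
      refine h2.trans ?_
      have h3 := hH j (a.1 - 1)
      have h4 : (((a.1 - 1 : ℕ) : ℝ) + 1) = a.1 := by
        rw [Nat.cast_sub ha]; push_cast; ring
      rw [h4] at h3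
      calc φ a.1 * Fp μ j (a.1 - 1)
          ≤ φ (a.1 + a.2) * ENNReal.ofReal (A * (a.1 : ℝ) * ((j : ℝ) + 1) ^ (-φ₀)) :=
            mul_le_mul' (hmono (Nat.le_add_right _ _)) h3
        _ ≤ φ (a.1 + a.2) * (ENNReal.ofReal (A * ((j : ℝ) + 1) ^ (-φ₀)) *
            ((a.1 + a.2 : ℕ) : ℝ≥0∞)) := by
            refine mul_le_mul' le_rfl ?_
            rw [← ENNReal.ofReal_natCast, ← ENNReal.ofReal_mul (by positivity)]
            apply ENNReal.ofReal_le_ofReal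
            have : (a.1 : ℝ) ≤ ((a.1 + a.2 : ℕ) : ℝ) := by
              push_cast
              have : (0 : ℝ) ≤ a.2 := by positivity
              linarith
            calc A * (a.1 : ℝ) * ((j : ℝ) + 1) ^ (-φ₀)
                = A * ((j : ℝ) + 1) ^ (-φ₀) * a.1 := by ring
              _ ≤ _ := by gcongr
        _ = _ := by ring
  refine (ENNReal.tsum_le_tsum h1).trans ?_
  refine (tsum_nu_le μ _ (fun d => ENNReal.ofReal (A * ((j : ℝ) + 1) ^ (-φ₀)) * (φ d * d))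
    (fun a => le_rfl)).trans (le_of_eq ?_)
  rw [← ENNReal.tsum_mul_left]
  exact tsum_congr fun d => by ring

/-- sums over the demands. -/
lemma Ex_SN_le {A ε : ℝ} (hA : 0 ≤ A) (hε0 : 0 ≤ ε) (hε : ε ≤ 1 / 2) (hH : HF μ (1 / 2 - ε) A)
    {φ : ℕ → ℝ≥0∞} (h0 : φ 0 = 0) (hmono : Monotone φ) (m : ℕ) :
    Ex (nu μ) m (SN φ) ≤
      ENNReal.ofReal (2 * A * (m : ℝ) ^ (1 / 2 + ε)) * ∑' d : ℕ, μ d * (φ d * d) := by
  rw [Ex_SN]
  calc ∑ j ∈ range m, Ex (nu μ) j (fun w => ∑' a : ℕ × ℕ, nu μ a * φ (a.1 - Nw w))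
      ≤ ∑ j ∈ range m, ENNReal.ofReal (A * ((j : ℝ) + 1) ^ (-(1 / 2 - ε))) *
          ∑' d : ℕ, μ d * (φ d * d) :=
        Finset.sum_le_sum fun j _ => Ex_phi_le hA hH h0 hmono j
    _ = ENNReal.ofReal (A * ∑ j ∈ range m, ((j : ℝ) + 1) ^ (-(1 / 2 - ε))) *
          ∑' d : ℕ, μ d * (φ d * d) := by
        rw [← Finset.sum_mul, ← ENNReal.ofReal_sum_of_nonneg (fun n _ => by positivity),
          ← Finset.mul_sum]
    _ ≤ _ := by
        refine mul_le_mul' (ENNReal.ofReal_le_ofReal ?_) le_rfl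
        have h1 := sum_rpow_le (p := 1 / 2 - ε) (by linarith) (by linarith) m
        have e : 1 - (1 / 2 - ε) = 1 / 2 + ε := by ring
        rw [e] at h1
        have h2 : (m : ℝ) ^ (1 / 2 + ε) / (1 / 2 + ε) ≤ 2 * (m : ℝ) ^ (1 / 2 + ε) := by
          rw [div_le_iff₀ (by linarith)]
          have : (0 : ℝ) ≤ (m : ℝ) ^ (1 / 2 + ε) := by positivity
          nlinarith
        calc A * ∑ j ∈ range m, ((j : ℝ) + 1) ^ (-(1 / 2 - ε))
            ≤ A * (2 * (m : ℝ) ^ (1 / 2 + ε)) := by gcongr; exact h1.trans h2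
          _ = _ := by ring

/-! ### integer moments -/

/-- moments with natural exponents. -/
noncomputable def Mn (μ : PMF ℕ) (q : ℕ) : ℝ≥0∞ := ∑' d : ℕ, μ d * (d : ℝ≥0∞) ^ q

lemma Mn_ne_top {a : ℝ} (hM : Mo μ a ≠ ∞) {q : ℕ} (hq : (q : ℝ) ≤ a) (hq1 : 1 ≤ q) :
    Mn μ q ≠ ∞ := by
  refine ne_top_of_le_ne_top hM ?_
  unfold Mn Mo
  refine ENNReal.tsum_le_tsum fun d => mul_le_mul' le_rfl ?_
  rw [← ENNReal.ofReal_natCast, ← ENNReal.ofReal_pow (by positivity)]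
  apply ENNReal.ofReal_le_ofReal
  rcases Nat.eq_zero_or_pos d with rfl | hd
  · rw [Nat.cast_zero, zero_pow (by omega)]
    positivity
  · rw [← Real.rpow_natCast]
    exact Real.rpow_le_rpow_of_exponent_le (by exact_mod_cast hd) hq

lemma m1_ne_top (h : Mn μ 1 ≠ ∞) : m1 μ ≠ ∞ := by
  refine ne_top_of_le_ne_top h ?_
  unfold m1 Mn
  simp only [pow_one]
  refine tsum_nu_le μ _ (fun d => (d : ℝ≥0∞)) fun a => ?_
  push_cast
  exact le_self_add

/-- the law of the demand of one letter over a stack. -/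
noncomputable def Dq (μ : PMF ℕ) (q y : ℕ) : ℝ≥0∞ :=
  ∑' a : ℕ × ℕ, nu μ a * ((a.1 - y : ℕ) : ℝ≥0∞) ^ q

lemma Dq_le (q y : ℕ) : Dq μ q y ≤ Mn μ q := by
  unfold Dq Mn
  refine tsum_nu_le μ _ (fun d => (d : ℝ≥0∞) ^ q) fun a => ?_
  gcongr
  omega

/-- `q`-th moment of the number of unused left stubs, starting from a stack. -/
noncomputable def rq (μ : PMF ℕ) (q : ℕ) (u : List ℕ) (m : ℕ) : ℝ≥0∞ :=
  Ex (nu μ) m (fun w => ((need u w).sum : ℝ≥0∞) ^ q)

lemma rq_le_nil (q : ℕ) (u : List ℕ) (m : ℕ) : rq μ q u m ≤ rq μ q [] m := by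
  unfold rq
  refine Ex_mono _ _ fun w _ => ?_
  gcongr
  exact need_sum_le u w

lemma rq_mono (q : ℕ) {m n : ℕ} (h : m ≤ n) : rq μ q [] m ≤ rq μ q [] n := by
  obtain ⟨j, rfl⟩ := Nat.exists_eq_add_of_le h
  unfold rq
  rw [← Ex_take (tsum_nu_one μ) m j (fun w => ((need [] w).sum : ℝ≥0∞) ^ q)]
  refine Ex_mono _ _ fun w _ => ?_
  gcongr
  have h1 := need_append [] (w.take m) (w.drop m)
  rw [List.take_append_drop] at h1
  rw [h1, List.sum_append]
  omega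

lemma explore_le' {H : List ℕ → ℕ → ℝ≥0∞} {g : List ℕ → ℝ≥0∞} (h0 : ∀ u, H u 0 ≤ 0) (M : ℕ)
    (hs : ∀ u n, n < M → H u (n + 1) ≤ (∑' a, nu μ a * H (stp u a) n) + g u) (m : ℕ) (hm : m ≤ M) :
    H [] m ≤ ∑ j ∈ range m, Ex (nu μ) j (fun w => g (run [] w)) := by
  have h1 := explore_le (ν := nu μ) (H := fun u n => if n ≤ M then H u n else 0) (g := g)
    (by intro u; simpa using h0 u) ?_ [] m
  · simpa [hm] using h1
  · intro u n
    by_cases hn : n + 1 ≤ M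
    · simp only [if_pos hn, if_pos (show n ≤ M by omega)]
      exact hs u n (by omega)
    · simp only [if_neg hn]
      exact bot_le

lemma rq_zero {q : ℕ} (hq : 1 ≤ q) (u : List ℕ) : rq μ q u 0 ≤ 0 := by
  unfold rq
  simp only [Ex, need, List.sum_nil, Nat.cast_zero]
  rw [zero_pow (by omega)]

lemma sum_Dq_one (m : ℕ) :
    ∑ j ∈ range m, Ex (nu μ) j (fun w => Dq μ 1 (nz (run [] w))) = rq μ 1 [] m := by
  have h := Ex_SN (μ := μ) (fun x => (x : ℝ≥0∞)) m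
  unfold rq
  simp only [pow_one]
  have h2 : Ex (nu μ) m (fun w => ((need [] w).sum : ℝ≥0∞)) =
      Ex (nu μ) m (SN (fun x => (x : ℝ≥0∞))) := Ex_congr _ _ fun w _ => Rw_eq_SN w
  rw [h2, h]
  refine Finset.sum_congr rfl fun j _ => ?_
  unfold Dq
  simp only [pow_one]
  rfl

lemma rq_two (m : ℕ) :
    rq μ 2 [] m ≤ 2 * rq μ 1 [] m * rq μ 1 [] m + m * Mn μ 2 := by
  set R := rq μ 1 [] m with hR
  have h1 := explore_le' (μ := μ) (H := rq μ 2)
    (g := fun u => 2 * R * Dq μ 1 (nz u) + Mn μ 2) (rq_zero (by norm_num)) m ?_ m le_rfl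
  · refine h1.trans ?_
    simp only [Ex_add, Ex_mul_left, Ex_const (tsum_nu_one μ)]
    rw [Finset.sum_add_distrib, ← Finset.mul_sum, sum_Dq_one]
    simp [hR]
  · intro u n hn
    have h2 : ∀ a : ℕ × ℕ, nu μ a * Ex (nu μ) n
        (fun w => ((need u (a :: w)).sum : ℝ≥0∞) ^ 2) ≤
        nu μ a * rq μ 2 (stp u a) n + (nu μ a * (2 * R * ((a.1 - nz u : ℕ) : ℝ≥0∞)) +
          nu μ a * ((a.1 - nz u : ℕ) : ℝ≥0∞) ^ 2) := by
      intro a
      rw [← mul_add, ← mul_add]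
      refine mul_le_mul' le_rfl ?_
      have h3 : rq μ 1 (stp u a) n ≤ R := (rq_le_nil 1 _ n).trans (rq_mono 1 hn.le)
      calc Ex (nu μ) n (fun w => ((need u (a :: w)).sum : ℝ≥0∞) ^ 2)
          = Ex (nu μ) n (fun w => ((need (stp u a) w).sum : ℝ≥0∞) ^ 2 +
              (2 * ((a.1 - nz u : ℕ) : ℝ≥0∞) * ((need (stp u a) w).sum : ℝ≥0∞) ^ 1 +
                ((a.1 - nz u : ℕ) : ℝ≥0∞) ^ 2)) := by
            refine Ex_congr _ _ fun w _ => ?_
            simp only [need, List.sum_cons]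
            push_cast
            ring
        _ = rq μ 2 (stp u a) n + (2 * ((a.1 - nz u : ℕ) : ℝ≥0∞) * rq μ 1 (stp u a) n +
              ((a.1 - nz u : ℕ) : ℝ≥0∞) ^ 2) := by
            rw [Ex_add, Ex_add, Ex_mul_left, Ex_const (tsum_nu_one μ)]
            rfl
        _ ≤ rq μ 2 (stp u a) n + (2 * ((a.1 - nz u : ℕ) : ℝ≥0∞) * R +
              ((a.1 - nz u : ℕ) : ℝ≥0∞) ^ 2) := by gcongr
        _ = _ := by ring
    calc rq μ 2 u (n + 1) = ∑' a, nu μ a * Ex (nu μ) n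
          (fun w => ((need u (a :: w)).sum : ℝ≥0∞) ^ 2) := rfl
      _ ≤ ∑' a, (nu μ a * rq μ 2 (stp u a) n + (nu μ a * (2 * R * ((a.1 - nz u : ℕ) : ℝ≥0∞)) +
          nu μ a * ((a.1 - nz u : ℕ) : ℝ≥0∞) ^ 2)) := ENNReal.tsum_le_tsum h2
      _ = ∑' a, nu μ a * rq μ 2 (stp u a) n + (2 * R * Dq μ 1 (nz u) + Dq μ 2 (nz u)) := by
          rw [ENNReal.tsum_add, ENNReal.tsum_add]
          congr 2
          unfold Dq
          rw [← ENNReal.tsum_mul_left]
          exact tsum_congr fun a => by ring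
      _ ≤ _ := by
          gcongr
          exact Dq_le 2 _

lemma cube_le (x y : ℝ≥0∞) : (x + y) ^ 3 ≤ y ^ 3 + 6 * x ^ 3 + 6 * x * y ^ 2 := by
  by_cases hx : x = ∞
  · subst hx; simp
  by_cases hy : y = ∞
  · subst hy; simp
  lift x to NNReal using hx
  lift y to NNReal using hy
  norm_cast
  rw [← NNReal.coe_le_coe]
  push_cast
  have h1 : (0 : ℝ) ≤ x := x.2
  have h2 : (0 : ℝ) ≤ y := y.2
  nlinarith [mul_nonneg h1 (sq_nonneg ((x : ℝ) - y)), mul_nonneg h1 (sq_nonneg ((x : ℝ) + y)),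
    mul_nonneg h1 (sq_nonneg (x : ℝ)), mul_nonneg h1 (sq_nonneg (y : ℝ))]

lemma rq_three (m : ℕ) :
    rq μ 3 [] m ≤ 6 * rq μ 2 [] m * rq μ 1 [] m + m * (6 * Mn μ 3) := by
  set R := rq μ 2 [] m with hR
  have h1 := explore_le' (μ := μ) (H := rq μ 3)
    (g := fun u => 6 * R * Dq μ 1 (nz u) + 6 * Mn μ 3) (rq_zero (by norm_num)) m ?_ m le_rfl
  · refine h1.trans ?_
    simp only [Ex_add, Ex_mul_left, Ex_const (tsum_nu_one μ)]
    rw [Finset.sum_add_distrib, ← Finset.mul_sum, sum_Dq_one]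
    simp [hR]
  · intro u n hn
    have h2 : ∀ a : ℕ × ℕ, nu μ a * Ex (nu μ) n
        (fun w => ((need u (a :: w)).sum : ℝ≥0∞) ^ 3) ≤
        nu μ a * rq μ 3 (stp u a) n + (nu μ a * (6 * R * ((a.1 - nz u : ℕ) : ℝ≥0∞)) +
          nu μ a * (6 * ((a.1 - nz u : ℕ) : ℝ≥0∞) ^ 3)) := by
      intro a
      rw [← mul_add, ← mul_add]
      refine mul_le_mul' le_rfl ?_
      have h3 : rq μ 2 (stp u a) n ≤ R := (rq_le_nil 2 _ n).trans (rq_mono 2 hn.le)
      calc Ex (nu μ) n (fun w => ((need u (a :: w)).sum : ℝ≥0∞) ^ 3)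
          ≤ Ex (nu μ) n (fun w => ((need (stp u a) w).sum : ℝ≥0∞) ^ 3 +
              (6 * ((a.1 - nz u : ℕ) : ℝ≥0∞) * ((need (stp u a) w).sum : ℝ≥0∞) ^ 2 +
                6 * ((a.1 - nz u : ℕ) : ℝ≥0∞) ^ 3)) := by
            refine Ex_mono _ _ fun w _ => ?_
            simp only [need, List.sum_cons]
            push_cast
            refine (cube_le _ _).trans (le_of_eq (by ring))
        _ = rq μ 3 (stp u a) n + (6 * ((a.1 - nz u : ℕ) : ℝ≥0∞) * rq μ 2 (stp u a) n +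
              6 * ((a.1 - nz u : ℕ) : ℝ≥0∞) ^ 3) := by
            rw [Ex_add, Ex_add, Ex_mul_left, Ex_const (tsum_nu_one μ)]
            rfl
        _ ≤ rq μ 3 (stp u a) n + (6 * ((a.1 - nz u : ℕ) : ℝ≥0∞) * R +
              6 * ((a.1 - nz u : ℕ) : ℝ≥0∞) ^ 3) := by gcongr
        _ = _ := by ring
    calc rq μ 3 u (n + 1) = ∑' a, nu μ a * Ex (nu μ) n
          (fun w => ((need u (a :: w)).sum : ℝ≥0∞) ^ 3) := rfl
      _ ≤ ∑' a, (nu μ a * rq μ 3 (stp u a) n + (nu μ a * (6 * R * ((a.1 - nz u : ℕ) : ℝ≥0∞)) +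
          nu μ a * (6 * ((a.1 - nz u : ℕ) : ℝ≥0∞) ^ 3))) := ENNReal.tsum_le_tsum h2
      _ = ∑' a, nu μ a * rq μ 3 (stp u a) n + (6 * R * Dq μ 1 (nz u) + 6 * Dq μ 3 (nz u)) := by
          rw [ENNReal.tsum_add, ENNReal.tsum_add]
          congr 2
          · unfold Dq
            rw [← ENNReal.tsum_mul_left]
            exact tsum_congr fun a => by ring
          · unfold Dq
            rw [← ENNReal.tsum_mul_left]
            exact tsum_congr fun a => by ring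
      _ ≤ _ := by
          gcongr
          exact Dq_le 3 _

lemma rq_mir (q m : ℕ) : Ex (nu μ) m (fun w => (Tw w : ℝ≥0∞) ^ q) = rq μ q [] m := by
  unfold rq
  rw [← Ex_mir (nu_swap μ)]
  exact Ex_congr _ _ fun w _ => by rw [Tw_eq, mir_mir]; rfl

/-- Third moment bound. -/
theorem rq_three_le {A ε a : ℝ} (hA : 0 ≤ A) (hε0 : 0 ≤ ε) (hε : ε ≤ 1 / 2)
    (hH : HF μ (1 / 2 - ε) A) (ha : 3 ≤ a) (hM : Mo μ a ≠ ∞) :
    ∃ C : ℝ, 0 ≤ C ∧ (∀ m : ℕ, rq μ 1 [] m ≤ ENNReal.ofReal (C * (m : ℝ) ^ (1 / 2 + ε))) ∧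
      ∀ m : ℕ, 1 ≤ m → rq μ 3 [] m ≤ ENNReal.ofReal (C * (m : ℝ) ^ (3 / 2 + 3 * ε)) := by
  have hM2 : Mn μ 2 ≠ ∞ := Mn_ne_top hM (by push_cast; linarith) (by norm_num)
  have hM3 : Mn μ 3 ≠ ∞ := Mn_ne_top hM (by push_cast; linarith) (by norm_num)
  set x2 := (Mn μ 2).toReal with hx2
  set x3 := (Mn μ 3).toReal with hx3
  have e2 : Mn μ 2 = ENNReal.ofReal x2 := (ENNReal.ofReal_toReal hM2).symm
  have e3 : Mn μ 3 = ENNReal.ofReal x3 := (ENNReal.ofReal_toReal hM3).symm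
  have hx20 : 0 ≤ x2 := ENNReal.toReal_nonneg
  have hx30 : 0 ≤ x3 := ENNReal.toReal_nonneg
  set c := 2 * A * x2 with hc
  have hc0 : 0 ≤ c := by positivity
  have hr1 : ∀ m : ℕ, rq μ 1 [] m ≤ ENNReal.ofReal (c * (m : ℝ) ^ (1 / 2 + ε)) := by
    intro m
    have h1 : rq μ 1 [] m = Ex (nu μ) m (SN (fun x => (x : ℝ≥0∞))) := by
      unfold rq
      simp only [pow_one]
      exact Ex_congr _ _ fun w _ => Rw_eq_SN w
    rw [h1]
    refine (Ex_SN_le hA hε0 hε hH (φ := fun x => (x : ℝ≥0∞)) (by simp)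
      (fun x y h => by simpa using h) m).trans ?_
    have h2 : ∑' d : ℕ, μ d * ((d : ℝ≥0∞) * d) = Mn μ 2 := by
      unfold Mn
      exact tsum_congr fun d => by ring
    rw [h2, e2, ← ENNReal.ofReal_mul (by positivity)]
    apply ENNReal.ofReal_le_ofReal
    exact le_of_eq (by rw [hc]; ring)
  set C := c + (12 * c ^ 3 + 6 * x2 * c + 6 * x3) with hC
  have hC0 : 0 ≤ 12 * c ^ 3 + 6 * x2 * c + 6 * x3 := by positivity
  refine ⟨C, by positivity, fun m => (hr1 m).trans ?_, fun m hm => ?_⟩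
  · apply ENNReal.ofReal_le_ofReal
    have : (0 : ℝ) ≤ (m : ℝ) ^ (1 / 2 + ε) := by positivity
    nlinarith
  have hm0 : (0 : ℝ) < m := by exact_mod_cast hm
  have hm1 : (1 : ℝ) ≤ m := by exact_mod_cast hm
  set X := (m : ℝ) ^ (1 / 2 + ε) with hX
  have hX0 : 0 ≤ X := by positivity
  have hX1 : 1 ≤ X := Real.one_le_rpow hm1 (by linarith)
  have hX3 : (m : ℝ) ^ (3 / 2 + 3 * ε) = X ^ 3 := by
    rw [hX, ← Real.rpow_natCast, ← Real.rpow_mul hm0.le]
    congr 1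
    push_cast
    ring
  have hmX : (m : ℝ) ≤ X ^ 2 := by
    rw [hX, ← Real.rpow_natCast, ← Real.rpow_mul hm0.le]
    calc (m : ℝ) = (m : ℝ) ^ (1 : ℝ) := (Real.rpow_one _).symm
      _ ≤ _ := Real.rpow_le_rpow_of_exponent_le hm1 (by push_cast; linarith)
  have hr2 : rq μ 2 [] m ≤ ENNReal.ofReal (2 * c ^ 2 * X ^ 2 + m * x2) := by
    refine (rq_two m).trans ?_
    calc 2 * rq μ 1 [] m * rq μ 1 [] m + m * Mn μ 2
        ≤ 2 * ENNReal.ofReal (c * X) * ENNReal.ofReal (c * X) + m * ENNReal.ofReal x2 := by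
          rw [e2]
          gcongr
          · exact hr1 m
          · exact hr1 m
      _ = _ := by
          rw [show (2 : ℝ≥0∞) = ENNReal.ofReal 2 by simp, ← ENNReal.ofReal_natCast,
            ← ENNReal.ofReal_mul (by positivity), ← ENNReal.ofReal_mul (by positivity),
            ← ENNReal.ofReal_mul (by positivity),
            ← ENNReal.ofReal_add (by positivity) (by positivity)]
          congr 1
          ring
  refine (rq_three m).trans ?_
  rw [hX3]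
  calc 6 * rq μ 2 [] m * rq μ 1 [] m + m * (6 * Mn μ 3)
      ≤ 6 * ENNReal.ofReal (2 * c ^ 2 * X ^ 2 + m * x2) * ENNReal.ofReal (c * X) +
        m * (6 * ENNReal.ofReal x3) := by
        rw [e3]
        gcongr
        exact hr1 m
    _ = ENNReal.ofReal (6 * (2 * c ^ 2 * X ^ 2 + m * x2) * (c * X) + m * (6 * x3)) := by
        rw [show (6 : ℝ≥0∞) = ENNReal.ofReal 6 by simp, ← ENNReal.ofReal_natCast,
          ← ENNReal.ofReal_mul (by positivity), ← ENNReal.ofReal_mul (by positivity),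
          ← ENNReal.ofReal_mul (by positivity), ← ENNReal.ofReal_mul (by positivity),
          ← ENNReal.ofReal_add (by positivity) (by positivity)]
    _ ≤ _ := by
        apply ENNReal.ofReal_le_ofReal
        have h1 : (m : ℝ) ≤ X ^ 3 := hmX.trans (pow_le_pow_right₀ hX1 (by norm_num))
        have h2 : m * x2 * (c * X) ≤ X ^ 2 * x2 * (c * X) := by gcongr
        have h3 : (m : ℝ) * (6 * x3) ≤ X ^ 3 * (6 * x3) := by gcongr
        have h4 : 0 ≤ c * X ^ 3 := by positivity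
        rw [hC]
        nlinarith

/-! ### moments of the walk -/

/-- the walk. -/
def Sw (w : List (ℕ × ℕ)) : ℤ := (w.map (fun a => (a.2 : ℤ) - a.1)).sum

lemma Sw_cons (a : ℕ × ℕ) (w : List (ℕ × ℕ)) : Sw (a :: w) = ((a.2 : ℤ) - a.1) + Sw w := by
  simp [Sw]

lemma Sw_append (w w' : List (ℕ × ℕ)) : Sw (w ++ w') = Sw w + Sw w' := by
  simp [Sw]

lemma Sw_eq (w : List (ℕ × ℕ)) : (Tw w : ℤ) = Rw w + Sw w := by
  have h := Tw_conserve w
  have h2 : Sw w = ((w.map Prod.snd).sum : ℕ) - ((w.map Prod.fst).sum : ℕ) := by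
    clear h
    induction w with
    | nil => simp [Sw]
    | cons a w ih => rw [Sw_cons, ih]; simp; ring
  omega

/-- fourth moment. -/
lemma fourth_moment {m B : ℝ} (hm : Mn μ 1 = ENNReal.ofReal m) (hm0 : 0 ≤ m)
    {x2 : ℝ} (h2 : Mn μ 2 = ENNReal.ofReal x2) (hx2 : 0 ≤ x2) (hB : x2 + m ^ 2 ≤ B) (n : ℕ) :
    ∀ z : ℤ, Ex (nu μ) n (fun w => ENNReal.ofReal (((z + Sw w : ℤ) : ℝ) ^ 4)) ≤
      ENNReal.ofReal ((z : ℝ) ^ 4 + 6 * n * m * (z : ℝ) ^ 2 + 6 * (n : ℝ) ^ 2 * B) := by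
  have hB0 : 0 ≤ B := le_trans (by positivity) hB
  induction n with
  | zero =>
    intro z
    simp [Ex, Sw]
  | succ n ih =>
    intro z
    simp only [Ex]
    have h1 : ∀ a : ℕ × ℕ, nu μ a * Ex (nu μ) n
        (fun w => ENNReal.ofReal (((z + Sw (a :: w) : ℤ) : ℝ) ^ 4)) ≤
        nu μ a * ENNReal.ofReal ((((z + a.2 - a.1 : ℤ) : ℝ)) ^ 4 +
          6 * n * m * (((z + a.2 - a.1 : ℤ) : ℝ)) ^ 2 + 6 * (n : ℝ) ^ 2 * B) := by
      intro a
      refine mul_le_mul' le_rfl ?_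
      have := ih (z + a.2 - a.1)
      refine le_trans (le_of_eq ?_) this
      refine Ex_congr _ _ fun w _ => ?_
      rw [Sw_cons]
      congr 3
      ring
    refine (ENNReal.tsum_le_tsum h1).trans ?_
    rw [tsum_nu μ _ (fun a => by positivity)]
    have h3 : ∀ d : ℕ, Av d (fun a : ℕ × ℕ => (((z + a.2 - a.1 : ℤ) : ℝ)) ^ 4 +
          6 * n * m * (((z + a.2 - a.1 : ℤ) : ℝ)) ^ 2 + 6 * (n : ℝ) ^ 2 * B) ≤
        ((z : ℝ) ^ 4 + 6 * n * m * (z : ℝ) ^ 2 + 6 * (n : ℝ) ^ 2 * B) +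
          ((6 * (z : ℝ) ^ 2 + 6 * n * m) * d + 3 * (d : ℝ) ^ 2) := by
      intro d
      rw [Av_add, Av_add, Av_mul_left, Av_const]
      have h4 := Ad_four d z
      have h5 := Ad_sq d z
      unfold Ad at h4 h5
      rw [h4, h5]
      have : (0 : ℝ) ≤ d := by positivity
      nlinarith
    calc ∑' d, μ d * ENNReal.ofReal (Av d (fun a : ℕ × ℕ => (((z + a.2 - a.1 : ℤ) : ℝ)) ^ 4 +
          6 * n * m * (((z + a.2 - a.1 : ℤ) : ℝ)) ^ 2 + 6 * (n : ℝ) ^ 2 * B))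
        ≤ ∑' d, μ d * (ENNReal.ofReal ((z : ℝ) ^ 4 + 6 * n * m * (z : ℝ) ^ 2 +
            6 * (n : ℝ) ^ 2 * B) + (ENNReal.ofReal (6 * (z : ℝ) ^ 2 + 6 * n * m) *
              (d : ℝ≥0∞) ^ 1 + 3 * (d : ℝ≥0∞) ^ 2)) := by
          refine ENNReal.tsum_le_tsum fun d => mul_le_mul' le_rfl ?_
          refine (ENNReal.ofReal_le_ofReal (h3 d)).trans (le_of_eq ?_)
          rw [ENNReal.ofReal_add (by positivity) (by positivity),
            ENNReal.ofReal_add (p := (6 * (z : ℝ) ^ 2 + 6 * n * m) * d) (by positivity)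
              (by positivity), ENNReal.ofReal_mul (by positivity),
            ENNReal.ofReal_mul (p := 3) (by positivity), ENNReal.ofReal_natCast,
            ENNReal.ofReal_pow (by positivity), ENNReal.ofReal_natCast, pow_one]
          simp
      _ = ENNReal.ofReal ((z : ℝ) ^ 4 + 6 * n * m * (z : ℝ) ^ 2 + 6 * (n : ℝ) ^ 2 * B) +
            (ENNReal.ofReal (6 * (z : ℝ) ^ 2 + 6 * n * m) * Mn μ 1 + 3 * Mn μ 2) := by
          simp only [mul_add]
          rw [ENNReal.tsum_add, ENNReal.tsum_add, ENNReal.tsum_mul_right, μ.tsum_coe, one_mul]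
          unfold Mn
          rw [← ENNReal.tsum_mul_left, ← ENNReal.tsum_mul_left]
          congr 2
          · exact tsum_congr fun d => by ring
          · exact tsum_congr fun d => by ring
      _ ≤ _ := by
          rw [hm, h2, show (3 : ℝ≥0∞) = ENNReal.ofReal 3 by simp,
            ← ENNReal.ofReal_mul (by positivity), ← ENNReal.ofReal_mul (by positivity),
            ← ENNReal.ofReal_add (by positivity) (by positivity),
            ← ENNReal.ofReal_add (by positivity) (by positivity)]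
          apply ENNReal.ofReal_le_ofReal
          push_cast
          have hn : (0 : ℝ) ≤ n := by positivity
          have h6 : 3 * x2 + 6 * n * m * m ≤ 6 * (2 * n + 1) * B := by
            have h7 : 3 * x2 ≤ 6 * B := by nlinarith [sq_nonneg m]
            have h8 : 6 * (n : ℝ) * m * m ≤ 6 * (2 * n) * B := by
              have : m * m ≤ 2 * B := by nlinarith
              nlinarith
            nlinarith
          nlinarith

end Pool.Agent.W_63dac5_h37
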