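import Pool.Agent.W_MP_63dac5_pr.LightLyap
import Pool.Agent.W_63dac5_h37.ExTools

/-!
# The potential inequality
-/

namespace Pool.Agent.W_63dac5_h37

open ENNReal Finset
open Pool.Agent.W_MP_63dac5_pr

/-- probability that a block of `n` points has at most `k` points with unused left stubs. -/
noncomputable def Fp (μ : PMF ℕ) (n k : ℕ) : ℝ≥0∞ :=
  Ex (nu μ) n (fun w => if Pw w ≤ k then 1 else 0)

/-- mean excess. -/
noncomputable def Gx (μ : PMF ℕ) (h y : ℕ) : ℝ≥0∞ :=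
  ∑' a : ℕ × ℕ, nu μ a * ((a.1 - y - h : ℕ) : ℝ≥0∞)

/-- the linear potential. -/
def Psi (h k : ℕ) (w : List (ℕ × ℕ)) : ℕ := Tw w + h * (k + 1 - Pw w)

lemma psi_step {h k : ℕ} {w : List (ℕ × ℕ)} (hk : Pw w ≤ k) (a : ℕ × ℕ) :
    (if Pw (w ++ [a]) ≤ k then Psi h k (w ++ [a]) else 0) + a.1 ≤
      Psi h k w + a.2 + (a.1 - Nw w - h) := by
  have h1 := Tw_snoc w a
  have h2 := Pw_snoc w a
  have h3 := Nw_le_Tw w
  unfold Psi
  by_cases hc : Nw w < a.1
  · rw [if_pos hc] at h2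
    rw [min_eq_right hc.le] at h1
    obtain ⟨j, hj⟩ : ∃ j, k = Pw w + j := ⟨k - Pw w, by omega⟩
    subst hj
    split_ifs with hif
    · have e1 : Pw w + j + 1 - Pw (w ++ [a]) = j := by omega
      have e2 : Pw w + j + 1 - Pw w = j + 1 := by omega
      rw [e1, e2, mul_add]
      omega
    · have e2 : Pw w + j + 1 - Pw w = j + 1 := by omega
      rw [e2, mul_add]
      have : 0 ≤ h * j := Nat.zero_le _
      omega
  · rw [if_neg hc, add_zero] at h2
    rw [min_eq_left (not_lt.1 hc)] at h1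
    rw [h2, if_pos hk]
    omega

/-! ### the quadratic potential -/

/-- quadratic potential on integers. -/
noncomputable def Ve (K : ℕ) (z : ℤ) : ℝ :=
  if z ≤ 0 then 2 * K * z else if z ≤ K then z * (2 * K - z) else (K : ℝ) ^ 2

/-- quadratic potential. -/
def Vn (K x : ℕ) : ℕ := if x ≤ K then x * (2 * K - x) else K ^ 2

lemma Ve_nat (K x : ℕ) : Ve K x = (Vn K x : ℕ) := by
  unfold Ve Vn
  by_cases h1 : x = 0
  · subst h1; simp
  · rw [if_neg (by omega)]
    by_cases h2 : x ≤ K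
    · rw [if_pos (by exact_mod_cast h2), if_pos h2]
      push_cast [Nat.cast_sub (show x ≤ 2 * K by omega)]
      ring
    · rw [if_neg (by exact_mod_cast h2), if_neg h2]
      push_cast
      ring

/-- increments of `Ve`. -/
noncomputable def dV (K : ℕ) (z : ℤ) : ℝ :=
  if z < 0 then 2 * K else if z < K then 2 * K - 2 * z - 1 else 0

lemma Ve_np (K : ℕ) {z : ℤ} (h : z ≤ 0) : Ve K z = 2 * K * z := by
  unfold Ve; rw [if_pos h]

lemma Ve_mid (K : ℕ) {z : ℤ} (h0 : 0 < z) (h : z ≤ K) : Ve K z = z * (2 * K - z) := by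
  unfold Ve; rw [if_neg (by omega), if_pos h]

lemma Ve_big (K : ℕ) {z : ℤ} (h0 : 0 < z) (h : (K : ℤ) < z) : Ve K z = (K : ℝ) ^ 2 := by
  unfold Ve; rw [if_neg (by omega), if_neg (by omega)]

lemma dV_neg (K : ℕ) {z : ℤ} (h : z < 0) : dV K z = 2 * K := by
  unfold dV; rw [if_pos h]

lemma dV_mid (K : ℕ) {z : ℤ} (h0 : 0 ≤ z) (h : z < K) : dV K z = 2 * K - 2 * z - 1 := by
  unfold dV; rw [if_neg (by omega), if_pos h]

lemma dV_big (K : ℕ) {z : ℤ} (h0 : 0 ≤ z) (h : (K : ℤ) ≤ z) : dV K z = 0 := by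
  unfold dV; rw [if_neg (by omega), if_neg (by omega)]

lemma Ve_succ (K : ℕ) (z : ℤ) : Ve K (z + 1) = Ve K z + dV K z := by
  rcases lt_trichotomy z 0 with h | h | h
  · rw [Ve_np K (z := z + 1) (by omega), Ve_np K h.le, dV_neg K h]; push_cast; ring
  · subst h
    by_cases hK : (0 : ℤ) < K
    · rw [Ve_mid K (z := 0 + 1) (by omega) (by omega), Ve_np K le_rfl, dV_mid K le_rfl hK]
      push_cast; ring
    · rw [Ve_big K (z := 0 + 1) (by omega) (by omega), Ve_np K le_rfl,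
        dV_big K le_rfl (not_lt.1 hK)]
      have : K = 0 := by omega
      subst this; simp
  · by_cases hK : z < K
    · rw [Ve_mid K (z := z + 1) (by omega) (by omega), Ve_mid K h hK.le, dV_mid K h.le hK]
      push_cast; ring
    · rw [dV_big K h.le (not_lt.1 hK), add_zero]
      by_cases hK2 : z = K
      · rw [Ve_big K (z := z + 1) (by omega) (by omega), Ve_mid K h hK2.le, hK2]
        push_cast; ring
      · rw [Ve_big K (z := z + 1) (by omega) (by omega), Ve_big K h (by omega)]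

lemma dV_nonneg (K : ℕ) (z : ℤ) : 0 ≤ dV K z := by
  unfold dV
  split_ifs with h1 h2
  · positivity
  · have : (z : ℝ) + 1 ≤ K := by exact_mod_cast h2
    have h3 : (0 : ℝ) ≤ z := by exact_mod_cast (not_lt.1 h1)
    linarith
  · exact le_rfl

lemma dV_le (K : ℕ) (z : ℤ) : dV K z ≤ 2 * K := by
  unfold dV
  split_ifs with h1 h2
  · exact le_rfl
  · have h3 : (0 : ℝ) ≤ z := by exact_mod_cast (not_lt.1 h1)
    linarith
  · positivity

lemma dV_anti (K : ℕ) (z : ℤ) : dV K z ≤ dV K (z - 1) := by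
  rcases lt_or_ge (z - 1) 0 with h | h
  · rw [dV_neg K h]
    exact dV_le K z
  · by_cases hK : z < K
    · rw [dV_mid K (by omega) hK, dV_mid K h (by omega)]; push_cast; linarith
    · rw [dV_big K (by omega) (not_lt.1 hK)]
      exact dV_nonneg K _

lemma dV_drop {K : ℕ} {z : ℤ} (h0 : 0 ≤ z) (h1 : z < K) : dV K z + 1 ≤ dV K (z - 1) := by
  rw [dV_mid K h0 h1]
  by_cases h : z - 1 < 0
  · have : z = 0 := by omega
    subst this
    rw [dV_neg K (by norm_num)]; push_cast; linarith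
  · rw [dV_mid K (by omega) (by omega)]; push_cast; linarith

lemma Ve_lip (K : ℕ) (z : ℤ) (e : ℕ) : Ve K (z + e) ≤ Ve K z + 2 * K * e := by
  induction e with
  | zero => simp
  | succ e ih =>
    have h1 := Ve_succ K (z + e)
    have h2 := dV_le K (z + e)
    rw [show z + ((e + 1 : ℕ) : ℤ) = z + e + 1 by push_cast; ring, h1]
    push_cast
    linarith

lemma Ve_mono (K : ℕ) {y z : ℤ} (h : y ≤ z) : Ve K y ≤ Ve K z := by
  obtain ⟨e, rfl⟩ : ∃ e : ℕ, z = y + e := ⟨(z - y).toNat, by omega⟩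
  clear h
  induction e with
  | zero => simp
  | succ e ih =>
    rw [show y + ((e + 1 : ℕ) : ℤ) = y + e + 1 by push_cast; ring, Ve_succ]
    have := dV_nonneg K (y + e)
    linarith

lemma Ve_zero (K : ℕ) : Ve K 0 = 0 := by simp [Ve]

lemma Ve_ge (K : ℕ) (z : ℤ) (l : ℕ) (h : 0 ≤ z + l) : 0 ≤ Ve K z + 2 * K * l := by
  have h1 := Ve_lip K z l
  have h2 := Ve_mono K h
  rw [Ve_zero] at h2
  linarith

lemma Ad_id (d : ℕ) (z : ℤ) : Ad d (fun y => (y : ℝ)) z = z := by
  induction d generalizing z with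
  | zero => rw [Ad_zero]
  | succ d ih => rw [Ad_succ, ih, ih]; push_cast; ring

lemma Av_fst (d : ℕ) : Av d (fun a => (a.1 : ℝ)) = d / 2 := by
  have h1 := Ad_id d 0
  unfold Ad at h1
  have h2 : Av d (fun a => ((a.1 : ℝ) + a.2)) = d := by
    rw [Av_congr (ψ := fun _ => (d : ℝ)), Av_const]
    intro a ha
    exact_mod_cast ha
  have h3 : Av d (fun a => ((((0 : ℤ) + a.2 - a.1 : ℤ)) : ℝ)) + 2 * Av d (fun a => (a.1 : ℝ)) =
      Av d (fun a => ((a.1 : ℝ) + a.2)) := by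
    rw [← Av_mul_left, ← Av_add]
    refine Av_congr fun a _ => ?_
    push_cast
    ring
  rw [h1, h2] at h3
  push_cast at h3
  linarith

lemma Ad_Ve (K : ℕ) {d : ℕ} (hd : 1 ≤ d) (x : ℕ) :
    Ad d (Ve K) x + (if x < K then 1 / 2 else 0) ≤ Ve K x := by
  set g : ℤ → ℝ := fun z => -Ve K z with hgd
  have hg : ∀ z, g z = -Ve K z := fun _ => rfl
  have h1 : ∀ z : ℤ, 2 * g z ≤ g (z + 1) + g (z - 1) := by
    intro z
    have h2 := Ve_succ K z
    have h3 := Ve_succ K (z - 1)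
    rw [sub_add_cancel] at h3
    have h4 := dV_anti K z
    rw [hg, hg, hg]
    linarith
  have h2 := Ad_convex' h1 hd x
  have h3 : Ad d g x = -Ad d (Ve K) x := by
    unfold Ad
    have := Av_mul_left d (-1) (fun a : ℕ × ℕ => Ve K ((x : ℤ) + a.2 - a.1))
    simp only [neg_mul, one_mul] at this
    exact this
  rw [h3, hg, hg] at h2
  have h4 := Ve_succ K x
  have h5 := Ve_succ K ((x : ℤ) - 1)
  rw [sub_add_cancel] at h5
  split_ifs with hx
  · have h6 := dV_drop (K := K) (z := x) (by positivity) (by exact_mod_cast hx)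
    linarith
  · have h6 := dV_anti K x
    linarith

lemma Vn_le (K x : ℕ) : Vn K x ≤ 2 * K * x := by
  unfold Vn
  split_ifs with h
  · calc x * (2 * K - x) ≤ x * (2 * K) := Nat.mul_le_mul_left _ (Nat.sub_le _ _)
      _ = 2 * K * x := by ring
  · push Not at h
    nlinarith

section Main

variable (μ : PMF ℕ)

/-- mean of the number of left stubs. -/
noncomputable def m1 : ℝ≥0∞ := ∑' a : ℕ × ℕ, nu μ a * (a.1 : ℝ≥0∞)

lemma m1_eq : m1 μ = ∑' a : ℕ × ℕ, nu μ a * (a.2 : ℝ≥0∞) := by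
  unfold m1
  rw [← tsum_nu_swap μ (fun a => (a.1 : ℝ≥0∞))]
  rfl

lemma two_m1 : 2 * m1 μ = ∑' d, μ d * (d : ℝ≥0∞) := by
  have h1 : 2 * m1 μ = ∑' a : ℕ × ℕ, nu μ a * ENNReal.ofReal ((a.1 : ℝ) + a.2) := by
    rw [two_mul]
    nth_rw 2 [m1_eq]
    unfold m1
    rw [← ENNReal.tsum_add]
    refine tsum_congr fun a => ?_
    rw [ENNReal.ofReal_add (by positivity) (by positivity), ENNReal.ofReal_natCast,
      ENNReal.ofReal_natCast, mul_add]
  rw [h1, tsum_nu μ _ (fun a => by positivity)]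
  refine tsum_congr fun d => ?_
  rw [Av_congr (ψ := fun _ => (d : ℝ)) (fun a ha => by exact_mod_cast ha), Av_const,
    ENNReal.ofReal_natCast]

variable {μ}

/-- one step of the linear potential. -/
lemma lin_step (hm : m1 μ ≠ ∞) {h k : ℕ} {w : List (ℕ × ℕ)} (hk : Pw w ≤ k) :
    ∑' a, nu μ a * ((if Pw (w ++ [a]) ≤ k then Psi h k (w ++ [a]) else 0 : ℕ) : ℝ≥0∞) ≤
      (Psi h k w : ℝ≥0∞) + Gx μ h (Nw w) := by
  have h1 : ∑' a, nu μ a * ((if Pw (w ++ [a]) ≤ k then Psi h k (w ++ [a]) else 0 : ℕ) : ℝ≥0∞) +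
      m1 μ ≤ (Psi h k w : ℝ≥0∞) + Gx μ h (Nw w) + m1 μ := by
    have e : (Psi h k w : ℝ≥0∞) = ∑' a, nu μ a * (Psi h k w : ℝ≥0∞) := by
      rw [ENNReal.tsum_mul_right, tsum_nu_one, one_mul]
    nth_rw 2 [m1_eq]
    rw [e]
    unfold m1 Gx
    rw [← ENNReal.tsum_add, ← ENNReal.tsum_add, ← ENNReal.tsum_add]
    refine ENNReal.tsum_le_tsum fun a => ?_
    rw [← mul_add, ← mul_add, ← mul_add]
    refine mul_le_mul' le_rfl ?_
    have := psi_step hk a (h := h)
    exact_mod_cast (by omega : (if Pw (w ++ [a]) ≤ k then Psi h k (w ++ [a]) else 0) + a.1 ≤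
      Psi h k w + (a.1 - Nw w - h) + a.2)
  exact (ENNReal.add_le_add_iff_right hm).1 h1

/-- one step of the quadratic potential. -/
lemma quad_step (h0 : μ 0 = 0) (hm : m1 μ ≠ ∞) {K h k : ℕ} {w : List (ℕ × ℕ)} (hk : Pw w ≤ k) :
    ∑' a, nu μ a * ((if Pw (w ++ [a]) ≤ k then Vn K (Psi h k (w ++ [a])) else 0 : ℕ) : ℝ≥0∞) +
      (if Psi h k w < K then 1 / 2 else 0) ≤
      (Vn K (Psi h k w) : ℝ≥0∞) + 2 * K * Gx μ h (Nw w) := by
  set x := Psi h k w with hx
  set W : ℕ × ℕ → ℝ := fun a => Ve K ((x : ℤ) + a.2 - a.1) + 2 * K * a.1 with hW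
  have hW0 : ∀ a, 0 ≤ W a := fun a => Ve_ge K _ a.1 (by omega)
  -- pointwise
  have hpt : ∀ a : ℕ × ℕ,
      ((if Pw (w ++ [a]) ≤ k then Vn K (Psi h k (w ++ [a])) else 0 : ℕ) : ℝ≥0∞) +
        2 * K * (a.1 : ℝ≥0∞) ≤ ENNReal.ofReal (W a) + 2 * K * ((a.1 - Nw w - h : ℕ) : ℝ≥0∞) := by
    intro a
    have hs := psi_step hk a (h := h)
    rw [← hx] at hs
    set y := (if Pw (w ++ [a]) ≤ k then Psi h k (w ++ [a]) else 0) with hy
    have hVy : (if Pw (w ++ [a]) ≤ k then Vn K (Psi h k (w ++ [a])) else 0) = Vn K y := by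
      rw [hy]
      split_ifs
      · rfl
      · simp [Vn]
    rw [hVy]
    set e := a.1 - Nw w - h with he
    have h1 : Ve K (y : ℤ) ≤ Ve K ((x : ℤ) + a.2 - a.1) + 2 * K * e := by
      refine le_trans (Ve_mono K (z := (x : ℤ) + a.2 - a.1 + e) (by omega)) (Ve_lip K _ e)
    rw [Ve_nat] at h1
    have h2 : ((Vn K y : ℕ) : ℝ) + 2 * K * a.1 ≤ W a + 2 * K * e := by
      simp only [hW]; linarith
    have h3 := ENNReal.ofReal_le_ofReal h2
    rw [ENNReal.ofReal_add (by positivity) (by positivity), ENNReal.ofReal_add (hW0 a)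
      (by positivity), ENNReal.ofReal_natCast, ENNReal.ofReal_mul (by positivity),
      ENNReal.ofReal_mul (by positivity), ENNReal.ofReal_mul (by positivity),
      ENNReal.ofReal_natCast, ENNReal.ofReal_natCast, ENNReal.ofReal_natCast] at h3
    simpa using h3
  -- sum of `W`
  have hsum : ∑' a, nu μ a * ENNReal.ofReal (W a) + (if x < K then 1 / 2 else 0) ≤
      (Vn K x : ℝ≥0∞) + 2 * K * m1 μ := by
    rw [tsum_nu μ W hW0]
    have e1 : (if x < K then 1 / 2 else 0 : ℝ≥0∞) =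
        ∑' d, μ d * (if x < K then 1 / 2 else 0 : ℝ≥0∞) := by
      rw [ENNReal.tsum_mul_right, μ.tsum_coe, one_mul]
    have e2 : (Vn K x : ℝ≥0∞) + 2 * K * m1 μ = ∑' d, μ d * ((Vn K x : ℝ≥0∞) + K * d) := by
      simp only [mul_add]
      rw [ENNReal.tsum_add, ENNReal.tsum_mul_right, μ.tsum_coe, one_mul]
      congr 1
      rw [mul_comm 2 (K : ℝ≥0∞), mul_assoc, two_m1, ← ENNReal.tsum_mul_left]
      exact tsum_congr fun d => by ring
    rw [e1, e2, ← ENNReal.tsum_add]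
    refine ENNReal.tsum_le_tsum fun d => ?_
    rcases Nat.eq_zero_or_pos d with rfl | hd
    · simp [h0]
    rw [← mul_add]
    refine mul_le_mul' le_rfl ?_
    have hAv : Av d W = Ad d (Ve K) x + K * d := by
      have h1 : Av d W = Av d (fun a => Ve K ((x : ℤ) + a.2 - a.1)) +
          Av d (fun a => 2 * K * (a.1 : ℝ)) := by
        rw [← Av_add]
      rw [h1, Av_mul_left, Av_fst]
      unfold Ad
      ring
    have hAv0 : 0 ≤ Av d W := Av_nonneg fun a _ => hW0 a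
    have h1 := Ad_Ve K hd x
    have h2 : Av d W + (if x < K then 1 / 2 else 0) ≤ (Vn K x : ℕ) + K * d := by
      rw [hAv, ← Ve_nat]; linarith
    have h3 := ENNReal.ofReal_le_ofReal h2
    rw [ENNReal.ofReal_add hAv0 (by split_ifs <;> norm_num),
      ENNReal.ofReal_add (by positivity) (by positivity), ENNReal.ofReal_natCast,
      ENNReal.ofReal_mul (by positivity), ENNReal.ofReal_natCast, ENNReal.ofReal_natCast] at h3
    refine le_trans (add_le_add le_rfl ?_) h3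
    split_ifs
    · rw [ENNReal.ofReal_div_of_pos (by norm_num)]; simp
    · simp
  -- conclusion
  have h1 : ∑' a, nu μ a * ((if Pw (w ++ [a]) ≤ k then Vn K (Psi h k (w ++ [a])) else 0 : ℕ)
      : ℝ≥0∞) + (if x < K then 1 / 2 else 0) + 2 * K * m1 μ ≤
      (Vn K x : ℝ≥0∞) + 2 * K * Gx μ h (Nw w) + 2 * K * m1 μ := by
    calc _ = (∑' a, nu μ a * (((if Pw (w ++ [a]) ≤ k then Vn K (Psi h k (w ++ [a])) else 0 : ℕ)
          : ℝ≥0∞) + 2 * K * (a.1 : ℝ≥0∞))) + (if x < K then 1 / 2 else 0) := by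
          simp only [mul_add]
          rw [ENNReal.tsum_add]
          unfold m1
          rw [← ENNReal.tsum_mul_left, add_right_comm]
          congr 2
          exact tsum_congr fun a => by ring
      _ ≤ (∑' a, nu μ a * (ENNReal.ofReal (W a) +
          2 * K * ((a.1 - Nw w - h : ℕ) : ℝ≥0∞))) + (if x < K then 1 / 2 else 0) := by
          refine add_le_add (ENNReal.tsum_le_tsum fun a => mul_le_mul' le_rfl (hpt a)) le_rfl
      _ = (∑' a, nu μ a * ENNReal.ofReal (W a) + (if x < K then 1 / 2 else 0)) +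
          2 * K * Gx μ h (Nw w) := by
          simp only [mul_add]
          rw [ENNReal.tsum_add]
          unfold Gx
          rw [← ENNReal.tsum_mul_left, add_right_comm]
          congr 2
          funext a
          ring
      _ ≤ ((Vn K x : ℝ≥0∞) + 2 * K * m1 μ) + 2 * K * Gx μ h (Nw w) := by gcongr
      _ = _ := by ring
  refine (ENNReal.add_le_add_iff_right ?_).1 h1
  exact ENNReal.mul_ne_top (ENNReal.mul_ne_top (by simp) (ENNReal.natCast_ne_top K)) hm

/-- the forcing term. -/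
noncomputable def gk (μ : PMF ℕ) (h k n : ℕ) : ℝ≥0∞ :=
  Ex (nu μ) n (fun w => if Pw w ≤ k then Gx μ h (Nw w) else 0)

/-- total potential. -/
noncomputable def Phi (μ : PMF ℕ) (h k s : ℕ) : ℝ≥0∞ :=
  (h * (k + 1) : ℕ) + ∑ n ∈ range s, gk μ h k n

lemma Phi_mono {h k s t : ℕ} (hst : s ≤ t) : Phi μ h k s ≤ Phi μ h k t := by
  unfold Phi
  gcongr

lemma lin_total (hm : m1 μ ≠ ∞) (h k n : ℕ) :
    Ex (nu μ) n (fun w => ((if Pw w ≤ k then Psi h k w else 0 : ℕ) : ℝ≥0∞)) ≤ Phi μ h k n := by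
  induction n with
  | zero =>
    simp only [Ex, Phi, range_zero, sum_empty, add_zero]
    have h1 : Pw [] = 0 := rfl
    rw [h1, if_pos (Nat.zero_le _)]
    have h2 : Psi h k [] = h * (k + 1) := by
      unfold Psi
      have : Tw [] = 0 := rfl
      rw [this, h1]; simp
    rw [h2]
  | succ n ih =>
    have h1 : Phi μ h k (n + 1) = Phi μ h k n + gk μ h k n := by
      unfold Phi
      rw [Finset.sum_range_succ, add_assoc]
    rw [h1, Ex_snoc]
    refine le_trans ?_ (add_le_add ih le_rfl)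
    unfold gk
    rw [← Ex_add]
    refine Ex_mono _ _ fun w _ => ?_
    by_cases hk : Pw w ≤ k
    · rw [if_pos hk, if_pos hk]
      exact lin_step hm hk
    · have : ∀ a, ¬ Pw (w ++ [a]) ≤ k := fun a h' => hk (le_trans (Pw_left_le w [a]) h')
      simp [this]

lemma quad_total (h0 : μ 0 = 0) (hm : m1 μ ≠ ∞) (K h k n : ℕ) :
    Ex (nu μ) n (fun w => ((if Pw w ≤ k then Vn K (Psi h k w) else 0 : ℕ) : ℝ≥0∞)) +
      (∑ j ∈ range n, Ex (nu μ) j (fun w => if Pw w ≤ k ∧ Psi h k w < K then 1 / 2 else 0)) ≤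
      2 * K * Phi μ h k n := by
  induction n with
  | zero =>
    simp only [Ex, Phi, range_zero, sum_empty, add_zero]
    have h1 : Pw [] = 0 := rfl
    rw [h1, if_pos (Nat.zero_le _)]
    have h2 : Psi h k [] = h * (k + 1) := by
      unfold Psi
      have : Tw [] = 0 := rfl
      rw [this, h1]; simp
    rw [h2]
    exact_mod_cast Vn_le K (h * (k + 1))
  | succ n ih =>
    have h1 : Phi μ h k (n + 1) = Phi μ h k n + gk μ h k n := by
      unfold Phi
      rw [Finset.sum_range_succ, add_assoc]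
    rw [h1, Finset.sum_range_succ, mul_add, Ex_snoc]
    have key : Ex (nu μ) n (fun w => ∑' a, nu μ a *
        ((if Pw (w ++ [a]) ≤ k then Vn K (Psi h k (w ++ [a])) else 0 : ℕ) : ℝ≥0∞)) +
        Ex (nu μ) n (fun w => if Pw w ≤ k ∧ Psi h k w < K then 1 / 2 else 0) ≤
        Ex (nu μ) n (fun w => ((if Pw w ≤ k then Vn K (Psi h k w) else 0 : ℕ) : ℝ≥0∞)) +
          2 * K * gk μ h k n := by
      unfold gk
      rw [← Ex_mul_left, ← Ex_add, ← Ex_add]
      refine Ex_mono _ _ fun w _ => ?_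
      by_cases hk : Pw w ≤ k
      · simp only [hk, true_and, if_true]
        exact quad_step h0 hm hk
      · have : ∀ a, ¬ Pw (w ++ [a]) ≤ k := fun a h' => hk (le_trans (Pw_left_le w [a]) h')
        simp [this, hk]
    set Sg := ∑ j ∈ range n, Ex (nu μ) j (fun w => if Pw w ≤ k ∧ Psi h k w < K then 1 / 2 else 0)
      with hSg
    calc _ = (Ex (nu μ) n (fun w => ∑' a, nu μ a *
        ((if Pw (w ++ [a]) ≤ k then Vn K (Psi h k (w ++ [a])) else 0 : ℕ) : ℝ≥0∞)) +
        Ex (nu μ) n (fun w => if Pw w ≤ k ∧ Psi h k w < K then 1 / 2 else 0)) + Sg := by ring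
      _ ≤ (Ex (nu μ) n (fun w => ((if Pw w ≤ k then Vn K (Psi h k w) else 0 : ℕ) : ℝ≥0∞)) +
          2 * K * gk μ h k n) + Sg := add_le_add key le_rfl
      _ = (Ex (nu μ) n (fun w => ((if Pw w ≤ k then Vn K (Psi h k w) else 0 : ℕ) : ℝ≥0∞)) +
          Sg) + 2 * K * gk μ h k n := by ring
      _ ≤ _ := add_le_add ih le_rfl

lemma Fp_le_one (n k : ℕ) : Fp μ n k ≤ 1 := by
  unfold Fp
  refine (Ex_mono _ _ (g := fun _ => 1) fun w _ => ?_).trans (Ex_one _ (tsum_nu_one μ) n).le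
  split_ifs <;> simp

lemma Fp_anti {m n : ℕ} (h : m ≤ n) (k : ℕ) : Fp μ n k ≤ Fp μ m k := by
  obtain ⟨j, rfl⟩ := Nat.exists_eq_add_of_le h
  unfold Fp
  rw [← Ex_take (tsum_nu_one μ) m j (fun w => if Pw w ≤ k then 1 else 0)]
  refine Ex_mono _ _ fun w _ => ?_
  have h1 : Pw (w.take m) ≤ Pw w := by
    have := Pw_left_le (w.take m) (w.drop m)
    rwa [List.take_append_drop] at this
  split_ifs with h2 h3
  · exact le_rfl
  · exact absurd (h1.trans h2) h3
  · exact zero_le_one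
  · exact le_rfl

/-- The main inequality. -/
theorem main_ineq (h0 : μ 0 = 0) (hm : m1 μ ≠ ∞) (h k s : ℕ) (hs : 1 ≤ s) :
    ((Nat.sqrt s + 1 : ℕ) : ℝ≥0∞) * Fp μ s k ≤ 17 * Phi μ h k s := by
  set K := Nat.sqrt s + 1 with hK
  have hK1 : s ≤ K * K := by
    have := Nat.lt_succ_sqrt s
    rw [hK]; exact this.le
  have hK2 : K * K ≤ 4 * s := by
    have h1 := Nat.sqrt_le s
    have h2 : 1 ≤ Nat.sqrt s := by rw [Nat.le_sqrt]; omega
    nlinarith
  set Φ := Phi μ h k s with hΦ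
  -- the two parts
  set B : ℕ → ℝ≥0∞ := fun j =>
    Ex (nu μ) j (fun w => if Pw w ≤ k ∧ Psi h k w < K then 1 / 2 else 0) with hB
  have h1 : ∑ j ∈ range s, B j ≤ 2 * K * Φ :=
    le_trans le_add_self (quad_total h0 hm K h k s)
  have h2 : ∀ j ∈ range s, (K : ℝ≥0∞) * Fp μ j k ≤ 2 * K * B j + Φ := by
    intro j hj
    have h3 := (lin_total hm h k j).trans (Phi_mono (μ := μ) (h := h) (k := k)
      (Finset.mem_range.1 hj).le)
    refine le_trans ?_ (add_le_add le_rfl h3)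
    unfold Fp
    rw [hB]
    simp only
    rw [← Ex_mul_left, ← Ex_mul_left, ← Ex_add]
    refine Ex_mono _ _ fun w _ => ?_
    by_cases hk : Pw w ≤ k
    · simp only [hk, true_and, if_true, mul_one]
      by_cases hc : Psi h k w < K
      · rw [if_pos hc]
        refine le_trans (le_of_eq ?_) (le_self_add)
        rw [mul_assoc, mul_comm (K : ℝ≥0∞), ← mul_assoc, ENNReal.mul_div_cancel (by simp) (by simp),
          one_mul]
      · rw [if_neg hc, mul_zero, zero_add]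
        exact_mod_cast not_lt.1 hc
    · simp [hk]
  have h3 : (s : ℝ≥0∞) * ((K : ℝ≥0∞) * Fp μ s k) ≤ 2 * K * (2 * K * Φ) + s * Φ := by
    calc (s : ℝ≥0∞) * ((K : ℝ≥0∞) * Fp μ s k)
        = ∑ j ∈ range s, (K : ℝ≥0∞) * Fp μ s k := by simp
      _ ≤ ∑ j ∈ range s, (2 * K * B j + Φ) := by
          refine Finset.sum_le_sum fun j hj => le_trans ?_ (h2 j hj)
          gcongr
          exact Fp_anti (Finset.mem_range.1 hj).le k
      _ = 2 * K * ∑ j ∈ range s, B j + s * Φ := by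
          rw [Finset.sum_add_distrib, ← Finset.mul_sum]; simp
      _ ≤ _ := by gcongr
  have h4 : (2 * K * (2 * K * Φ) + s * Φ : ℝ≥0∞) ≤ s * (17 * Φ) := by
    have h5 : (2 * K * (2 * K) : ℝ≥0∞) ≤ 16 * s := by
      have : 2 * K * (2 * K) ≤ 16 * s := by nlinarith
      exact_mod_cast this
    calc (2 * K * (2 * K * Φ) + s * Φ : ℝ≥0∞) = (2 * K * (2 * K)) * Φ + s * Φ := by ring
      _ ≤ 16 * s * Φ + s * Φ := by gcongr
      _ = _ := by ring
  have h5 := h3.trans h4
  have hs0 : (s : ℝ≥0∞) ≠ 0 := by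
    have : s ≠ 0 := by omega
    exact_mod_cast this
  exact (ENNReal.mul_le_mul_iff_right hs0 (ENNReal.natCast_ne_top s)).1 h5

end Main

end Pool.Agent.W_63dac5_h37
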