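import Pool.Agent.W_63dac5_h37.Kernel2

/-!
# Survival of the height: one block
-/

namespace Pool.Agent.W_63dac5_h37

open ENNReal Finset
open Pool.Agent.W_MP_63dac5_pr

/-- the largest entry. -/
def bmx (L : List ℕ) : ℕ := L.foldr max 0

lemma le_bmx {L : List ℕ} {x : ℕ} (h : x ∈ L) : x ≤ bmx L := by
  induction L with
  | nil => simp at h
  | cons a t ih =>
    have e : bmx (a :: t) = max a (bmx t) := rfl
    rw [e]
    rcases List.mem_cons.1 h with rfl | h
    · exact le_max_left _ _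
    · exact (ih h).trans (le_max_right _ _)

lemma phi_bmx_le {φ : ℕ → ℝ≥0∞} (h0 : φ 0 = 0) (L : List ℕ) : φ (bmx L) ≤ (L.map φ).sum := by
  induction L with
  | nil => simp [bmx, h0]
  | cons a t ih =>
    have e : bmx (a :: t) = max a (bmx t) := rfl
    rw [e, List.map_cons, List.sum_cons]
    rcases le_total a (bmx t) with h | h
    · rw [max_eq_right h]
      exact ih.trans le_add_self
    · rw [max_eq_left h]
      exact le_self_add

/-- the size of a block. -/
def Qn (F : ℕ) (B : List (ℕ × ℕ)) : ℕ :=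
  (Tw B + Rw B + F) + 16 * bmx (need [] B ++ run [] B) ^ 2

lemma lt_Qn_of_not {F z : ℕ} {B : List (ℕ × ℕ)} (h : ¬ AlwB F z B) : z + Tw B < Qn F B := by
  by_contra hcon
  apply h
  unfold Qn at hcon
  refine ⟨by omega, fun x hx => ?_⟩
  have h1 := Nat.pow_le_pow_left (le_bmx hx) 2
  omega

variable {μ : PMF ℕ}

/-- the loss. -/
noncomputable def los (μ : PMF ℕ) (F m z : ℕ) : ℝ≥0∞ :=
  Ex (nu μ) m (fun B => if z < Qn F B then (Qn F B : ℝ≥0∞) else 0)

lemma block_step {m : ℕ} (hfin : rq μ 1 [] m ≠ ∞) (F z : ℕ) :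
    (z : ℝ≥0∞) ≤ ∑' y, kb (nu μ) F m z y * (y : ℝ≥0∞) + los μ F m z := by
  classical
  rw [tsum_kb_mul]
  have h1 : Ex (nu μ) m (fun B => (Tw B : ℝ≥0∞)) = rq μ 1 [] m := by
    rw [← rq_mir]
    simp only [pow_one]
  have h2 : Ex (nu μ) m (fun B => (Rw B : ℝ≥0∞)) = rq μ 1 [] m := by
    unfold rq
    simp only [pow_one]
    rfl
  have h3 : Ex (nu μ) m (fun B => (z : ℝ≥0∞) + Tw B) ≤
      Ex (nu μ) m (fun B => ((if AlwB F z B then ((z - Rw B + Tw B : ℕ) : ℝ≥0∞) else 0) +
        (if z < Qn F B then (Qn F B : ℝ≥0∞) else 0)) + Rw B) := by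
    refine Ex_mono _ _ fun B _ => ?_
    by_cases h : AlwB F z B
    · rw [if_pos h]
      have h4 := h.1
      have h5 : z + Tw B = (z - Rw B + Tw B) + Rw B := by omega
      have h6 : (z : ℝ≥0∞) + Tw B = ((z - Rw B + Tw B : ℕ) : ℝ≥0∞) + Rw B := by
        exact_mod_cast h5
      rw [h6]
      gcongr
      exact le_self_add
    · have h4 := lt_Qn_of_not h
      rw [if_neg h, if_pos (by omega), zero_add]
      refine le_trans ?_ le_self_add
      exact_mod_cast h4.le
  rw [Ex_add, Ex_add, Ex_add, Ex_const (tsum_nu_one μ), h1, h2] at h3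
  exact (ENNReal.add_le_add_iff_right hfin).1 h3

/-- mean height after a list of blocks. -/
noncomputable def mh (μ : PMF ℕ) (F : ℕ) (ms : List ℕ) (z : ℕ) : ℝ≥0∞ :=
  ∑' y, kp (nu μ) F ms z y * (y : ℝ≥0∞)

/-- loss in the next block. -/
noncomputable def ls (μ : PMF ℕ) (F : ℕ) (ms : List ℕ) (m z : ℕ) : ℝ≥0∞ :=
  ∑' y, kp (nu μ) F ms z y * los μ F m y

lemma mh_nil (F z : ℕ) : mh μ F [] z = z := by
  unfold mh
  simp only [kp, ite_mul, one_mul, zero_mul]
  simp_rw [eq_comm (a := z)]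
  rw [tsum_ite_eq]

lemma ls_nil (F m z : ℕ) : ls μ F [] m z = los μ F m z := by
  unfold ls
  simp only [kp, ite_mul, one_mul, zero_mul]
  simp_rw [eq_comm (a := z)]
  rw [tsum_ite_eq]

lemma mh_step (hfin : ∀ m, rq μ 1 [] m ≠ ∞) (F : ℕ) (ms : List ℕ) (m z : ℕ) :
    mh μ F ms z ≤ mh μ F (ms ++ [m]) z + ls μ F ms m z := by
  unfold mh ls
  calc ∑' y, kp (nu μ) F ms z y * (y : ℝ≥0∞)
      ≤ ∑' y, kp (nu μ) F ms z y * (∑' x, kb (nu μ) F m y x * (x : ℝ≥0∞) + los μ F m y) := by
        refine ENNReal.tsum_le_tsum fun y => ?_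
        gcongr
        exact block_step (hfin m) F y
    _ = ∑' y, ((∑' x, kp (nu μ) F ms z y * (kb (nu μ) F m y x * (x : ℝ≥0∞))) +
          kp (nu μ) F ms z y * los μ F m y) := by
        refine tsum_congr fun y => ?_
        rw [mul_add, ENNReal.tsum_mul_left]
    _ = ∑' y, ∑' x, kp (nu μ) F ms z y * (kb (nu μ) F m y x * (x : ℝ≥0∞)) +
          ∑' y, kp (nu μ) F ms z y * los μ F m y := ENNReal.tsum_add
    _ = _ := by
        congr 1
        rw [ENNReal.tsum_comm]
        refine tsum_congr fun x => ?_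
        rw [kp_append, ← ENNReal.tsum_mul_right]
        refine tsum_congr fun y => ?_
        rw [kp_single]
        ring

lemma ls_eq (F : ℕ) (ms : List ℕ) (m z : ℕ) :
    ls μ F ms m z = Ex (nu μ) m (fun B => (Qn F B : ℝ≥0∞) *
      ∑' y, kp (nu μ) F ms z y * (if y < Qn F B then 1 else 0)) := by
  unfold ls los
  simp_rw [← Ex_mul_left, ← ENNReal.tsum_mul_left]
  rw [Ex_tsum]
  refine tsum_congr fun y => Ex_congr _ _ fun B _ => ?_
  by_cases h : y < Qn F B
  · simp only [h, if_true]; ring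
  · simp [h]

/-! ### the probability of a small height -/

section

variable {α : Type*} {ν : α → ℝ≥0∞}

lemma Ex_comm (m n : ℕ) (f : List α → List α → ℝ≥0∞) :
    Ex ν m (fun u => Ex ν n (fun v => f u v)) = Ex ν n (fun v => Ex ν m (fun u => f u v)) := by
  induction m generalizing f with
  | zero => rfl
  | succ m ih =>
    simp only [Ex, ih]
    rw [Ex_tsum]
    exact tsum_congr fun a => (Ex_mul_left _ _ _ _).symm

end

open Classical in
lemma small_le {F d k : ℕ} (hd : 1 ≤ d) (hF : 16 * d ^ 2 ≤ F) (ms : List ℕ) (q : ℕ) :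
    ∑' y, kp (nu μ) F ms (k * d) y * (if y < q then 1 else 0) ≤
      Ex (nu μ) ms.sum (fun w => if okrun (List.replicate k d) w ∧
        (run (List.replicate k d) w).sum < q then 1 else 0) := by
  rw [tsum_kp_mul]
  refine Ex_mono _ _ fun w hw => ?_
  by_cases h : GPB F ms (k * d) w
  · rw [if_pos h]
    have hs : (List.replicate k d).sum = k * d := by simp
    obtain ⟨h1, h2, h3⟩ := run_GPB hd hF (u := List.replicate k d) (inv_start d k) hw
      (by rw [hs]; exact h)
    rw [hs] at h3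
    by_cases h' : hgtB ms (k * d) w < q
    · rw [if_pos h', if_pos ⟨h1, by rw [h3]; exact h'⟩]
    · rw [if_neg h']; exact bot_le
  · rw [if_neg h]; exact bot_le

open Classical in
lemma small_one (u : List ℕ) (t q : ℕ) :
    Ex (nu μ) t (fun w => if okrun u w ∧ (run u w).sum < q then 1 else 0) ≤ Fp μ t u.sum := by
  unfold Fp
  refine Ex_mono _ _ fun w _ => ?_
  by_cases h : okrun u w ∧ (run u w).sum < q
  · rw [if_pos h, if_pos ((Pw_le_Rw w).trans (Rw_le_of_okrun h.1).1)]
  · rw [if_neg h]; exact bot_le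

open Classical in
lemma small_three (h0 : μ 0 = 0) (u : List ℕ) {n2 : ℕ} (hn2 : 1 ≤ n2) (n1 n3 q : ℕ) :
    Ex (nu μ) (n1 + (n2 + n3)) (fun w => if okrun u w ∧ (run u w).sum < q then 1 else 0) ≤
      Fp μ n1 u.sum * (q * (Fp μ n3 (q - 1) * ENNReal.ofReal (1 / Real.sqrt n2))) := by
  rw [Ex_append]
  have key : ∀ w1 w2 w3 : List (ℕ × ℕ),
      (if okrun u (w1 ++ (w2 ++ w3)) ∧ (run u (w1 ++ (w2 ++ w3))).sum < q then (1 : ℝ≥0∞) else 0) ≤
      (if Pw w1 ≤ u.sum then 1 else 0) * ∑ s ∈ range q, ((if Nw w3 ≤ q - 1 then 1 else 0) *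
        (if Sw w2 = (s : ℤ) - u.sum - Sw w1 - Sw w3 then 1 else 0)) := by
    intro w1 w2 w3
    by_cases h : okrun u (w1 ++ (w2 ++ w3)) ∧ (run u (w1 ++ (w2 ++ w3))).sum < q
    · obtain ⟨h1, h2⟩ := h
      obtain ⟨h3, h4⟩ := Rw_le_of_okrun h1
      have h5 : Pw w1 ≤ u.sum := (Pw_left_le w1 (w2 ++ w3)).trans ((Pw_le_Rw _).trans h3)
      have h6 : Nw w3 ≤ q - 1 := by
        have h7 := Nw_right_le (w1 ++ w2) w3
        rw [List.append_assoc] at h7
        have h8 := Nw_le_Tw (w1 ++ (w2 ++ w3))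
        have h9 := Tw_le_run u (w1 ++ (w2 ++ w3))
        omega
      have h10 : Sw (w1 ++ (w2 ++ w3)) = Sw w1 + (Sw w2 + Sw w3) := by
        rw [Sw_append, Sw_append]
      have h11 := Sw_eq (w1 ++ (w2 ++ w3))
      rw [if_pos ⟨h1, h2⟩, if_pos h5, one_mul]
      refine le_trans ?_ (Finset.single_le_sum (f := fun s : ℕ =>
        ((if Nw w3 ≤ q - 1 then (1 : ℝ≥0∞) else 0) *
        (if Sw w2 = (s : ℤ) - u.sum - Sw w1 - Sw w3 then 1 else 0))) (fun _ _ => bot_le)
        (Finset.mem_range.2 h2))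
      rw [if_pos h6, if_pos (by omega), one_mul]
    · rw [if_neg h]; exact bot_le
  calc Ex (nu μ) n1 (fun w1 => Ex (nu μ) (n2 + n3) (fun v =>
        if okrun u (w1 ++ v) ∧ (run u (w1 ++ v)).sum < q then 1 else 0))
      ≤ Ex (nu μ) n1 (fun w1 => (if Pw w1 ≤ u.sum then 1 else 0) *
          (q * (Fp μ n3 (q - 1) * ENNReal.ofReal (1 / Real.sqrt n2)))) := by
        refine Ex_mono _ _ fun w1 _ => ?_
        rw [Ex_append]
        calc Ex (nu μ) n2 (fun w2 => Ex (nu μ) n3 (fun w3 =>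
              if okrun u (w1 ++ (w2 ++ w3)) ∧ (run u (w1 ++ (w2 ++ w3))).sum < q then 1 else 0))
            ≤ Ex (nu μ) n2 (fun w2 => Ex (nu μ) n3 (fun w3 =>
                (if Pw w1 ≤ u.sum then 1 else 0) * ∑ s ∈ range q,
                  ((if Nw w3 ≤ q - 1 then 1 else 0) *
                  (if Sw w2 = (s : ℤ) - u.sum - Sw w1 - Sw w3 then 1 else 0)))) :=
              Ex_mono _ _ fun w2 _ => Ex_mono _ _ fun w3 _ => key w1 w2 w3
          _ = (if Pw w1 ≤ u.sum then 1 else 0) * ∑ s ∈ range q, Ex (nu μ) n3 (fun w3 =>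
                (if Nw w3 ≤ q - 1 then 1 else 0) * Ex (nu μ) n2 (fun w2 =>
                  if Sw w2 = (s : ℤ) - u.sum - Sw w1 - Sw w3 then 1 else 0)) := by
              simp only [Ex_mul_left, Ex_sum]
              congr 1
              refine Finset.sum_congr rfl fun s _ => ?_
              rw [Ex_comm]
              refine Ex_congr _ _ fun w3 _ => ?_
              rw [Ex_mul_left]
          _ ≤ (if Pw w1 ≤ u.sum then 1 else 0) * ∑ s ∈ range q, Ex (nu μ) n3 (fun w3 =>
                (if Nw w3 ≤ q - 1 then 1 else 0) * ENNReal.ofReal (1 / Real.sqrt n2)) := by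
              gcongr with s hs
              refine Ex_mono _ _ fun w3 _ => ?_
              gcongr
              exact conc μ h0 hn2 _
          _ = _ := by
              congr 1
              simp only [Ex_mul_right]
              rw [Finset.sum_const, Finset.card_range, nsmul_eq_mul]
              congr 2
              rw [Fp_eq_N]
    _ = _ := by
        rw [Ex_mul_right]
        rfl

end Pool.Agent.W_63dac5_h37
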