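import Pool.Agent.W_63dac5_h37.Surv1

/-!
# Survival of the height: bounds
-/

namespace Pool.Agent.W_63dac5_h37

open ENNReal Finset
open Pool.Agent.W_MP_63dac5_pr

variable {μ : PMF ℕ}

lemma Mo_mono {b a : ℝ} (hb : 0 < b) (hab : b ≤ a) : Mo μ b ≤ Mo μ a := by
  unfold Mo
  refine ENNReal.tsum_le_tsum fun d => mul_le_mul' le_rfl (ENNReal.ofReal_le_ofReal ?_)
  rcases Nat.eq_zero_or_pos d with rfl | hd
  · rw [Nat.cast_zero, Real.zero_rpow hb.ne']
    positivity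
  · exact Real.rpow_le_rpow_of_exponent_le (by exact_mod_cast hd) hab

/-- bound for the probability of a small height. -/
lemma U_bound (h0 : μ 0 = 0) {A ε : ℝ} (hA : 1 ≤ A) (hε0 : 0 ≤ ε) (hε : ε ≤ 1 / 4)
    (hH : HF μ (1 / 2 - ε) A) {F d k : ℕ} (hd : 1 ≤ d) (hF : 16 * d ^ 2 ≤ F) {ms : List ℕ}
    (ht : 3 ≤ ms.sum) (q : ℕ) :
    ∑' y, kp (nu μ) F ms (k * d) y * (if y < q then 1 else 0) ≤
      ENNReal.ofReal (9 * A ^ 2 * (((k * d : ℕ) : ℝ) + 1) * (ms.sum : ℝ) ^ (-(1 / 2 - ε)) *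
        min ((ms.sum : ℝ) ^ (-(1 - ε)) * (q : ℝ) ^ 2) 1) := by
  classical
  rcases Nat.eq_zero_or_pos q with rfl | hq
  · simp
  have hsm := small_le (μ := μ) (k := k) hd hF ms q
  have hs : (List.replicate k d).sum = k * d := by simp
  set t := ms.sum with htdef
  set z₀ : ℝ := ((k * d : ℕ) : ℝ) with hz₀
  have hz0 : 0 ≤ z₀ := by positivity
  have ht0 : (0 : ℝ) < t := by exact_mod_cast (by omega : 0 < t)
  have hA0 : (0 : ℝ) ≤ A := by linarith
  have hAA : A ≤ 9 * A ^ 2 := by nlinarith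
  have hG0 : 0 ≤ 9 * A ^ 2 * (z₀ + 1) * (t : ℝ) ^ (-(1 / 2 - ε)) := by positivity
  rcases le_total ((t : ℝ) ^ (-(1 - ε)) * (q : ℝ) ^ 2) 1 with hmin | hmin
  · rw [min_eq_left hmin]
    refine hsm.trans ?_
    set n := t / 3 with hn
    set n2 := t - 2 * (t / 3) with hn2
    have e : t = n + (n2 + n) := by omega
    have hn21 : 1 ≤ n2 := by omega
    have h3 := small_three (μ := μ) h0 (List.replicate k d) hn21 n n q
    rw [← e, hs] at h3
    refine h3.trans ?_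
    have h4 := hH n (k * d)
    have h5 := hH n (q - 1)
    have e5 : (((q - 1 : ℕ) : ℝ) + 1) = q := by
      rw [Nat.cast_sub hq]; push_cast; ring
    rw [e5] at h5
    set T : ℝ := (t : ℝ) / 3 with hT
    have hT0 : 0 < T := by positivity
    have hTn : T ≤ (n : ℝ) + 1 := by
      have h6 : t ≤ 3 * n + 2 := by omega
      have h7 : (t : ℝ) ≤ 3 * n + 2 := by exact_mod_cast h6
      rw [hT]; linarith
    have hTn2 : T ≤ (n2 : ℝ) := by
      have h6 : t ≤ 3 * n2 := by omega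
      have h7 : (t : ℝ) ≤ 3 * n2 := by exact_mod_cast h6
      rw [hT]; linarith
    have h8 : ((n : ℝ) + 1) ^ (-(1 / 2 - ε)) ≤ T ^ (-(1 / 2 - ε)) :=
      Real.rpow_le_rpow_of_nonpos hT0 hTn (by linarith)
    have h9 : 1 / Real.sqrt n2 ≤ T ^ (-(1 / 2 : ℝ)) := by
      rw [Real.rpow_neg hT0.le, ← Real.sqrt_eq_rpow, one_div]
      exact inv_anti₀ (Real.sqrt_pos.2 hT0) (Real.sqrt_le_sqrt hTn2)
    calc Fp μ n (k * d) * (q * (Fp μ n (q - 1) * ENNReal.ofReal (1 / Real.sqrt n2)))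
        ≤ ENNReal.ofReal (A * (z₀ + 1) * T ^ (-(1 / 2 - ε))) *
          (ENNReal.ofReal q * (ENNReal.ofReal (A * q * T ^ (-(1 / 2 - ε))) *
            ENNReal.ofReal (T ^ (-(1 / 2 : ℝ))))) := by
          rw [ENNReal.ofReal_natCast]
          gcongr
          · refine h4.trans (ENNReal.ofReal_le_ofReal ?_)
            gcongr
          · refine h5.trans (ENNReal.ofReal_le_ofReal ?_)
            gcongr
      _ = ENNReal.ofReal (A ^ 2 * (z₀ + 1) * q ^ 2 *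
            (T ^ (-(1 / 2 - ε)) * T ^ (-(1 / 2 - ε)) * T ^ (-(1 / 2 : ℝ)))) := by
          rw [← ENNReal.ofReal_mul (by positivity), ← ENNReal.ofReal_mul (by positivity),
            ← ENNReal.ofReal_mul (by positivity)]
          congr 1
          ring
      _ ≤ _ := by
          apply ENNReal.ofReal_le_ofReal
          have h10 : T ^ (-(1 / 2 - ε)) * T ^ (-(1 / 2 - ε)) * T ^ (-(1 / 2 : ℝ)) =
              T ^ (-(3 / 2 - 2 * ε)) := by
            rw [← Real.rpow_add hT0, ← Real.rpow_add hT0]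
            congr 1
            ring
          have h11 : (t : ℝ) ^ (-(1 / 2 - ε)) * (t : ℝ) ^ (-(1 - ε)) =
              (t : ℝ) ^ (-(3 / 2 - 2 * ε)) := by
            rw [← Real.rpow_add ht0]
            congr 1
            ring
          have h12 : T ^ (-(3 / 2 - 2 * ε)) ≤ 9 * (t : ℝ) ^ (-(3 / 2 - 2 * ε)) := by
            rw [hT, Real.div_rpow ht0.le (by norm_num), div_eq_mul_inv,
              ← Real.rpow_neg (by norm_num), neg_neg, mul_comm]
            gcongr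
            calc (3 : ℝ) ^ (3 / 2 - 2 * ε) ≤ (3 : ℝ) ^ (2 : ℝ) :=
                  Real.rpow_le_rpow_of_exponent_le (by norm_num) (by linarith)
              _ = 9 := by norm_num
          rw [h10]
          calc A ^ 2 * (z₀ + 1) * (q : ℝ) ^ 2 * T ^ (-(3 / 2 - 2 * ε))
              ≤ A ^ 2 * (z₀ + 1) * (q : ℝ) ^ 2 * (9 * (t : ℝ) ^ (-(3 / 2 - 2 * ε))) := by gcongr
            _ = 9 * A ^ 2 * (z₀ + 1) * (q : ℝ) ^ 2 *
                ((t : ℝ) ^ (-(1 / 2 - ε)) * (t : ℝ) ^ (-(1 - ε))) := by rw [h11]; ring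
            _ = _ := by ring
  · rw [min_eq_right hmin, mul_one]
    refine hsm.trans ((small_one _ _ _).trans ?_)
    rw [hs]
    refine (hH t (k * d)).trans (ENNReal.ofReal_le_ofReal ?_)
    have h8 : ((t : ℝ) + 1) ^ (-(1 / 2 - ε)) ≤ (t : ℝ) ^ (-(1 / 2 - ε)) :=
      Real.rpow_le_rpow_of_nonpos ht0 (by linarith) (by linarith)
    gcongr

lemma min_le_rpow {y θ : ℝ} (hy : 0 ≤ y) (hθ0 : 0 ≤ θ) (hθ1 : θ ≤ 1) : min y 1 ≤ y ^ θ := by
  rcases le_total y 1 with h | h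
  · rw [min_eq_left h]
    rcases hy.eq_or_lt with rfl | hy
    · positivity
    · calc y = y ^ (1 : ℝ) := (Real.rpow_one y).symm
        _ ≤ y ^ θ := Real.rpow_le_rpow_of_exponent_ge hy h hθ1
  · rw [min_eq_right h]
    exact Real.one_le_rpow h hθ0

lemma xmin_le {x1 x2 s θ : ℝ} (h1 : 0 ≤ x1) (h2 : 0 ≤ x2) (hs : 0 ≤ s) (hθ0 : 0 ≤ θ)
    (hθ1 : θ ≤ 1) : (x1 + x2) * min (s * (x1 + x2) ^ 2) 1 ≤
      8 * s * x1 ^ 3 + 8 * (s ^ θ * x2 ^ (1 + 2 * θ)) := by
  rcases le_total x2 x1 with h | h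
  · have h3 : (x1 + x2) * min (s * (x1 + x2) ^ 2) 1 ≤ (2 * x1) * (s * (2 * x1) ^ 2) := by
      have h4 : min (s * (x1 + x2) ^ 2) 1 ≤ s * (2 * x1) ^ 2 := by
        refine (min_le_left _ _).trans ?_
        gcongr
        linarith
      have h5 : 0 ≤ min (s * (x1 + x2) ^ 2) 1 := by positivity
      exact mul_le_mul (by linarith) h4 h5 (by linarith)
    have h6 : 0 ≤ 8 * (s ^ θ * x2 ^ (1 + 2 * θ)) := by positivity
    linarith [show (2 * x1) * (s * (2 * x1) ^ 2) = 8 * s * x1 ^ 3 by ring]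
  · rcases h2.eq_or_lt with h2' | h2'
    · have : x1 = 0 := by linarith
      subst this
      rw [← h2']
      simp only [add_zero, zero_mul]
      positivity
    · have h4 : min (s * (x1 + x2) ^ 2) 1 ≤ (s * (2 * x2) ^ 2) ^ θ := by
        refine le_trans ?_ (min_le_rpow (by positivity) hθ0 hθ1)
        gcongr
        linarith
      have h5 : (s * (2 * x2) ^ 2) ^ θ = (4 : ℝ) ^ θ * (s ^ θ * x2 ^ (2 * θ)) := by
        rw [show s * (2 * x2) ^ 2 = 4 * (s * x2 ^ 2) by ring,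
          Real.mul_rpow (by norm_num) (by positivity), Real.mul_rpow hs (by positivity),
          ← Real.rpow_natCast x2 2, ← Real.rpow_mul h2]
        push_cast
        rfl
      have h6 : x2 ^ (1 + 2 * θ) = x2 * x2 ^ (2 * θ) := by
        rw [Real.rpow_add h2', Real.rpow_one]
      have h7 : (4 : ℝ) ^ θ ≤ 4 := by
        calc (4 : ℝ) ^ θ ≤ (4 : ℝ) ^ (1 : ℝ) :=
              Real.rpow_le_rpow_of_exponent_le (by norm_num) hθ1
          _ = 4 := Real.rpow_one 4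
      have h8 : (x1 + x2) * min (s * (x1 + x2) ^ 2) 1 ≤
          (2 * x2) * (4 * (s ^ θ * x2 ^ (2 * θ))) := by
        refine mul_le_mul (by linarith) (h4.trans ?_) (by positivity) (by linarith)
        rw [h5]
        gcongr
      have h9 : 0 ≤ 8 * s * x1 ^ 3 := by positivity
      rw [h6]
      linarith [show (2 * x2) * (4 * (s ^ θ * x2 ^ (2 * θ))) =
        8 * (s ^ θ * (x2 * x2 ^ (2 * θ))) by ring]

lemma cube_three {a b c : ℝ} (ha : 0 ≤ a) (hb : 0 ≤ b) (hc : 0 ≤ c) :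
    (a + b + c) ^ 3 ≤ 9 * (a ^ 3 + b ^ 3 + c ^ 3) := by
  nlinarith [mul_nonneg (add_nonneg ha hb) (sq_nonneg (a - b)),
    mul_nonneg (add_nonneg hb hc) (sq_nonneg (b - c)),
    mul_nonneg (add_nonneg ha hc) (sq_nonneg (a - c)),
    mul_nonneg ha (sq_nonneg (b - c)), mul_nonneg hb (sq_nonneg (a - c)),
    mul_nonneg hc (sq_nonneg (a - b)), mul_nonneg ha (sq_nonneg (a - b)),
    mul_nonneg ha (sq_nonneg (a - c)), mul_nonneg hb (sq_nonneg (a - b)),
    mul_nonneg hb (sq_nonneg (b - c)), mul_nonneg hc (sq_nonneg (a - c)),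
    mul_nonneg hc (sq_nonneg (b - c))]

/-- moments of the size of a block. -/
theorem block_moment {A ε θ a : ℝ} (hA : 0 ≤ A) (hε0 : 0 ≤ ε) (hε : ε ≤ 1 / 2)
    (hH : HF μ (1 / 2 - ε) A) (hθ0 : 0 ≤ θ) (hθ1 : θ ≤ 1) (ha : 3 + 4 * θ ≤ a) (hM : Mo μ a ≠ ∞)
    (F : ℕ) :
    ∃ C : ℝ, 0 ≤ C ∧ ∀ m : ℕ, 1 ≤ m → ∀ s : ℝ, 0 ≤ s →
      Ex (nu μ) m (fun B => ENNReal.ofReal ((Qn F B : ℝ) * min (s * (Qn F B : ℝ) ^ 2) 1)) ≤
        ENNReal.ofReal (C * (s * (m : ℝ) ^ (3 / 2 + 3 * ε) + s ^ θ * (m : ℝ) ^ (1 / 2 + ε))) := by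
  obtain ⟨C3, hC30, -, hC3⟩ := rq_three_le hA hε0 hε hH (a := a) (by linarith) hM
  have hMθ : Mo μ (3 + 4 * θ) ≠ ∞ := ne_top_of_le_ne_top hM (Mo_mono (by linarith) ha)
  set M := (Mo μ (3 + 4 * θ)).toReal with hMdef
  have hM0 : 0 ≤ M := ENNReal.toReal_nonneg
  have eM : Mo μ (3 + 4 * θ) = ENNReal.ofReal M := (ENNReal.ofReal_toReal hMθ).symm
  set φ : ℕ → ℝ≥0∞ := fun x => ENNReal.ofReal ((x : ℝ) ^ (2 + 4 * θ)) with hφ
  have hφ0 : φ 0 = 0 := by
    simp only [hφ, Nat.cast_zero]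
    rw [Real.zero_rpow (by linarith), ENNReal.ofReal_zero]
  have hφm : Monotone φ := by
    intro x y hxy
    refine ENNReal.ofReal_le_ofReal (Real.rpow_le_rpow (by positivity) (by exact_mod_cast hxy)
      (by linarith))
  have hφM : ∑' d : ℕ, μ d * (φ d * d) = Mo μ (3 + 4 * θ) := by
    unfold Mo
    refine tsum_congr fun d => ?_
    congr 1
    simp only [hφ]
    rw [← ENNReal.ofReal_natCast, ← ENNReal.ofReal_mul (by positivity)]
    congr 1
    rcases Nat.eq_zero_or_pos d with rfl | hd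
    · rw [Nat.cast_zero, mul_zero, Real.zero_rpow (by linarith)]
    · have hd0 : (0 : ℝ) < d := by exact_mod_cast hd
      rw [show 3 + 4 * θ = (2 + 4 * θ) + 1 by ring, Real.rpow_add hd0 (2 + 4 * θ) 1,
        Real.rpow_one]
  refine ⟨72 * (2 * C3 + F ^ 3) + 8 * 4096 * (4 * A * M), by positivity, fun m hm s hs => ?_⟩
  have hm1 : (1 : ℝ) ≤ m := by exact_mod_cast hm
  have hm0 : (0 : ℝ) < m := by linarith
  have hpt : ∀ B : List (ℕ × ℕ), ENNReal.ofReal ((Qn F B : ℝ) * min (s * (Qn F B : ℝ) ^ 2) 1) ≤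
      ENNReal.ofReal (72 * s) * (((Tw B : ℝ≥0∞) ^ 3 + (Rw B : ℝ≥0∞) ^ 3) + (F : ℝ≥0∞) ^ 3) +
      ENNReal.ofReal (8 * 4096 * s ^ θ) * (SN φ B + SN φ (mir B)) := by
    intro B
    set b := bmx (need [] B ++ run [] B) with hb
    have e1 : (Qn F B : ℝ) = ((Tw B : ℝ) + Rw B + F) + 16 * (b : ℝ) ^ 2 := by
      unfold Qn; push_cast; rfl
    have h1 := xmin_le (x1 := (Tw B : ℝ) + Rw B + F) (x2 := 16 * (b : ℝ) ^ 2) (s := s) (θ := θ)
      (by positivity) (by positivity) hs hθ0 hθ1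
    rw [← e1] at h1
    have h2 := cube_three (a := (Tw B : ℝ)) (b := Rw B) (c := F) (by positivity) (by positivity)
      (by positivity)
    have h3 : (16 * (b : ℝ) ^ 2) ^ (1 + 2 * θ) ≤ 4096 * (b : ℝ) ^ (2 + 4 * θ) := by
      rw [Real.mul_rpow (by norm_num) (by positivity), ← Real.rpow_natCast (b : ℝ) 2,
        ← Real.rpow_mul (by positivity)]
      have h4 : ((2 : ℕ) : ℝ) * (1 + 2 * θ) = 2 + 4 * θ := by push_cast; ring
      rw [h4]
      gcongr
      calc (16 : ℝ) ^ (1 + 2 * θ) ≤ (16 : ℝ) ^ (3 : ℝ) :=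
            Real.rpow_le_rpow_of_exponent_le (by norm_num) (by linarith)
        _ = 4096 := by norm_num
    have h5 : (Qn F B : ℝ) * min (s * (Qn F B : ℝ) ^ 2) 1 ≤
        72 * s * ((Tw B : ℝ) ^ 3 + (Rw B : ℝ) ^ 3 + (F : ℝ) ^ 3) +
        8 * 4096 * s ^ θ * (b : ℝ) ^ (2 + 4 * θ) := by
      refine h1.trans ?_
      have h6 : 8 * s * ((Tw B : ℝ) + Rw B + F) ^ 3 ≤
          8 * s * (9 * ((Tw B : ℝ) ^ 3 + (Rw B : ℝ) ^ 3 + (F : ℝ) ^ 3)) := by gcongr
      have h7 : 8 * (s ^ θ * (16 * (b : ℝ) ^ 2) ^ (1 + 2 * θ)) ≤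
          8 * (s ^ θ * (4096 * (b : ℝ) ^ (2 + 4 * θ))) := by gcongr
      linarith
    refine (ENNReal.ofReal_le_ofReal h5).trans ?_
    rw [ENNReal.ofReal_add (by positivity) (by positivity), ENNReal.ofReal_mul (by positivity),
      ENNReal.ofReal_mul (p := 8 * 4096 * s ^ θ) (by positivity)]
    have h8 : ENNReal.ofReal ((Tw B : ℝ) ^ 3 + (Rw B : ℝ) ^ 3 + (F : ℝ) ^ 3) =
        ((Tw B : ℝ≥0∞) ^ 3 + (Rw B : ℝ≥0∞) ^ 3) + (F : ℝ≥0∞) ^ 3 := by
      rw [ENNReal.ofReal_add (by positivity) (by positivity),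
        ENNReal.ofReal_add (by positivity) (by positivity),
        ENNReal.ofReal_pow (by positivity), ENNReal.ofReal_pow (by positivity),
        ENNReal.ofReal_pow (by positivity), ENNReal.ofReal_natCast, ENNReal.ofReal_natCast,
        ENNReal.ofReal_natCast]
    rw [h8]
    gcongr
    have h9 := phi_bmx_le hφ0 (need [] B ++ run [] B)
    rw [← hb, List.map_append, List.sum_append] at h9
    refine h9.trans (le_of_eq ?_)
    unfold SN
    rw [run_eq_need_mir B]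
  refine (Ex_mono _ _ fun B _ => hpt B).trans ?_
  simp only [Ex_add, Ex_mul_left, Ex_const (tsum_nu_one μ)]
  rw [rq_mir, Ex_mir (nu_swap μ)]
  have h10 : Ex (nu μ) m (fun B => (Rw B : ℝ≥0∞) ^ 3) = rq μ 3 [] m := rfl
  rw [h10]
  have h11 : Ex (nu μ) m (SN φ) ≤ ENNReal.ofReal (2 * A * (m : ℝ) ^ (1 / 2 + ε) * M) := by
    refine (Ex_SN_le hA hε0 hε hH hφ0 hφm m).trans (le_of_eq ?_)
    rw [hφM, eM, ← ENNReal.ofReal_mul (by positivity)]
  have h12 := hC3 m hm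
  calc ENNReal.ofReal (72 * s) * (rq μ 3 [] m + rq μ 3 [] m + (F : ℝ≥0∞) ^ 3) +
        ENNReal.ofReal (8 * 4096 * s ^ θ) * (Ex (nu μ) m (SN φ) + Ex (nu μ) m (SN φ))
      ≤ ENNReal.ofReal (72 * s) * (ENNReal.ofReal (C3 * (m : ℝ) ^ (3 / 2 + 3 * ε)) +
          ENNReal.ofReal (C3 * (m : ℝ) ^ (3 / 2 + 3 * ε)) + ENNReal.ofReal ((F : ℝ) ^ 3)) +
        ENNReal.ofReal (8 * 4096 * s ^ θ) * (ENNReal.ofReal (2 * A * (m : ℝ) ^ (1 / 2 + ε) * M) +
          ENNReal.ofReal (2 * A * (m : ℝ) ^ (1 / 2 + ε) * M)) := by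
        have h13 : (F : ℝ≥0∞) ^ 3 = ENNReal.ofReal ((F : ℝ) ^ 3) := by
          rw [ENNReal.ofReal_pow (by positivity), ENNReal.ofReal_natCast]
        rw [h13]
        gcongr
    _ = ENNReal.ofReal (72 * s * (C3 * (m : ℝ) ^ (3 / 2 + 3 * ε) +
          C3 * (m : ℝ) ^ (3 / 2 + 3 * ε) + (F : ℝ) ^ 3) +
        8 * 4096 * s ^ θ * (2 * A * (m : ℝ) ^ (1 / 2 + ε) * M +
          2 * A * (m : ℝ) ^ (1 / 2 + ε) * M)) := by
        rw [← ENNReal.ofReal_add (by positivity) (by positivity),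
          ← ENNReal.ofReal_add (by positivity) (by positivity),
          ← ENNReal.ofReal_add (p := 2 * A * (m : ℝ) ^ (1 / 2 + ε) * M) (by positivity)
            (by positivity),
          ← ENNReal.ofReal_mul (by positivity), ← ENNReal.ofReal_mul (by positivity),
          ← ENNReal.ofReal_add (by positivity) (by positivity)]
    _ ≤ _ := by
        apply ENNReal.ofReal_le_ofReal
        set X := (m : ℝ) ^ (3 / 2 + 3 * ε) with hX
        set Y := (m : ℝ) ^ (1 / 2 + ε) with hY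
        have hX1 : 1 ≤ X := Real.one_le_rpow hm1 (by linarith)
        have hY0 : 0 ≤ Y := by positivity
        have hsθ : 0 ≤ s ^ θ := by positivity
        have h14 : 72 * s * (F : ℝ) ^ 3 ≤ 72 * s * ((F : ℝ) ^ 3 * X) := by
          gcongr
          exact le_mul_of_one_le_right (by positivity) hX1
        have h15 : 0 ≤ 72 * (2 * C3 + (F : ℝ) ^ 3) * (s ^ θ * Y) := by positivity
        have h16 : 0 ≤ 8 * 4096 * (4 * A * M) * (s * X) := by positivity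
        nlinarith

end Pool.Agent.W_63dac5_h37
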