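import Pool.Agent.W_MP_63dac5_pr.Matched
import Pool.Agent.W_MP_63dac5_pr.HeavyMain
import Pool.Agent.W_63dac5_h37.Final

/-!
# Closed words: both directions
-/

namespace Pool.Agent.W_63dac5_h37

open MeasureTheory ProbabilityTheory ENNReal Finset
open Pool.Agent.W_MP_63dac5_pr

/-! ### closed words and closed intervals -/

lemma okrun_of_lc (x : ℤ → ℕ × ℕ) (n : ℕ) (h : ∀ i : ℤ, 1 ≤ i → i ≤ n → lc x 1 i = (x i).1) :
    okrun [] (pre (fun k => x ((k : ℤ) + 1)) n) := by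
  induction n with
  | zero => exact trivial
  | succ n ih =>
    rw [pre_add _ n 1, okrun_append]
    refine ⟨ih fun i h1 h2 => h i h1 (by push_cast; omega), ?_⟩
    simp only [pre, okrun, and_true, add_zero]
    rw [← Ua_eq_run]
    have h1 := Ua_lc x n n le_rfl
    have h2 := h ((n : ℤ) + 1) (by omega) (by push_cast; omega)
    have h3 : lc x ((n : ℤ) + 1) ((n : ℤ) + 1) = 0 := lc_of_le x le_rfl
    omega

lemma Ua_sum_zero {x : ℤ → ℕ × ℕ} {n m : ℕ} (h : ∀ i : ℤ, 1 ≤ i → i ≤ m → rc x i n = (x i).2) :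
    (Ua x n m).sum = 0 := by
  induction m with
  | zero => rfl
  | succ m ih =>
    simp only [Ua, List.sum_cons]
    have h1 := h ((m : ℤ) + 1) (by omega) (by push_cast; omega)
    have h2 := ih fun i h1 h2 => h i h1 (by push_cast; omega)
    omega

lemma CW_of_closed {x : ℤ → ℕ × ℕ} {n : ℕ} (h : Closed x 1 n) :
    CW (pre (fun k => x ((k : ℤ) + 1)) n) := by
  refine ⟨okrun_of_lc x n fun i h1 h2 => (h i h1 h2).2, ?_⟩
  rw [← Ua_eq_run]
  exact Ua_sum_zero fun i h1 h2 => (h i h1 h2).1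

lemma prob_closed_eq {Ω : Type*} [MeasurableSpace Ω] {P : Measure Ω} [IsProbabilityMeasure P]
    {X : ℤ → Ω → ℕ × ℕ} {ν : ℕ × ℕ → ℝ≥0∞} (hX : ∀ i, Measurable (X i)) (hind : iIndepFun X P)
    (hν : ∀ i a, P (X i ⁻¹' {a}) = ν a) (n : ℕ) :
    P {ω | Closed (fun i => X i ω) 1 (n : ℤ)} = cw ν n := by
  classical
  unfold cw
  rw [← measure_eq_Ex hX hind hν (fun k => (k : ℤ) + 1) n (fun i j _ _ h => by
    have : (i : ℤ) + 1 = (j : ℤ) + 1 := h
    omega) CW]
  congr 1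
  ext ω
  exact ⟨fun h => CW_of_closed h, fun h => closed_of_CW h⟩

/-! ### closed words and survival -/

lemma okL_iff_of_sum_zero {ls : List ℕ} : (∀ l ∈ ls, l = 0) ↔ ls.sum = 0 := by
  rw [List.sum_eq_zero_iff]

lemma okrun_iff_Rw (w : List (ℕ × ℕ)) : okrun [] w ↔ Rw w = 0 := by
  have key : ∀ (w : List (ℕ × ℕ)) (u : List ℕ), okrun u w ↔ (need u w).sum = 0 := by
    intro w
    induction w with
    | nil => intro u; simp [okrun, need]
    | cons a w ih =>
      intro u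
      simp only [okrun, need, List.sum_cons, ih]
      omega
  exact key w []

lemma CW_iff (w : List (ℕ × ℕ)) : CW w ↔ Rw w = 0 ∧ Tw w = 0 := by
  unfold CW
  rw [okrun_iff_Rw]
  rfl

lemma alive_of_okrun {w : List (ℕ × ℕ)} {u : List ℕ} (h : okrun u w) : alive u.sum w := by
  induction w generalizing u with
  | nil => exact trivial
  | cons a w ih =>
    obtain ⟨h1, h2⟩ := h
    have h3 := nz_le_sum u
    have h4 := serve_sum a.1 u
    rw [min_eq_left h1] at h4
    refine ⟨h1.trans h3, ?_⟩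
    have h5 := ih h2
    have h6 : (stp u a).sum = u.sum - a.1 + a.2 := by
      simp only [stp, List.sum_cons]
      omega
    rwa [h6] at h5

lemma cw_le_Sv {ν : ℕ × ℕ → ℝ≥0∞} (hν : ∀ a, ν a.swap = ν a) (m n : ℕ) :
    cw ν (m + n) ≤ Sv ν m 0 * Sv ν n 0 := by
  classical
  have h1 : Sv ν n 0 = Ex ν n (fun w => if alive 0 (mir w) then 1 else 0) := by
    unfold Sv
    rw [← Ex_mir hν]
  rw [h1]
  unfold Sv cw
  rw [← Ex_append_mul]
  refine Ex_mono _ _ fun w _ => ?_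
  by_cases h : CW w
  · rw [CW_iff] at h
    have e := List.take_append_drop m w
    have h2 : Rw (w.take m) = 0 := by
      have h3 := need_append [] (w.take m) (w.drop m)
      rw [e] at h3
      have h4 := h.1
      unfold Rw at h4 ⊢
      rw [h3, List.sum_append] at h4
      omega
    have h5 : Rw (mir (w.drop m)) = 0 := by
      rw [← Tw_eq]
      have h6 := Tw_right_le (w.take m) (w.drop m)
      rw [e] at h6
      omega
    have h7 : alive 0 (w.take m) := alive_of_okrun (u := []) ((okrun_iff_Rw _).2 h2)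
    have h8 : alive 0 (mir (w.drop m)) := alive_of_okrun (u := []) ((okrun_iff_Rw _).2 h5)
    rw [if_pos h7, if_pos h8]
    simp only [mul_one]
    split_ifs <;> simp
  · rw [if_neg h]; exact bot_le

/-- the sum which decides percolation. -/
noncomputable def Fs (ν : ℕ × ℕ → ℝ≥0∞) : ℝ≥0∞ := ∑' e : ℕ × ℕ, cw ν (e.1 + e.2)

lemma Fs_le {ν : ℕ × ℕ → ℝ≥0∞} (hν : ∀ a, ν a.swap = ν a) :
    Fs ν ≤ (∑' n, Sv ν n 0) * ∑' n, Sv ν n 0 := by
  unfold Fs
  refine (ENNReal.tsum_le_tsum fun e : ℕ × ℕ => cw_le_Sv hν e.1 e.2).trans (le_of_eq ?_)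
  rw [ENNReal.tsum_prod']
  simp only [ENNReal.tsum_mul_left]
  rw [ENNReal.tsum_mul_right]

lemma tsum_mul_cw_le (ν : ℕ × ℕ → ℝ≥0∞) : ∑' n : ℕ, (n : ℝ≥0∞) * cw ν n ≤ Fs ν := by
  unfold Fs
  rw [← (HasAntidiagonal.sigmaAntidiagonalEquivProd (A := ℕ)).tsum_eq
    (fun p : ℕ × ℕ => cw ν (p.1 + p.2)), ENNReal.tsum_sigma']
  refine ENNReal.tsum_le_tsum fun t => ?_
  rw [tsum_fintype]
  have h3 : ∀ x : (antidiagonal t : Finset (ℕ × ℕ)),
      cw ν (((HasAntidiagonal.sigmaAntidiagonalEquivProd (A := ℕ)) ⟨t, x⟩).1 +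
        ((HasAntidiagonal.sigmaAntidiagonalEquivProd (A := ℕ)) ⟨t, x⟩).2) = cw ν t := by
    intro x
    have ha := mem_antidiagonal.1 x.2
    simp only [HasAntidiagonal.sigmaAntidiagonalEquivProd_apply]
    rw [ha]
  simp only [h3]
  rw [Finset.sum_const, Finset.card_univ, Fintype.card_coe, Nat.card_antidiagonal, nsmul_eq_mul]
  gcongr
  omega

section Dichotomy

variable {Ω : Type*} [MeasurableSpace Ω] {P : Measure Ω} [IsProbabilityMeasure P]
  {X : ℤ → Ω → ℕ × ℕ} {μ : PMF ℕ}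

theorem finite_of_Fs (hX : ∀ i, Measurable (X i)) (hind : iIndepFun X P)
    (hν : ∀ i a, P (X i ⁻¹' {a}) = nu μ a) (h : Fs (nu μ) = ∞) :
    ∀ᵐ ω ∂P, ∀ i, {j | (G (fun i => X i ω)).Reachable i j}.Finite := by
  refine no_percolation_of_tsum hX hind (ident_of_law hX hν) ?_
  rw [eq_top_iff, ← h]
  exact ENNReal.tsum_le_tsum fun e => prob_closed_ge hX hind hν (e.1 + e.2)

theorem infinite_of_Fs (h0 : μ 0 = 0) (hX : ∀ i, Measurable (X i)) (hind : iIndepFun X P)
    (hν : ∀ i a, P (X i ⁻¹' {a}) = nu μ a) (h : Fs (nu μ) ≠ ∞) :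
    ∀ᵐ ω ∂P, ∃ i, {j | (G (fun i => X i ω)).Reachable i j}.Infinite := by
  obtain ⟨d, hd⟩ : ∃ d, μ d ≠ 0 := by
    by_contra h
    push Not at h
    have h1 := μ.tsum_coe
    simp only [h, tsum_zero] at h1
    exact zero_ne_one h1
  have hd1 : 1 ≤ d := by
    rcases Nat.eq_zero_or_pos d with rfl | h
    · exact absurd h0 hd
    · exact h
  have hd' : nu μ (0, d) ≠ 0 := by
    unfold nu
    simp only [zero_add, Nat.choose_self, Nat.cast_one, mul_one]
    exact (ENNReal.div_pos hd (by simp)).ne'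
  refine percolation_of_tsum hX hind hν (nu_swap μ) hd1 hd' ?_
  simp only [prob_closed_eq hX hind hν]
  exact ne_top_of_le_ne_top h (tsum_mul_cw_le _)

end Dichotomy

end Pool.Agent.W_63dac5_h37
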