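import Pool.Agent.W_MP_63dac5_pr.PowerTail
import Pool.Agent.W_63dac5_h37.Top1

/-!
# The topology of the set of percolating laws
-/

namespace Pool.Agent.W_63dac5_h37

open MeasureTheory ProbabilityTheory ENNReal Finset Topology
open Pool.Agent.W_MP_63dac5_pr

/-- The probability measures on the positive integers, as a subset of `ℓ¹` (so that the distance
is the total variation of the difference). -/
def Law : Set (lp (fun _ : ℕ => ℝ) 1) := {p | (∀ d, 0 ≤ p d) ∧ p 0 = 0 ∧ ∑' d, p d = 1}

lemma one_toReal_pos : 0 < (1 : ℝ≥0∞).toReal := by simp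

lemma hasSum_abs (p : lp (fun _ : ℕ => ℝ) 1) : HasSum (fun d => |p d|) ‖p‖ := by
  have h := lp.hasSum_norm one_toReal_pos p
  simpa using h

lemma summable_coe (p : lp (fun _ : ℕ => ℝ) 1) : Summable (fun d => p d) :=
  (hasSum_abs p).summable.of_abs

lemma continuous_eval (d : ℕ) : Continuous (fun p : lp (fun _ : ℕ => ℝ) 1 => p d) := by
  have h : LipschitzWith 1 (fun p : lp (fun _ : ℕ => ℝ) 1 => p d) := by
    refine LipschitzWith.of_dist_le_mul fun p q => ?_
    rw [dist_eq_norm, dist_eq_norm, NNReal.coe_one, one_mul]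
    have h1 := le_hasSum (hasSum_abs (p - q)) d (fun _ _ => abs_nonneg _)
    simpa using h1
  exact h.continuous

lemma continuous_tsum : Continuous (fun p : lp (fun _ : ℕ => ℝ) 1 => ∑' d, p d) := by
  have h : LipschitzWith 1 (fun p : lp (fun _ : ℕ => ℝ) 1 => ∑' d, p d) := by
    refine LipschitzWith.of_dist_le_mul fun p q => ?_
    rw [dist_eq_norm, dist_eq_norm, NNReal.coe_one, one_mul,
      ← (summable_coe p).tsum_sub (summable_coe q)]
    have h1 := hasSum_abs (p - q)
    have h2 : HasSum (fun d => |p d - q d|) ‖p - q‖ := by simpa using h1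
    have h3 : Summable (fun d => ‖p d - q d‖) := h2.summable
    refine (norm_tsum_le_tsum_norm h3).trans (le_of_eq ?_)
    exact h2.tsum_eq
  exact h.continuous

lemma isClosed_Law : IsClosed Law := by
  have h1 : IsClosed {p : lp (fun _ : ℕ => ℝ) 1 | ∀ d, 0 ≤ p d} := by
    have : {p : lp (fun _ : ℕ => ℝ) 1 | ∀ d, 0 ≤ p d} = ⋂ d, {p | 0 ≤ p d} := by
      ext p; simp
    rw [this]
    exact isClosed_iInter fun d => isClosed_le continuous_const (continuous_eval d)
  have h2 : IsClosed {p : lp (fun _ : ℕ => ℝ) 1 | p 0 = 0} :=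
    isClosed_eq (continuous_eval 0) continuous_const
  have h3 : IsClosed {p : lp (fun _ : ℕ => ℝ) 1 | ∑' d, p d = 1} :=
    isClosed_eq continuous_tsum continuous_const
  exact h1.inter (h2.inter h3)

instance : CompleteSpace Law := isClosed_Law.completeSpace_coe

/-- a law from a sequence. -/
lemma exists_Law {g : ℕ → ℝ} (hg : ∀ d, 0 ≤ g d) (h0 : g 0 = 0) (h1 : HasSum g 1) :
    ∃ p : Law, ∀ d, p.1 d = g d := by
  have hm : Memℓp g 1 := by
    refine memℓp_gen ?_
    simp only [ENNReal.toReal_one, Real.rpow_one]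
    exact h1.summable.norm
  refine ⟨⟨⟨g, hm⟩, hg, h0, h1.tsum_eq⟩, fun d => rfl⟩

lemma dist_Law (p q : Law) : dist p q = ∑' d, |p.1 d - q.1 d| := by
  have h : dist p q = ‖p.1 - q.1‖ := by rw [← dist_eq_norm]; rfl
  rw [h, ← (hasSum_abs (p.1 - q.1)).tsum_eq]
  exact tsum_congr fun d => by simp

lemma hasSum_Law (p : Law) : HasSum (fun d => p.1 d) 1 := by
  have := (summable_coe p.1).hasSum
  rwa [p.2.2.2] at this

/-- the law as a `PMF`. -/
noncomputable def toPMF (p : Law) : PMF ℕ :=
  ⟨fun d => ENNReal.ofReal (p.1 d), by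
    have h1 : ∑' d, ENNReal.ofReal (p.1 d) = 1 := by
      rw [← ENNReal.ofReal_tsum_of_nonneg p.2.1 (summable_coe p.1), p.2.2.2, ENNReal.ofReal_one]
    exact (ENNReal.summable.hasSum_iff).2 h1⟩

lemma toPMF_apply (p : Law) (d : ℕ) : toPMF p d = ENNReal.ofReal (p.1 d) := rfl

lemma toPMF_toReal (p : Law) (d : ℕ) : (toPMF p d).toReal = p.1 d := by
  rw [toPMF_apply, ENNReal.toReal_ofReal (p.2.1 d)]

lemma toPMF_zero (p : Law) : toPMF p 0 = 0 := by
  rw [toPMF_apply, p.2.2.1, ENNReal.ofReal_zero]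

/-- the laws without percolation. -/
def GG : Set Law := {p | Fs (nu (toPMF p)) = ∞}

/-- the laws with `E f(D) = ∞`. -/
def HH (f : ℕ → ℝ) : Set Law := {p | ¬ Summable (fun d => p.1 d * f d)}

lemma lsc_cw (n : ℕ) : LowerSemicontinuous (fun p : Law => cw (nu (toPMF p)) n) := by
  classical
  have h1 : (fun p : Law => cw (nu (toPMF p)) n) = fun p : Law => ∑' w : Fin n → ℕ × ℕ,
      (if CW (List.ofFn w) then (1 : ℝ≥0∞) else 0) * ∏ k, nu (toPMF p) (w k) := by
    funext p
    unfold cw
    rw [Ex_eq_tsum]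
  rw [h1]
  refine lowerSemicontinuous_tsum fun w => ?_
  by_cases hw : CW (List.ofFn w)
  · simp only [if_pos hw, one_mul]
    have h2 : (fun p : Law => ∏ k, nu (toPMF p) (w k)) = fun p : Law => ENNReal.ofReal
        (∏ k, (p.1 ((w k).1 + (w k).2) *
          ((((w k).1 + (w k).2).choose (w k).1 : ℝ) / 2 ^ ((w k).1 + (w k).2)))) := by
      funext p
      rw [ENNReal.ofReal_prod_of_nonneg (fun k _ => mul_nonneg (p.2.1 _) (by positivity))]
      refine Finset.prod_congr rfl fun k _ => ?_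
      rw [nu_eq, toPMF_apply, ENNReal.ofReal_mul (p.2.1 _)]
    rw [h2]
    refine (ENNReal.continuous_ofReal.comp ?_).lowerSemicontinuous
    refine continuous_finsetProd _ fun k _ => ?_
    exact ((continuous_eval _).comp continuous_subtype_val).mul continuous_const
  · simp only [if_neg hw, zero_mul]
    exact lowerSemicontinuous_const

lemma isGδ_of_lsc {F : Law → ℝ≥0∞} (hF : LowerSemicontinuous F) : IsGδ {p | F p = ∞} := by
  have h1 : {p | F p = ∞} = ⋂ n : ℕ, F ⁻¹' Set.Ioi (n : ℝ≥0∞) := by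
    ext p
    simp only [Set.mem_ofPred_eq, Set.mem_iInter, Set.mem_preimage, Set.mem_Ioi]
    constructor
    · intro h n
      rw [h]
      exact ENNReal.natCast_lt_top n
    · intro h
      by_contra hne
      obtain ⟨n, hn⟩ := ENNReal.exists_nat_gt hne
      exact absurd (h n) (not_lt.2 hn.le)
  rw [h1]
  exact IsGδ.iInter_of_isOpen fun n => hF.isOpen_preimage _

lemma isGδ_GG : IsGδ GG := by
  refine isGδ_of_lsc ?_
  unfold Fs
  exact lowerSemicontinuous_tsum fun e => lsc_cw _

lemma HH_eq {f : ℕ → ℝ} (hf : ∀ d, 0 ≤ f d) :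
    HH f = {p : Law | ∑' d, ENNReal.ofReal (p.1 d * f d) = ∞} := by
  ext p
  simp only [HH, Set.mem_ofPred_eq]
  have h0 : ∀ d, 0 ≤ p.1 d * f d := fun d => mul_nonneg (p.2.1 d) (hf d)
  constructor
  · intro h
    by_contra h1
    apply h
    have h2 := ENNReal.summable_toReal h1
    refine h2.congr fun d => ?_
    rw [ENNReal.toReal_ofReal (h0 d)]
  · intro h h1
    exact h1.tsum_ofReal_ne_top h

lemma isGδ_HH {f : ℕ → ℝ} (hf : ∀ d, 0 ≤ f d) : IsGδ (HH f) := by
  rw [HH_eq hf]
  refine isGδ_of_lsc ?_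
  refine lowerSemicontinuous_tsum fun d => ?_
  refine (ENNReal.continuous_ofReal.comp ?_).lowerSemicontinuous
  exact ((continuous_eval _).comp continuous_subtype_val).mul continuous_const

/-! ### finite support -/

/-- the laws of finite support. -/
def FS : Set Law := {p | ∃ N : ℕ, ∀ d, N < d → p.1 d = 0}

lemma FS_subset_GG : FS ⊆ GG := by
  rintro p ⟨N, hN⟩
  refine tsum_cw_top (toPMF_zero p) (a := 4) (by norm_num) ?_
  unfold Mo
  rw [tsum_eq_sum (s := Finset.range (N + 1))]
  · refine (ENNReal.sum_lt_top.2 fun d _ => ?_).ne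
    rw [toPMF_apply]
    exact ENNReal.mul_lt_top ENNReal.ofReal_lt_top ENNReal.ofReal_lt_top
  · intro d hd
    rw [Finset.mem_range] at hd
    rw [toPMF_apply, hN d (by omega), ENNReal.ofReal_zero, zero_mul]

/-- convex combinations. -/
lemma exists_mix (p q : Law) {t : ℝ} (h0 : 0 ≤ t) (h1 : t ≤ 1) :
    ∃ r : Law, (∀ d, r.1 d = (1 - t) * p.1 d + t * q.1 d) ∧ dist r p ≤ 2 * t := by
  obtain ⟨r, hr⟩ := exists_Law (g := fun d => (1 - t) * p.1 d + t * q.1 d)
    (fun d => add_nonneg (mul_nonneg (by linarith) (p.2.1 d)) (mul_nonneg h0 (q.2.1 d)))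
    (by simp only; rw [p.2.2.1, q.2.2.1]; ring)
    (by
      have := ((hasSum_Law p).mul_left (1 - t)).add ((hasSum_Law q).mul_left t)
      simpa using this)
  refine ⟨r, hr, ?_⟩
  rw [dist_Law]
  have h2 : HasSum (fun d => t * (p.1 d + q.1 d)) (2 * t) := by
    have := ((hasSum_Law p).add (hasSum_Law q)).mul_left t
    rwa [show t * (1 + 1) = 2 * t by ring] at this
  have h3 : ∀ d, |r.1 d - p.1 d| ≤ t * (p.1 d + q.1 d) := by
    intro d
    rw [hr d, show (1 - t) * p.1 d + t * q.1 d - p.1 d = t * (q.1 d - p.1 d) by ring, abs_mul,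
      abs_of_nonneg h0]
    refine mul_le_mul_of_nonneg_left ?_ h0
    have h4 := p.2.1 d
    have h5 := q.2.1 d
    rw [abs_le]
    constructor <;> linarith
  rw [← h2.tsum_eq]
  exact (Summable.of_nonneg_of_le (fun d => abs_nonneg _) h3 h2.summable).tsum_le_tsum h3
    h2.summable

/-- truncation. -/
lemma dense_FS : Dense FS := by
  rw [Metric.dense_iff]
  intro p ε hε
  -- small tail
  have hs := hasSum_Law p
  obtain ⟨N, hN⟩ : ∃ N : ℕ, 1 ≤ N ∧ 1 - ε / 4 < ∑ d ∈ range (N + 1), p.1 d := by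
    have h1 := hs.tendsto_sum_nat
    have h2 := (h1.eventually (lt_mem_nhds (show 1 - ε / 4 < 1 by linarith)))
    obtain ⟨N, hN⟩ := Filter.eventually_atTop.1 h2
    exact ⟨N + 1, by omega, hN _ (by omega)⟩
  set s := ∑ d ∈ range (N + 1), p.1 d with hsdef
  have hs1 : s ≤ 1 := by
    calc s ≤ ∑' d, p.1 d := (summable_coe p.1).sum_le_tsum _ fun d _ => p.2.1 d
      _ = 1 := p.2.2.2
  set g : ℕ → ℝ := fun d => (if d < N + 1 then p.1 d else 0) + (if d = 1 then 1 - s else 0) with hg
  have hsum1 : HasSum (fun d => if d < N + 1 then p.1 d else 0) s := by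
    have h3 : HasSum (fun d => if d < N + 1 then p.1 d else 0)
        (∑ d ∈ range (N + 1), if d < N + 1 then p.1 d else 0) :=
      hasSum_sum_of_ne_finset_zero (by
        intro d hd
        rw [Finset.mem_range] at hd
        rw [if_neg hd])
    have h4 : (∑ d ∈ range (N + 1), if d < N + 1 then p.1 d else 0) = s := by
      rw [hsdef]
      refine Finset.sum_congr rfl fun d hd => ?_
      rw [if_pos (Finset.mem_range.1 hd)]
    rwa [h4] at h3
  have hsum2 : HasSum (fun d : ℕ => if d = 1 then 1 - s else 0) (1 - s) := hasSum_ite_eq 1 (1 - s)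
  obtain ⟨q, hq⟩ := exists_Law (g := g)
    (fun d => by
      simp only [hg]
      refine add_nonneg ?_ ?_
      · split_ifs
        · exact p.2.1 d
        · exact le_rfl
      · split_ifs
        · linarith
        · exact le_rfl)
    (by simp [hg, p.2.2.1])
    (by
      have := hsum1.add hsum2
      simpa [hg] using this)
  refine ⟨q, ?_, N, fun d hd => ?_⟩
  · rw [Metric.mem_ball, dist_Law]
    have h3 : ∀ d, |q.1 d - p.1 d| ≤ (p.1 d - (if d < N + 1 then p.1 d else 0)) +
        (if d = 1 then 1 - s else 0) := by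
      intro d
      rw [hq d]
      simp only [hg]
      have h4 := p.2.1 d
      by_cases h5 : d < N + 1
      · rw [if_pos h5]
        split_ifs
        · rw [abs_le]; constructor <;> linarith
        · rw [abs_le]; constructor <;> linarith
      · rw [if_neg h5]
        split_ifs
        · rw [abs_le]; constructor <;> linarith
        · rw [abs_le]; constructor <;> linarith
    have h6 : HasSum (fun d => (p.1 d - (if d < N + 1 then p.1 d else 0)) +
        (if d = 1 then 1 - s else 0)) ((1 - s) + (1 - s)) := (hs.sub hsum1).add hsum2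
    have h7 := (Summable.of_nonneg_of_le (fun d => abs_nonneg _) h3 h6.summable).tsum_le_tsum h3
      h6.summable
    rw [h6.tsum_eq] at h7
    linarith
  · rw [hq d]
    simp only [hg]
    rw [if_neg (by omega), if_neg (by omega), add_zero]

/-! ### heavy laws -/

lemma dense_HH {f : ℕ → ℝ} (hf : ∀ d, 0 ≤ f d) (hunb : ∀ C, ∃ d, C ≤ f d) : Dense (HH f) := by
  -- a law with infinite mean of `f`
  have hunb' : ∀ C, ∃ d, 1 ≤ d ∧ C ≤ f d := by
    intro C
    obtain ⟨d, hd⟩ := hunb (max C (f 0 + 1))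
    refine ⟨d, ?_, (le_max_left _ _).trans hd⟩
    rcases Nat.eq_zero_or_pos d with rfl | h
    · have := (le_max_right C (f 0 + 1)).trans hd
      linarith
    · exact h
  choose e he1 he2 using hunb'
  set x : ℕ → ℕ := fun j => e ((2 : ℝ) ^ (j + 1)) with hx
  set g : ℕ → ℝ := fun d => ∑' j : ℕ, (if x j = d then (1 / 2 : ℝ) ^ (j + 1) else 0) with hg
  have hgeo : HasSum (fun j : ℕ => (1 / 2 : ℝ) ^ (j + 1)) 1 := by
    have h1 := hasSum_geometric_two
    have h2 := h1.mul_left (1 / 2)
    rw [show (1 / 2 : ℝ) * 2 = 1 by norm_num] at h2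
    have e1 : (fun j : ℕ => (1 / 2 : ℝ) ^ (j + 1)) = fun j : ℕ => (1 / 2 : ℝ) * (1 / 2) ^ j := by
      funext j; rw [pow_succ]; ring
    rw [e1]
    exact h2
  have hsj : ∀ d, Summable (fun j : ℕ => if x j = d then (1 / 2 : ℝ) ^ (j + 1) else 0) := by
    intro d
    refine Summable.of_nonneg_of_le (fun j => ?_) (fun j => ?_) hgeo.summable
    · split_ifs <;> positivity
    · split_ifs
      · exact le_rfl
      · positivity
  -- the law through `ℝ≥0∞`
  set G' : ℕ → ℝ≥0∞ := fun d => ∑' j : ℕ, (if x j = d then ENNReal.ofReal ((1 / 2 : ℝ) ^ (j + 1))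
    else 0) with hG'
  have hGg : ∀ d, G' d = ENNReal.ofReal (g d) := by
    intro d
    simp only [hG', hg]
    rw [ENNReal.ofReal_tsum_of_nonneg (fun j => by split_ifs <;> positivity) (hsj d)]
    refine tsum_congr fun j => ?_
    split_ifs <;> simp
  have hG1 : ∑' d, G' d = 1 := by
    simp only [hG']
    rw [ENNReal.tsum_comm]
    have h1 : ∀ j : ℕ, ∑' d : ℕ, (if x j = d then ENNReal.ofReal ((1 / 2 : ℝ) ^ (j + 1)) else 0) =
        ENNReal.ofReal ((1 / 2 : ℝ) ^ (j + 1)) := by
      intro j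
      simp_rw [eq_comm (a := x j)]
      rw [tsum_ite_eq]
    simp only [h1]
    rw [← ENNReal.ofReal_tsum_of_nonneg (fun j => by positivity) hgeo.summable, hgeo.tsum_eq,
      ENNReal.ofReal_one]
  have hg0 : ∀ d, 0 ≤ g d := fun d => tsum_nonneg fun j => by split_ifs <;> positivity
  have hgsum : Summable g := by
    have h1 : ∑' d, ENNReal.ofReal (g d) ≠ ∞ := by
      simp only [← hGg, hG1]; exact ENNReal.one_ne_top
    have h2 := ENNReal.summable_toReal h1
    refine h2.congr fun d => ?_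
    rw [ENNReal.toReal_ofReal (hg0 d)]
  have hghas : HasSum g 1 := by
    have h1 : ENNReal.ofReal (∑' d, g d) = 1 := by
      rw [ENNReal.ofReal_tsum_of_nonneg hg0 hgsum]
      simp only [← hGg, hG1]
    have h2 : ∑' d, g d = 1 := by
      have h3 := congrArg ENNReal.toReal h1
      rwa [ENNReal.toReal_ofReal (tsum_nonneg hg0), ENNReal.toReal_one] at h3
    rw [← h2]
    exact hgsum.hasSum
  have hgz : g 0 = 0 := by
    simp only [hg]
    have : ∀ j : ℕ, (if x j = 0 then (1 / 2 : ℝ) ^ (j + 1) else 0) = 0 := by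
      intro j
      have h1 := he1 ((2 : ℝ) ^ (j + 1))
      rw [if_neg]
      simp only [hx]
      omega
    simp only [this, tsum_zero]
  obtain ⟨q, hq⟩ := exists_Law hg0 hgz hghas
  have hqtop : ∑' d, ENNReal.ofReal (q.1 d * f d) = ∞ := by
    have h1 : ∀ d, ENNReal.ofReal (q.1 d * f d) = ∑' j : ℕ,
        (if x j = d then ENNReal.ofReal ((1 / 2 : ℝ) ^ (j + 1)) * ENNReal.ofReal (f d) else 0) := by
      intro d
      rw [hq d, ENNReal.ofReal_mul (hg0 d), ← hGg]
      simp only [hG']
      rw [← ENNReal.tsum_mul_right]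
      refine tsum_congr fun j => ?_
      split_ifs <;> simp
    simp only [h1]
    rw [ENNReal.tsum_comm]
    have h2 : ∀ j : ℕ, (1 : ℝ≥0∞) ≤ ∑' d : ℕ,
        (if x j = d then ENNReal.ofReal ((1 / 2 : ℝ) ^ (j + 1)) * ENNReal.ofReal (f d) else 0) := by
      intro j
      refine le_trans ?_ (ENNReal.le_tsum (x j))
      rw [if_pos rfl, ← ENNReal.ofReal_mul (by positivity), ← ENNReal.ofReal_one]
      apply ENNReal.ofReal_le_ofReal
      have h3 := he2 ((2 : ℝ) ^ (j + 1))
      calc (1 : ℝ) = (1 / 2 : ℝ) ^ (j + 1) * 2 ^ (j + 1) := by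
            rw [← mul_pow]; norm_num
        _ ≤ _ := by gcongr
    rw [eq_top_iff]
    calc (∞ : ℝ≥0∞) = ∑' _ : ℕ, (1 : ℝ≥0∞) := by
          rw [ENNReal.tsum_const_eq_top_of_ne_zero one_ne_zero]
      _ ≤ _ := ENNReal.tsum_le_tsum h2
  rw [Metric.dense_iff]
  intro p ε hε
  set t := min (1 / 2) (ε / 4) with ht
  have ht0 : 0 < t := lt_min (by norm_num) (by linarith)
  have ht1 : t ≤ 1 / 2 := min_le_left _ _
  have ht2 : t ≤ ε / 4 := min_le_right _ _
  obtain ⟨r, hr, hdist⟩ := exists_mix p q ht0.le (by linarith)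
  refine ⟨r, ?_, ?_⟩
  · rw [Metric.mem_ball]
    linarith
  · rw [HH_eq hf]
    show ∑' d, ENNReal.ofReal (r.1 d * f d) = ∞
    rw [eq_top_iff]
    calc (∞ : ℝ≥0∞) = ENNReal.ofReal t * ∑' d, ENNReal.ofReal (q.1 d * f d) := by
          rw [hqtop, ENNReal.mul_top (by simpa using ht0)]
      _ = ∑' d, ENNReal.ofReal (t * (q.1 d * f d)) := by
          rw [← ENNReal.tsum_mul_left]
          refine tsum_congr fun d => ?_
          rw [ENNReal.ofReal_mul ht0.le]
      _ ≤ _ := by
          refine ENNReal.tsum_le_tsum fun d => ENNReal.ofReal_le_ofReal ?_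
          rw [hr d]
          have h1 : 0 ≤ (1 - t) * p.1 d * f d :=
            mul_nonneg (mul_nonneg (by linarith) (p.2.1 d)) (hf d)
          nlinarith

lemma dense_GG_inter {f : ℕ → ℝ} (hf : ∀ d, 0 ≤ f d) (hunb : ∀ C, ∃ d, C ≤ f d) :
    Dense (GG ∩ HH f) :=
  (dense_FS.mono FS_subset_GG).inter_of_Gδ isGδ_GG (isGδ_HH hf) (dense_HH hf hunb)

/-! ### percolating laws are dense -/

lemma hasSum_telescope : HasSum (fun d : ℕ => 1 / ((d : ℝ) + 1) - 1 / ((d : ℝ) + 2)) 1 := by
  rw [hasSum_iff_tendsto_nat_of_nonneg]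
  · have h1 : ∀ n : ℕ, ∑ d ∈ range n, (1 / ((d : ℝ) + 1) - 1 / ((d : ℝ) + 2)) =
        1 - 1 / ((n : ℝ) + 1) := by
      intro n
      induction n with
      | zero => simp
      | succ n ih =>
        rw [Finset.sum_range_succ, ih]
        push_cast
        ring
    simp only [h1]
    have h2 := tendsto_one_div_add_atTop_nhds_zero_nat (𝕜 := ℝ)
    have h3 := h2.const_sub 1
    simpa using h3
  · intro d
    rw [sub_nonneg]
    exact one_div_le_one_div_of_le (by positivity) (by linarith)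

lemma hasSum_tele_tail (x : ℕ) :
    HasSum (fun d : ℕ => 1 / (((d + x : ℕ) : ℝ) + 1) - 1 / (((d + x : ℕ) : ℝ) + 2))
      (1 / ((x : ℝ) + 1)) := by
  have h1 := (hasSum_nat_add_iff' (f := fun d : ℕ => 1 / ((d : ℝ) + 1) - 1 / ((d : ℝ) + 2)) x).2
    hasSum_telescope
  have h2 : ∀ n : ℕ, ∑ d ∈ range n, (1 / ((d : ℝ) + 1) - 1 / ((d : ℝ) + 2)) =
      1 - 1 / ((n : ℝ) + 1) := by
    intro n
    induction n with
    | zero => simp
    | succ n ih =>
      rw [Finset.sum_range_succ, ih]
      push_cast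
      ring
  rw [h2] at h1
  have h3 : 1 - (1 - 1 / ((x : ℝ) + 1)) = 1 / ((x : ℝ) + 1) := by ring
  rwa [h3] at h1

lemma FS_subset_closure : FS ⊆ closure GGᶜ := by
  rintro p ⟨N, hN⟩
  rw [Metric.mem_closure_iff]
  intro ε hε
  -- the law `1 / (d (d + 1))`
  set g : ℕ → ℝ := fun d => if d = 0 then 0 else 1 / (d : ℝ) - 1 / ((d : ℝ) + 1) with hg
  have hgsucc : ∀ d : ℕ, g (d + 1) = 1 / ((d : ℝ) + 1) - 1 / ((d : ℝ) + 2) := by
    intro d
    simp only [hg]
    rw [if_neg (by omega)]
    push_cast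
    ring
  have hg0 : ∀ d, 0 ≤ g d := by
    intro d
    simp only [hg]
    split_ifs with h
    · exact le_rfl
    · have : (0 : ℝ) < d := by exact_mod_cast Nat.pos_of_ne_zero h
      rw [sub_nonneg]
      exact one_div_le_one_div_of_le this (by linarith)
  have hgz : g 0 = 0 := by simp [hg]
  have hgs : HasSum g 1 := by
    rw [← hasSum_nat_add_iff' 1]
    simp only [Finset.range_one, Finset.sum_singleton, hgz, sub_zero, hgsucc]
    exact hasSum_telescope
  obtain ⟨q, hq⟩ := exists_Law hg0 hgz hgs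
  set t := min (1 / 2) (ε / 4) with ht
  have ht0 : 0 < t := lt_min (by norm_num) (by linarith)
  have ht1 : t ≤ 1 / 2 := min_le_left _ _
  have ht2 : t ≤ ε / 4 := min_le_right _ _
  obtain ⟨r, hr, hdist⟩ := exists_mix p q ht0.le (by linarith)
  refine ⟨r, ?_, ?_⟩
  · intro hmem
    -- the tail of the law
    have htailq : ∀ x : ℕ, HasSum (fun d : ℕ => if x < d then q.1 d else 0)
        (1 / ((x : ℝ) + 1)) := by
      intro x
      have h1 : HasSum (fun d : ℕ => if x < d + (x + 1) then q.1 (d + (x + 1)) else 0)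
          (1 / ((x : ℝ) + 1)) := by
        have h2 := hasSum_tele_tail x
        convert h2 using 1
        funext d
        rw [if_pos (by omega), hq, show d + (x + 1) = (d + x) + 1 by ring, hgsucc]
      rw [hasSum_nat_add_iff (f := fun d : ℕ => if x < d then q.1 d else 0)] at h1
      have h3 : (∑ i ∈ range (x + 1), if x < i then q.1 i else 0) = 0 := by
        refine Finset.sum_eq_zero fun d hd => ?_
        rw [Finset.mem_range] at hd
        rw [if_neg (by omega)]
      rwa [h3, add_zero] at h1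
    have htailp : ∀ x : ℕ, Summable (fun d : ℕ => if x < d then p.1 d else 0) := by
      intro x
      refine Summable.of_nonneg_of_le (fun d => ?_) (fun d => ?_) (summable_coe p.1)
      · split_ifs
        · exact p.2.1 d
        · exact le_rfl
      · split_ifs
        · exact le_rfl
        · exact p.2.1 d
    have htau : ∀ x : ℕ, ∑' d : ℕ, (if x < d then (toPMF r d).toReal else 0) =
        (1 - t) * (∑' d : ℕ, if x < d then p.1 d else 0) + t * (1 / ((x : ℝ) + 1)) := by
      intro x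
      rw [← (htailq x).tsum_eq, ← tsum_mul_left, ← tsum_mul_left,
        ← ((htailp x).mul_left _).tsum_add ((htailq x).summable.mul_left _)]
      refine tsum_congr fun d => ?_
      rw [toPMF_toReal, hr]
      split_ifs <;> ring
    have hp1 : ∀ x : ℕ, (∑' d : ℕ, if x < d then p.1 d else 0) ≤ 1 := by
      intro x
      rw [← p.2.2.2]
      refine (htailp x).tsum_le_tsum (fun d => ?_) (summable_coe p.1)
      split_ifs
      · exact le_rfl
      · exact p.2.1 d
    have hp0 : ∀ x : ℕ, 0 ≤ (∑' d : ℕ, if x < d then p.1 d else 0) := by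
      intro x
      refine tsum_nonneg fun d => ?_
      split_ifs
      · exact p.2.1 d
      · exact le_rfl
    have hpN : ∀ x : ℕ, N ≤ x → (∑' d : ℕ, if x < d then p.1 d else 0) = 0 := by
      intro x hx
      have : ∀ d : ℕ, (if x < d then p.1 d else 0) = 0 := by
        intro d
        split_ifs with h
        · exact hN d (by omega)
        · rfl
      simp only [this, tsum_zero]
    obtain ⟨x₀, hx₀⟩ := power_tail (toPMF r) (α := 1) (C₁ := t / 2) (C₂ := (N : ℝ) + 1)
      one_pos (by norm_num) (by positivity) (fun x hx => by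
        have hx1 : (1 : ℝ) ≤ x := by exact_mod_cast hx
        have hx0 : (0 : ℝ) < x := by linarith
        rw [htau x, Real.rpow_neg_one]
        constructor
        · have h1 : t / 2 * (x : ℝ)⁻¹ ≤ t * (1 / ((x : ℝ) + 1)) := by
            rw [mul_one_div, div_mul_eq_mul_div, div_le_div_iff₀ (by norm_num) (by positivity)]
            have h2 : (x : ℝ)⁻¹ * ((x : ℝ) + 1) ≤ 2 := by
              rw [mul_add, inv_mul_cancel₀ hx0.ne', mul_one]
              have := inv_le_one_of_one_le₀ hx1
              linarith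
            nlinarith
          have h3 := mul_nonneg (show 0 ≤ 1 - t by linarith) (hp0 x)
          linarith
        · have h4 : t * (1 / ((x : ℝ) + 1)) ≤ (x : ℝ)⁻¹ := by
            rw [← one_div]
            have h5 : 1 / ((x : ℝ) + 1) ≤ 1 / (x : ℝ) :=
              one_div_le_one_div_of_le hx0 (by linarith)
            have h6 : 0 ≤ 1 / ((x : ℝ) + 1) := by positivity
            nlinarith
          by_cases hxN : N ≤ x
          · rw [hpN x hxN, mul_zero, zero_add]
            have h7 : 0 ≤ (N : ℝ) * (x : ℝ)⁻¹ := by positivity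
            linarith [show ((N : ℝ) + 1) * (x : ℝ)⁻¹ = (N : ℝ) * (x : ℝ)⁻¹ + (x : ℝ)⁻¹ by ring]
          · have h8 : (x : ℝ) ≤ N := by exact_mod_cast (not_le.1 hxN).le
            have h9 : 1 ≤ (N : ℝ) * (x : ℝ)⁻¹ := by
              rw [← div_eq_mul_inv, le_div_iff₀ hx0]; linarith
            have h10 : (1 - t) * (∑' d : ℕ, if x < d then p.1 d else 0) ≤ 1 := by
              have := hp1 x
              have := hp0 x
              nlinarith
            linarith [show ((N : ℝ) + 1) * (x : ℝ)⁻¹ = (N : ℝ) * (x : ℝ)⁻¹ + (x : ℝ)⁻¹ by ring])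
    obtain ⟨A, B, hAB⟩ := heavy_lyap (toPMF r) (toPMF_zero r) (c := 5) (by norm_num) hx₀
    have hS : ∑' n, Sv (nu (toPMF r)) n 0 ≠ ∞ :=
      ne_top_of_le_ne_top ENNReal.ofReal_ne_top
        (tsum_Sv_le (nu (toPMF r)) (fun z => ENNReal.ofReal (B * ((z : ℝ) + A) ^ 2)) hAB 0)
    have h1 : Fs (nu (toPMF r)) ≠ ∞ :=
      ne_top_of_le_ne_top (ENNReal.mul_ne_top hS hS) (Fs_le (nu_swap _))
    exact h1 hmem
  · rw [dist_comm]
    linarith

lemma dense_GGc : Dense GGᶜ := Dense.of_closure (dense_FS.mono FS_subset_closure)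

end Pool.Agent.W_63dac5_h37
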