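import Pool.Agent.W_63dac5_h37.Top2

/-!
# The metric space of degree laws, in elementary terms
-/

namespace Pool.Agent.W_63dac5_h37

open ENNReal Topology
open Pool.Agent.W_MP_63dac5_pr

/-- A probability measure on the positive integers, given by its masses. -/
@[ext]
structure DegreeLaw where
  /-- the mass of the point `d` -/
  mass : ℕ → ℝ
  nonneg : ∀ d, 0 ≤ mass d
  mass_zero : mass 0 = 0
  hasSum : HasSum mass 1

/-- the total variation of the difference. -/
noncomputable def tvDist (p q : DegreeLaw) : ℝ := ∑' d, |p.mass d - q.mass d|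

lemma summable_diff (p q : DegreeLaw) : Summable (fun d => |p.mass d - q.mass d|) :=
  (p.hasSum.summable.sub q.hasSum.summable).abs

noncomputable instance : MetricSpace DegreeLaw where
  dist := tvDist
  dist_self p := by simp [tvDist]
  dist_comm p q := tsum_congr fun d => abs_sub_comm _ _
  dist_triangle p q r := by
    have h1 := summable_diff p q
    have h2 := summable_diff q r
    have h3 : tvDist p q + tvDist q r = ∑' d, (|p.mass d - q.mass d| + |q.mass d - r.mass d|) :=
      (h1.tsum_add h2).symm
    rw [h3]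
    refine (summable_diff p r).tsum_le_tsum (fun d => ?_) (h1.add h2)
    exact abs_sub_le _ _ _
  eq_of_dist_eq_zero := by
    intro p q h
    have h1 : HasSum (fun d => |p.mass d - q.mass d|) 0 := by
      have h2 := (summable_diff p q).hasSum
      have h3 : ∑' d, |p.mass d - q.mass d| = 0 := h
      rwa [h3] at h2
    have h4 := (hasSum_zero_iff_of_nonneg (fun d => abs_nonneg _)).1 h1
    ext d
    have h5 := congrFun h4 d
    have h6 : |p.mass d - q.mass d| = 0 := h5
    rw [abs_eq_zero] at h6
    linarith

/-- the same law in `ℓ¹`. -/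
noncomputable def toLaw (p : DegreeLaw) : Law :=
  ⟨⟨p.mass, by
    refine memℓp_gen ?_
    simp only [ENNReal.toReal_one, Real.rpow_one]
    exact p.hasSum.summable.norm⟩, p.nonneg, p.mass_zero, p.hasSum.tsum_eq⟩

lemma toLaw_apply (p : DegreeLaw) (d : ℕ) : (toLaw p).1 d = p.mass d := rfl

lemma toLaw_isometry : Isometry toLaw := by
  refine Isometry.of_dist_eq fun p q => ?_
  rw [dist_Law]
  rfl

lemma toLaw_surjective : Function.Surjective toLaw := by
  intro q
  refine ⟨⟨fun d => q.1 d, q.2.1, q.2.2.1, hasSum_Law q⟩, ?_⟩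
  rfl

/-- the homeomorphism. -/
noncomputable def lawEquiv : DegreeLaw ≃ᵢ Law :=
  IsometryEquiv.mk (Equiv.ofBijective toLaw ⟨toLaw_isometry.injective, toLaw_surjective⟩)
    toLaw_isometry

lemma lawEquiv_apply (p : DegreeLaw) : lawEquiv p = toLaw p := rfl

/-- the degree laws without percolation. -/
def NN : Set DegreeLaw := lawEquiv ⁻¹' GG

lemma isGδ_NN : IsGδ NN := isGδ_GG.preimage lawEquiv.continuous

lemma dense_preimage {S : Set Law} (hS : Dense S) : Dense (lawEquiv ⁻¹' S) :=
  hS.preimage lawEquiv.toHomeomorph.isOpenMap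

lemma dense_NNc : Dense NNᶜ := dense_preimage dense_GGc

lemma dense_NN_inter {f : ℕ → ℝ} (hf : ∀ d, 0 ≤ f d) (hunb : ∀ C, ∃ d, C ≤ f d) :
    Dense (NN ∩ {p : DegreeLaw | ¬ Summable (fun d => p.mass d * f d)}) :=
  dense_preimage (dense_GG_inter hf hunb)

end Pool.Agent.W_63dac5_h37
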